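import Pool.Agent.Run7.h4.VS.Defs

/-!
# The combinatorics of the bad cells: every charge is enclosed by good rings
-/

namespace Pool.Agent.Run7.h897.CO

open Run7.h4.VS (ring)

/-! ### arcs -/

/-- arcs of the cycle -/
def arc {n : ℕ} (s : ZMod n) (a : ℕ) : Finset (ZMod n) :=
  (Finset.range a).image fun i : ℕ => s + (i : ZMod n)

lemma mem_arc {n : ℕ} {s z : ZMod n} {a : ℕ} : z ∈ arc s a ↔ ∃ i < a, z = s + (i : ZMod n) := by
  unfold arc
  simp only [Finset.mem_image, Finset.mem_range]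
  exact ⟨fun ⟨i, h1, h2⟩ => ⟨i, h1, h2.symm⟩, fun ⟨i, h1, h2⟩ => ⟨i, h1, h2.symm⟩⟩

lemma cast_inj' {n : ℕ} {i j : ℕ} (hi : i < n) (hj : j < n)
    (h : (i : ZMod n) = j) : i = j := by
  have h1 := (ZMod.natCast_eq_natCast_iff' i j n).1 h
  rwa [Nat.mod_eq_of_lt hi, Nat.mod_eq_of_lt hj] at h1

lemma sum_arc {n : ℕ} {M : Type*} [AddCommMonoid M] {s : ZMod n} {a : ℕ} (ha : a ≤ n)
    (f : ZMod n → M) : ∑ z ∈ arc s a, f z = ∑ i ∈ Finset.range a, f (s + (i : ZMod n)) := by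
  unfold arc
  rw [Finset.sum_image]
  intro i hi j hj h
  have h1 := add_left_cancel h
  simp only [Finset.coe_range, Set.mem_Iio] at hi hj
  exact cast_inj' (by omega) (by omega) h1

/-- intersections of short arcs with a common point -/
lemma arc_inf {ι : Type*} {n : ℕ} {T : Finset ι} (hT : T.Nonempty) (s : ι → ZMod n)
    (a : ι → ℕ) {A : ℕ} (hA : 2 * A ≤ n) (ha : ∀ p ∈ T, a p ≤ A) {z : ZMod n}
    (hz : ∀ p ∈ T, z ∈ arc (s p) (a p)) :
    ∃ p1 ∈ T, ∃ p2 ∈ T, ∃ b : ℕ, 1 ≤ b ∧ b ≤ A ∧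
      s p1 + ((b - 1 : ℕ) : ZMod n) = s p2 + ((a p2 - 1 : ℕ) : ZMod n) ∧
      ∀ y, y ∈ arc (s p1) b ↔ ∀ p ∈ T, y ∈ arc (s p) (a p) := by
  have hz' : ∀ p, ∃ i : ℕ, p ∈ T → i < a p ∧ z = s p + (i : ZMod n) := by
    intro p
    by_cases hp : p ∈ T
    · obtain ⟨i, h1, h2⟩ := mem_arc.1 (hz p hp)
      exact ⟨i, fun _ => ⟨h1, h2⟩⟩
    · exact ⟨0, fun h => absurd h hp⟩
  choose i hi using hz'
  obtain ⟨p1, h1, h1'⟩ := T.exists_min_image (fun p => i p) hT
  obtain ⟨p2, h2, h2'⟩ := T.exists_min_image (fun p => a p - 1 - i p) hT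
  obtain ⟨j1, k1⟩ := hi p1 h1
  obtain ⟨j2, k2⟩ := hi p2 h2
  have m1 := h1' p2 h2
  have e1 : ∀ p ∈ T, s p = z - (i p : ZMod n) := by
    intro p hp
    rw [(hi p hp).2]
    ring
  have b1 := ha p1 h1
  have b2 := ha p2 h2
  refine ⟨p1, h1, p2, h2, i p1 + (a p2 - i p2), by omega, by omega, ?_, fun y => ?_⟩
  · rw [e1 p1 h1, e1 p2 h2]
    have e2 : i p1 + (a p2 - i p2) - 1 = i p1 + (a p2 - 1 - i p2) := by omega
    have e3 : a p2 - 1 = i p2 + (a p2 - 1 - i p2) := by omega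
    rw [e2]
    conv_rhs => rw [e3]
    push_cast
    ring
  · rw [mem_arc]
    constructor
    · rintro ⟨u, hu, rfl⟩ p hp
      rw [mem_arc]
      have m3 := h1' p hp
      have m4 := h2' p hp
      have m5 := (hi p hp).1
      refine ⟨i p - i p1 + u, by omega, ?_⟩
      rw [e1 p hp, e1 p1 h1]
      push_cast [Nat.cast_sub m3]
      ring
    · intro hy
      obtain ⟨u1, hu1, hy1⟩ := mem_arc.1 (hy p1 h1)
      obtain ⟨u2, hu2, hy2⟩ := mem_arc.1 (hy p2 h2)
      refine ⟨u1, ?_, hy1⟩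
      have e4 : ((u1 + i p2 : ℕ) : ZMod n) = ((u2 + i p1 : ℕ) : ZMod n) := by
        rw [hy1, e1 p1 h1, e1 p2 h2] at hy2
        push_cast
        linear_combination hy2
      have e5 := cast_inj' (by omega) (by omega) e4
      omega

/-! ### low lines -/

lemma exists_low {f : ℕ → ℝ} {R : ℕ} {E θ : ℝ} (hs : ∑ i ∈ Finset.range R, f i ≤ E)
    (hR : E < R * θ) : ∃ i < R, f i < θ := by
  by_contra h
  push Not at h
  have h1 : (R : ℝ) * θ ≤ ∑ i ∈ Finset.range R, f i := by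
    have := Finset.card_nsmul_le_sum (Finset.range R) f θ fun i hi => h i (Finset.mem_range.1 hi)
    rwa [Finset.card_range, nsmul_eq_mul] at this
  linarith

section

variable {n L : ℕ}

/-- the energy of a part of a column -/
def col (e : ZMod n → ZMod L → ℝ) (s : ZMod n) (r : ZMod L) (b : ℕ) : ℝ :=
  ∑ x ∈ Finset.range b, e s (r + (x : ZMod L))

/-- the energy of a part of a row -/
def row (e : ZMod n → ZMod L → ℝ) (s : ZMod n) (r : ZMod L) (a : ℕ) : ℝ :=
  ∑ t ∈ Finset.range a, e (s + (t : ZMod n)) r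

lemma col_mono {e : ZMod n → ZMod L → ℝ} (he : ∀ t x, 0 ≤ e t x) (s : ZMod n) {r : ZMod L}
    {b c v : ℕ} (h : v + b ≤ c) : col e s (r + (v : ZMod L)) b ≤ col e s r c := by
  unfold col
  have h1 : ∑ x ∈ Finset.range b, e s (r + (v : ZMod L) + (x : ZMod L)) =
      ∑ x ∈ (Finset.range b).image (fun x => v + x), e s (r + (x : ZMod L)) := by
    rw [Finset.sum_image (fun x _ y _ hxy => by simpa using hxy)]
    refine Finset.sum_congr rfl fun x _ => ?_
    push_cast
    rw [add_assoc]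
  rw [h1]
  refine Finset.sum_le_sum_of_subset_of_nonneg ?_ fun x _ _ => he _ _
  intro x hx
  simp only [Finset.mem_image, Finset.mem_range] at hx ⊢
  omega

lemma row_mono {e : ZMod n → ZMod L → ℝ} (he : ∀ t x, 0 ≤ e t x) {s : ZMod n} (r : ZMod L)
    {a c u : ℕ} (h : u + a ≤ c) : row e (s + (u : ZMod n)) r a ≤ row e s r c :=
  col_mono (e := fun x t => e t x) (fun _ _ => he _ _) r (r := s) h

/-- a rectangle around a cell with sides of low energy -/
lemma exists_rect {e : ZMod n → ZMod L → ℝ} (he : ∀ t x, 0 ≤ e t x) {R : ℕ} {E θ : ℝ}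
    (hR : E < R * θ) {s0 : ZMod n} {r0 : ZMod L}
    (hE : ∑ t ∈ Finset.range (2 * R + 1), ∑ x ∈ Finset.range (2 * R + 1),
      e (s0 + (t : ZMod n)) (r0 + (x : ZMod L)) ≤ E) :
    ∃ u a v b : ℕ, u ≤ R ∧ R < u + a ∧ u + a ≤ 2 * R + 1 ∧ v ≤ R ∧ R < v + b ∧
      v + b ≤ 2 * R + 1 ∧
      col e (s0 + (u : ZMod n)) (r0 + (v : ZMod L)) b < θ ∧
      col e (s0 + ((u + a - 1 : ℕ) : ZMod n)) (r0 + (v : ZMod L)) b < θ ∧
      row e (s0 + (u : ZMod n)) (r0 + (v : ZMod L)) a < θ ∧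
      row e (s0 + (u : ZMod n)) (r0 + ((v + b - 1 : ℕ) : ZMod L)) a < θ := by
  have key : ∀ f : ℕ → ℝ, (∀ i, 0 ≤ f i) → ∑ i ∈ Finset.range (2 * R + 1), f i ≤ E →
      (∃ u ≤ R, f u < θ) ∧ ∃ u, R < u + 1 ∧ u ≤ 2 * R ∧ f u < θ := by
    intro f hf hs
    have h1 : ∑ i ∈ Finset.range R, f i ≤ E := by
      refine le_trans (Finset.sum_le_sum_of_subset_of_nonneg ?_ fun i _ _ => hf i) hs
      exact Finset.range_mono (by omega)
    have h2 : ∑ i ∈ Finset.range R, f (R + i) ≤ E := by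
      have h3 : ∑ i ∈ Finset.range R, f (R + i) =
          ∑ i ∈ (Finset.range R).image (fun x => R + x), f i := by
        rw [Finset.sum_image (fun x _ y _ hxy => by simpa using hxy)]
      rw [h3]
      refine le_trans (Finset.sum_le_sum_of_subset_of_nonneg ?_ fun i _ _ => hf i) hs
      intro x hx
      simp only [Finset.mem_image, Finset.mem_range] at hx ⊢
      omega
    obtain ⟨u1, hu1, hf1⟩ := exists_low h1 hR
    obtain ⟨u2, hu2, hf2⟩ := exists_low h2 hR
    exact ⟨⟨u1, hu1.le, hf1⟩, R + u2, by omega, by omega, hf2⟩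
  obtain ⟨⟨u1, hu1, c1⟩, u2, hu2, hu2', c2⟩ := key
    (fun t => col e (s0 + (t : ZMod n)) r0 (2 * R + 1))
    (fun t => Finset.sum_nonneg fun _ _ => he _ _) hE
  obtain ⟨⟨v1, hv1, d1⟩, v2, hv2, hv2', d2⟩ := key
    (fun x => row e s0 (r0 + (x : ZMod L)) (2 * R + 1))
    (fun t => Finset.sum_nonneg fun _ _ => he _ _) (by
      unfold row
      rw [Finset.sum_comm]
      exact hE)
  refine ⟨u1, u2 + 1 - u1, v1, v2 + 1 - v1, hu1, by omega, by omega, hv1, by omega, by omega,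
    ?_, ?_, ?_, ?_⟩
  · exact (col_mono he _ (by omega)).trans_lt c1
  · have e1 : u1 + (u2 + 1 - u1) - 1 = u2 := by omega
    rw [e1]
    exact (col_mono he _ (by omega)).trans_lt c2
  · exact (row_mono he _ (by omega)).trans_lt d1
  · have e1 : v1 + (v2 + 1 - v1) - 1 = v2 := by omega
    rw [e1]
    exact (row_mono he _ (by omega)).trans_lt d2

/-- the energy of a ring is at most the energy of the sides -/
lemma ring_le {e : ZMod n → ZMod L → ℝ} (he : ∀ t x, 0 ≤ e t x) (s : ZMod n) (r : ZMod L)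
    (a b : ℕ) : ∑ p ∈ ring a b, e (s + (p.1 : ZMod n)) (r + (p.2 : ZMod L)) ≤
      col e s r b + col e (s + ((a - 1 : ℕ) : ZMod n)) r b + row e s r a +
        row e s (r + ((b - 1 : ℕ) : ZMod L)) a := by
  classical
  have h1 : ∀ p : ℕ × ℕ, p ∈ ring a b → p.1 < a ∧ p.2 < b ∧
      (p.1 = 0 ∨ p.1 = a - 1 ∨ p.2 = 0 ∨ p.2 = b - 1) := by
    intro p hp
    unfold ring at hp
    simp only [Finset.mem_filter, Finset.mem_product, Finset.mem_range] at hp
    refine ⟨hp.1.1, hp.1.2, ?_⟩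
    omega
  have h2 : ring a b ⊆ (({0} : Finset ℕ) ×ˢ Finset.range b ∪ {a - 1} ×ˢ Finset.range b) ∪
      (Finset.range a ×ˢ {0} ∪ Finset.range a ×ˢ {b - 1}) := by
    intro p hp
    obtain ⟨h3, h4, h5⟩ := h1 p hp
    simp only [Finset.mem_union, Finset.mem_product, Finset.mem_singleton, Finset.mem_range]
    tauto
  have hn : ∀ p : ℕ × ℕ, 0 ≤ e (s + (p.1 : ZMod n)) (r + (p.2 : ZMod L)) := fun p => he _ _
  have hu : ∀ A B : Finset (ℕ × ℕ), ∑ p ∈ A ∪ B, e (s + (p.1 : ZMod n)) (r + (p.2 : ZMod L)) ≤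
      ∑ p ∈ A, e (s + (p.1 : ZMod n)) (r + (p.2 : ZMod L)) +
        ∑ p ∈ B, e (s + (p.1 : ZMod n)) (r + (p.2 : ZMod L)) := by
    intro A B
    rw [← Finset.sum_union_inter]
    have := Finset.sum_nonneg fun p (_ : p ∈ A ∩ B) => hn p
    linarith
  refine (Finset.sum_le_sum_of_subset_of_nonneg h2 fun p _ _ => hn p).trans ?_
  refine (hu _ _).trans ?_
  refine (add_le_add (hu _ _) (hu _ _)).trans (le_of_eq ?_)
  rw [Finset.sum_product, Finset.sum_product, Finset.sum_product_right, Finset.sum_product_right]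
  unfold col row
  simp only [Finset.sum_singleton, Nat.cast_zero, add_zero]
  ring

/-- **The combinatorics.** -/
theorem comb : Run7.h4.VS.StCOMB := by
  intro N c _ S δ0 C ε hδ0 hC hε hεS
  obtain ⟨θ, hθ⟩ : ∃ θ, θ = min δ0 (ε / (5 * C)) / 4 := ⟨_, rfl⟩
  have hθ0 : 0 < θ := by rw [hθ]; positivity
  have hθ1 : 4 * θ ≤ δ0 := by rw [hθ]; linarith [min_le_left δ0 (ε / (5 * C))]
  have hθ2 : C * (4 * θ) < ε := by
    have h1 : 4 * θ ≤ ε / (5 * C) := by rw [hθ]; linarith [min_le_right δ0 (ε / (5 * C))]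
    calc C * (4 * θ) ≤ C * (ε / (5 * C)) := by gcongr
      _ = ε / 5 := by field_simp
      _ < ε := by linarith
  obtain ⟨R, hR⟩ := exists_nat_gt ((S - ε) / θ)
  rw [div_lt_iff₀ hθ0] at hR
  refine ⟨4 * R + 4, by omega, ?_⟩
  intro n L _ _ hn hL e q he hq hrect htot
  by_contra hcon
  push Not at hcon
  apply htot
  -- the rectangles
  have hsub : ∀ (s : ZMod n) (r : ZMod L) (a b : ℕ), a ≤ 4 * R + 4 → b ≤ 4 * R + 4 →
      ∑ t ∈ Finset.range a, ∑ x ∈ Finset.range b, e (s + (t : ZMod n)) (r + (x : ZMod L)) <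
        S - ε := by
    intro s r a b ha hb
    refine lt_of_le_of_lt ?_ (hcon s r)
    calc ∑ t ∈ Finset.range a, ∑ x ∈ Finset.range b, e (s + (t : ZMod n)) (r + (x : ZMod L))
        ≤ ∑ t ∈ Finset.range a, ∑ x ∈ Finset.range (4 * R + 4),
            e (s + (t : ZMod n)) (r + (x : ZMod L)) :=
          Finset.sum_le_sum fun t _ => Finset.sum_le_sum_of_subset_of_nonneg
            (Finset.range_mono hb) fun _ _ _ => he _ _
      _ ≤ _ := Finset.sum_le_sum_of_subset_of_nonneg (Finset.range_mono ha) fun _ _ _ =>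
            Finset.sum_nonneg fun _ _ => he _ _
  have hex : ∀ p : ZMod n × ZMod L, ∃ (s : ZMod n) (a : ℕ) (r : ZMod L) (b : ℕ),
      a ≤ 2 * R + 1 ∧ b ≤ 2 * R + 1 ∧ p.1 ∈ arc s a ∧ p.2 ∈ arc r b ∧
      col e s r b < θ ∧ col e (s + ((a - 1 : ℕ) : ZMod n)) r b < θ ∧
      row e s r a < θ ∧ row e s (r + ((b - 1 : ℕ) : ZMod L)) a < θ := by
    intro p
    obtain ⟨u, a, v, b, h1, h2, h3, h4, h5, h6, h7, h8, h9, h10⟩ := exists_rect he hR
      (s0 := p.1 - (R : ZMod n)) (r0 := p.2 - (R : ZMod L))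
      (hsub _ _ (2 * R + 1) (2 * R + 1) (by omega) (by omega)).le
    refine ⟨p.1 - (R : ZMod n) + (u : ZMod n), a, p.2 - (R : ZMod L) + (v : ZMod L), b,
      by omega, by omega, mem_arc.2 ⟨R - u, by omega, ?_⟩, mem_arc.2 ⟨R - v, by omega, ?_⟩,
      h7, ?_, h9, ?_⟩
    · push_cast [Nat.cast_sub h1]; ring
    · push_cast [Nat.cast_sub h4]; ring
    · have e1 : p.1 - (R : ZMod n) + (u : ZMod n) + ((a - 1 : ℕ) : ZMod n) =
          p.1 - (R : ZMod n) + ((u + a - 1 : ℕ) : ZMod n) := by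
        have : u + a - 1 = u + (a - 1) := by omega
        rw [this]
        push_cast
        ring
      rw [e1]
      exact h8
    · have e1 : p.2 - (R : ZMod L) + (v : ZMod L) + ((b - 1 : ℕ) : ZMod L) =
          p.2 - (R : ZMod L) + ((v + b - 1 : ℕ) : ZMod L) := by
        have : v + b - 1 = v + (b - 1) := by omega
        rw [this]
        push_cast
        ring
      rw [e1]
      exact h10
  choose s a r b ha hb hs hr c1 c2 c3 c4 using hex
  classical
  obtain ⟨f, hf⟩ : ∃ f : ZMod n × ZMod L → ZMod N, f = fun p => (c : ZMod N) * q p.1 p.2 :=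
    ⟨_, rfl⟩
  obtain ⟨F, hF⟩ : ∃ F : ZMod n × ZMod L → Finset (ZMod n × ZMod L),
      F = fun p => arc (s p) (a p) ×ˢ arc (r p) (b p) := ⟨_, rfl⟩
  have e0 : (c : ZMod N) * ∑ t, ∑ x, q t x = ∑ p ∈ Finset.univ.biUnion F, f p := by
    have h1 : Finset.univ.biUnion F = Finset.univ := by
      rw [Finset.eq_univ_iff_forall]
      intro p
      rw [Finset.mem_biUnion]
      refine ⟨p, Finset.mem_univ _, ?_⟩
      rw [hF]
      exact Finset.mem_product.2 ⟨hs p, hr p⟩
    rw [h1, hf, ← Finset.mul_sum, Fintype.sum_prod_type]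
  rw [e0, Finset.inclusion_exclusion_sum_biUnion]
  refine Finset.sum_eq_zero fun T _ => ?_
  obtain ⟨T, hT⟩ := T
  have hTn : T.Nonempty := (Finset.mem_filter.1 hT).2
  have hmem : ∀ y : ZMod n × ZMod L, y ∈ T.inf' hTn F ↔ ∀ p ∈ T, y ∈ F p := by
    intro y
    rw [← Finset.singleton_subset_iff]
    have h1 := Finset.le_inf'_iff (s := T) (f := F) hTn (a := ({y} : Finset _))
    refine (h1.trans ?_)
    exact forall₂_congr fun p _ => Finset.singleton_subset_iff
  have hzero : ∑ y ∈ T.inf' hTn F, f y = 0 := by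
    rcases (T.inf' hTn F).eq_empty_or_nonempty with h0 | ⟨z, hz⟩
    · rw [h0, Finset.sum_empty]
    · have hz' := (hmem z).1 hz
      rw [hF] at hz'
      obtain ⟨p1, m1, p2, m2, A, hA1, hA2, hA3, hA4⟩ := arc_inf hTn s a (A := 2 * R + 1)
        (by omega) (fun p _ => ha p) (fun p hp => (Finset.mem_product.1 (hz' p hp)).1)
      obtain ⟨p3, m3, p4, m4, B, hB1, hB2, hB3, hB4⟩ := arc_inf hTn r b (A := 2 * R + 1)
        (by omega) (fun p _ => hb p) (fun p hp => (Finset.mem_product.1 (hz' p hp)).2)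
      have hE : T.inf' hTn F = arc (s p1) A ×ˢ arc (r p3) B := by
        ext y
        rw [hmem, hF, Finset.mem_product, hA4, hB4]
        exact ⟨fun h => ⟨fun p hp => (Finset.mem_product.1 (h p hp)).1,
          fun p hp => (Finset.mem_product.1 (h p hp)).2⟩,
          fun h p hp => Finset.mem_product.2 ⟨h.1 p hp, h.2 p hp⟩⟩
      -- the sides
      have subA : ∀ p ∈ T, arc (s p1) A ⊆ arc (s p) (a p) := fun p hp y hy => (hA4 y).1 hy p hp
      have subB : ∀ p ∈ T, arc (r p3) B ⊆ arc (r p) (b p) := fun p hp y hy => (hB4 y).1 hy p hp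
      have hA : A ≤ n := by omega
      have hB : B ≤ L := by omega
      have colle : ∀ p ∈ T, ∀ t : ZMod n, col e t (r p3) B ≤ col e t (r p) (b p) := by
        intro p hp t
        unfold col
        rw [← sum_arc hB (fun x => e t x),
          ← sum_arc (show b p ≤ L by have := hb p; omega) (fun x => e t x)]
        exact Finset.sum_le_sum_of_subset_of_nonneg (subB p hp) fun _ _ _ => he _ _
      have rowle : ∀ p ∈ T, ∀ x : ZMod L, row e (s p1) x A ≤ row e (s p) x (a p) := by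
        intro p hp x
        unfold row
        rw [← sum_arc hA (fun t => e t x),
          ← sum_arc (show a p ≤ n by have := ha p; omega) (fun t => e t x)]
        exact Finset.sum_le_sum_of_subset_of_nonneg (subA p hp) fun _ _ _ => he _ _
      have hring := ring_le he (s p1) (r p3) A B
      rw [hA3, hB3] at hring
      have g1 := (colle p1 m1 (s p1)).trans_lt (c1 p1)
      have g2 := (colle p2 m2 (s p2 + ((a p2 - 1 : ℕ) : ZMod n))).trans_lt (c2 p2)
      have g3 := (rowle p3 m3 (r p3)).trans_lt (c3 p3)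
      have g4 := (rowle p4 m4 (r p4 + ((b p4 - 1 : ℕ) : ZMod L))).trans_lt (c4 p4)
      have hring' : ∑ p ∈ ring A B, e (s p1 + (p.1 : ZMod n)) (r p3 + (p.2 : ZMod L)) <
          4 * θ := by linarith
      have hgood : ∀ p ∈ ring A B, e (s p1 + (p.1 : ZMod n)) (r p3 + (p.2 : ZMod L)) < δ0 := by
        intro p hp
        refine lt_of_le_of_lt ?_ (hring'.trans_le hθ1)
        exact Finset.single_le_sum
          (f := fun p : ℕ × ℕ => e (s p1 + (p.1 : ZMod n)) (r p3 + (p.2 : ZMod L)))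
          (fun _ _ => he _ _) hp
      have hch : (c : ZMod N) * ∑ t ∈ Finset.range A, ∑ x ∈ Finset.range B,
          q (s p1 + (t : ZMod n)) (r p3 + (x : ZMod L)) = 0 := by
        by_contra hne
        have h1 := hrect (s p1) (r p3) A B hA1 hB1 (by omega) (by omega) hgood hne
        have h2 := hsub (s p1) (r p3) A B (by omega) (by omega)
        have h3 := mul_lt_mul_of_pos_left hring' hC
        linarith
      rw [hE, Finset.sum_product, sum_arc hA, hf]
      simp only [← Finset.mul_sum]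
      have e5 : ∀ t : ℕ, ∑ x ∈ arc (r p3) B, q (s p1 + (t : ZMod n)) x =
          ∑ x ∈ Finset.range B, q (s p1 + (t : ZMod n)) (r p3 + (x : ZMod L)) := fun t =>
        sum_arc hB fun x => q (s p1 + (t : ZMod n)) x
      simp only [e5]
      exact hch
  rw [hzero, smul_zero]

end

end Pool.Agent.Run7.h897.CO
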