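import Pool.Agent.Run7.h897.ST.Fin
import Pool.Agent.Run7.h4.VS.FDefs

/-!
# The bridge between the two models
-/

open MeasureTheory Matrix Filter Topology
open Pool.Agent.H906R3.YM (UN mt)
open Pool.Agent.Run7.h630.R2 (zeta TwPair en)
open Pool.Agent.Run7.h897.TW
open Pool.Agent.Run7.h897.FS (PM BM)
open Run7.h4.YM (Link Site dir plaq)
open Run7.h4.VS (twist2 action2 Zf)

namespace Pool.Agent.Run7.h897.ST

set_option linter.unusedSectionVars false
set_option linter.style.haveILetI false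

noncomputable section

abbrev S4 (N : ℕ) : Type := Run7.h4.YM.SU N
abbrev S6 (N : ℕ) : Subgroup (UN N) := Pool.Agent.Run7.h630.R2.SU N

/-- the isomorphism of the two models of `SU(N)` -/
def phi (N : ℕ) : S4 N ≃* S6 N where
  toFun g := ⟨⟨g.1, g.2.1⟩, g.2.2⟩
  invFun g := ⟨g.1.1, g.1.2, g.2⟩
  left_inv _ := rfl
  right_inv _ := rfl
  map_mul' _ _ := rfl

lemma phi_cont (N : ℕ) : Continuous (phi N) :=
  Continuous.subtype_mk (Continuous.subtype_mk continuous_subtype_val _) _

lemma phi_symm_cont (N : ℕ) : Continuous (phi N).symm :=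
  Continuous.subtype_mk (continuous_subtype_val.comp continuous_subtype_val) _

lemma mt_phi {N : ℕ} (g : S4 N) : mt (phi N g) = g.1 := rfl

instance instSC (N : ℕ) : SecondCountableTopology (UN N) :=
  TopologicalSpace.Subtype.secondCountableTopology _

instance instC (N : ℕ) : CompactSpace (S6 N) :=
  isCompact_iff_compactSpace.1 (Pool.Agent.Run7.h630.R2.SU_closed N).isCompact

/-- right invariance -/
lemma right_inv'' {H : Type*} [Group H] [TopologicalSpace H] [IsTopologicalGroup H]
    [CompactSpace H] [MeasurableSpace H] [BorelSpace H] (μ : Measure H)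
    [IsProbabilityMeasure μ] [μ.IsHaarMeasure] : μ.IsMulRightInvariant := by
  refine ⟨fun g => ?_⟩
  haveI : IsProbabilityMeasure (Measure.map (· * g) μ) :=
    Measure.isProbabilityMeasure_map (measurable_mul_const g).aemeasurable
  exact Measure.isHaarMeasure_eq_of_isProbabilityMeasure _ _

lemma inv_inv'' {H : Type*} [Group H] [TopologicalSpace H] [IsTopologicalGroup H]
    [CompactSpace H] [MeasurableSpace H] [BorelSpace H] (μ : Measure H)
    [IsProbabilityMeasure μ] [μ.IsHaarMeasure] : μ.IsInvInvariant := by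
  refine ⟨?_⟩
  haveI := right_inv'' μ
  haveI : IsProbabilityMeasure μ.inv :=
    Measure.isProbabilityMeasure_map measurable_inv.aemeasurable
  have h2 : μ.inv.IsMulLeftInvariant := inferInstance
  have h3 : μ.inv.IsHaarMeasure :=
    Measure.isHaarMeasure_of_isCompact_nonempty_interior μ.inv Set.univ isCompact_univ
      (by simp) (by simp) (by simp)
  exact Measure.isHaarMeasure_eq_of_isProbabilityMeasure _ _

variable {N : ℕ} [MeasurableSpace (S4 N)] [BorelSpace (S4 N)] [MeasurableSpace (S6 N)]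
  [BorelSpace (S6 N)]

/-- the image of the measure -/
def mu6 (μ : Measure (S4 N)) : Measure (S6 N) := μ.map (phi N)

lemma mu6_haar (μ : Measure (S4 N)) [IsProbabilityMeasure μ] [μ.IsHaarMeasure] :
    (mu6 μ).IsHaarMeasure :=
  MulEquiv.isHaarMeasure_map μ (phi N) (phi_cont N) (phi_symm_cont N)

lemma mu6_prob (μ : Measure (S4 N)) [IsProbabilityMeasure μ] : IsProbabilityMeasure (mu6 μ) :=
  Measure.isProbabilityMeasure_map (phi_cont N).measurable.aemeasurable

/-- the sites -/
def siE (a b l : ℕ) : Si a b l ≃ Site a b l where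
  toFun x := (x.1.1, x.1.2, x.2.1, x.2.2)
  invFun x := ((x.1, x.2.1), x.2.2)
  left_inv _ := rfl
  right_inv _ := rfl

/-- the links -/
def lkE (a b l : ℕ) : Lk a b l ≃ Link a b l where
  toFun e := (e.2, siE a b l e.1)
  invFun e := ((siE a b l).symm e.2, e.1)
  left_inv _ := rfl
  right_inv _ := rfl

/-- the configurations -/
def cfE {a b l : ℕ} (U : Link a b l → S4 N) : Lk a b l → S6 N := fun e => phi N (U (lkE a b l e))

lemma cfE_mp {a b l : ℕ} [NeZero a] [NeZero b] [NeZero l] (μ : Measure (S4 N))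
    [IsProbabilityMeasure μ] :
    MeasurePreserving (cfE (N := N) (a := a) (b := b) (l := l)) (Measure.pi fun _ => μ)
      (PM (mu6 μ) (Lk a b l)) := by
  haveI := mu6_prob μ
  have h1 : MeasurePreserving (fun (U : Link a b l → S4 N) i => U (lkE a b l i))
      (Measure.pi fun _ => μ) (Measure.pi fun _ => μ) := FS.mp_comp (μ := μ) (lkE a b l)
  have h2 : MeasurePreserving (fun (U : Lk a b l → S4 N) i => phi N (U i))
      (Measure.pi fun _ => μ) (PM (mu6 μ) (Lk a b l)) :=
    measurePreserving_pi (fun _ : Lk a b l => μ) (fun _ : Lk a b l => mu6 μ)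
      (f := fun _ g => phi N g) fun _ => ⟨(phi_cont N).measurable, rfl⟩
  exact h2.comp h1

lemma siE_ee {a b l : ℕ} (x : Si a b l) (i : Fin 4) :
    siE a b l (x + ee i) = siE a b l x + dir i := by
  fin_cases i <;> rfl

lemma plq_cfE {a b l : ℕ} (U : Link a b l → S4 N) (x : Si a b l) (i j : Fin 4) :
    Pool.Agent.Run7.h630.R2.plq (cfE U) x i j = phi N (plaq U (siE a b l x) i j) := by
  unfold Pool.Agent.Run7.h630.R2.plq plaq
  rw [map_mul, map_mul, map_mul, map_inv, map_inv, ← siE_ee, ← siE_ee]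
  rfl

lemma en_phi (w : ℂ) (g : S4 N) : en w (phi N g) = (N : ℝ) - (w * trace g.1).re := by
  unfold en
  rw [mt_phi, trace_sub, trace_one, trace_smul, Fintype.card_fin, Complex.sub_re,
    Complex.natCast_re, smul_eq_mul]

lemma Ioi0 : (Finset.Ioi (0 : Fin 4)) = {1, 2, 3} := by decide
lemma Ioi1 : (Finset.Ioi (1 : Fin 4)) = {2, 3} := by decide
lemma Ioi2 : (Finset.Ioi (2 : Fin 4)) = {3} := by decide
lemma Ioi3 : (Finset.Ioi (3 : Fin 4)) = ∅ := by decide

lemma exp_zeta (j : ℕ) [NeZero N] :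
    Complex.exp (2 * Real.pi * Complex.I * (j / N)) = zeta N ^ j := by
  unfold zeta
  rw [← Complex.exp_nat_mul]
  congr 1
  ring

lemma zeta_val (j : ℕ) [NeZero N] : zeta N ^ ((j : ℕ) : ZMod N).val = zeta N ^ j := by
  rw [ZMod.val_natCast, ← pow_eq_pow_mod j (Pool.Agent.Run7.h630.R2.zeta_pow N)]

lemma act_eq {a b l : ℕ} [NeZero N] [NeZero a] [NeZero b] [NeZero l] (k j : ℕ) (β : ℝ)
    (U : Link a b l → S4 N) :
    wS (Pool.Agent.Run7.h871.TC.wE N l k β) (sj a b ((j : ℕ) : ZMod N)) (cfE U) =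
      Real.exp (-(β * action2 k j U)) := by
  unfold wS
  rw [← Real.exp_sum, ← Real.exp_add]
  congr 1
  have h1 : action2 k j U = ∑ x : Si a b l,
      (((N : ℝ) - (twist2 N k j (siE a b l x) 0 1 * trace (plaq U (siE a b l x) 0 1).1).re) +
      ((N : ℝ) - (trace (plaq U (siE a b l x) 0 2).1).re) +
      ((N : ℝ) - (trace (plaq U (siE a b l x) 0 3).1).re) +
      ((N : ℝ) - (trace (plaq U (siE a b l x) 1 2).1).re) +
      ((N : ℝ) - (trace (plaq U (siE a b l x) 1 3).1).re) +
      ((N : ℝ) - (twist2 N k j (siE a b l x) 2 3 * trace (plaq U (siE a b l x) 2 3).1).re)) := by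
    unfold action2
    rw [← Equiv.sum_comp (siE a b l)]
    refine Finset.sum_congr rfl fun x _ => ?_
    rw [Fin.sum_univ_four, Ioi0, Ioi1, Ioi2, Ioi3]
    rw [Finset.sum_insert (by decide), Finset.sum_insert (by decide), Finset.sum_singleton,
      Finset.sum_insert (by decide), Finset.sum_singleton, Finset.sum_singleton,
      Finset.sum_empty]
    have t02 : twist2 N k j (siE a b l x) 0 2 = 1 := by simp [twist2]
    have t03 : twist2 N k j (siE a b l x) 0 3 = 1 := by simp [twist2]
    have t12 : twist2 N k j (siE a b l x) 1 2 = 1 := by simp [twist2]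
    have t13 : twist2 N k j (siE a b l x) 1 3 = 1 := by simp [twist2]
    rw [t02, t03, t12, t13, one_mul, one_mul, one_mul, one_mul]
    ring
  have h2 : ∑ u : ZMod a × ZMod b,
      -bsE (Pool.Agent.Run7.h871.TC.wE N l k β) (sj a b ((j : ℕ) : ZMod N) u) (cfE U) u =
      -(β * ∑ x : Si a b l,
        ((N : ℝ) - (twist2 N k j (siE a b l x) 0 1 * trace (plaq U (siE a b l x) 0 1).1).re)) := by
    rw [Finset.sum_neg_distrib, Fintype.sum_prod_type, Finset.mul_sum]
    congr 1
    rw [Fintype.sum_prod_type, Fintype.sum_prod_type]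
    refine Finset.sum_congr rfl fun u1 _ => Finset.sum_congr rfl fun u2 _ => ?_
    rw [Pool.Agent.Run7.h871.TC.bsE_eq]
    unfold Pool.Agent.Run7.h630.R2.baseE
    rw [Finset.mul_sum]
    refine Finset.sum_congr rfl fun y _ => ?_
    rw [plq_cfE, en_phi]
    congr 4
    unfold sj twist2
    by_cases h3 : u1 = 0 ∧ u2 = 0
    · obtain ⟨rfl, rfl⟩ := h3
      simp only [siE, Equiv.coe_fn_mk]
      rw [if_pos (by rfl), if_neg (by simp), if_pos (by simp), zeta_val, exp_zeta]
    · simp only [siE, Equiv.coe_fn_mk]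
      rw [if_neg (by rw [Prod.mk_eq_zero]; exact h3), if_neg (by simp), if_neg (by tauto),
        ZMod.val_zero, pow_zero]
  rw [h2, Pool.Agent.Run7.h871.TC.nbE_eq, h1]
  unfold Pool.Agent.Run7.h630.R2.nonbase
  rw [← neg_add, ← mul_add, ← Finset.sum_add_distrib]
  congr 2
  refine Finset.sum_congr rfl fun x _ => ?_
  rw [plq_cfE, plq_cfE, plq_cfE, plq_cfE, plq_cfE, en_phi, en_phi, en_phi, en_phi, en_phi]
  have t23 : twist2 N k j (siE a b l x) 2 3 = if x.2 = 0 then zeta N ^ k else 1 := by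
    unfold twist2
    by_cases h3 : x.2 = 0
    · rw [if_pos ⟨rfl, rfl, h3⟩, if_pos h3, exp_zeta]
    · rw [if_neg (fun h => h3 h.2.2), if_neg (by simp), if_neg h3]
  rw [t23]
  simp only [one_mul]
  ring

/-- **The bridge.** -/
theorem Zf_eq {a b l : ℕ} [NeZero N] [NeZero a] [NeZero b] [NeZero l] (μ : Measure (S4 N))
    [IsProbabilityMeasure μ] (k j : ℕ) (β : ℝ) :
    Zf a b l μ k j β = ZT (mu6 μ) (Pool.Agent.Run7.h871.TC.wE N l k β) (j : ZMod N) a b := by
  haveI := mu6_prob μ
  unfold Zf ZT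
  have h1 := cfE_mp (N := N) (a := a) (b := b) (l := l) μ
  rw [← h1.map_eq, integral_map h1.measurable.aemeasurable
    (wS_bm (Pool.Agent.Run7.h871.TC.wE_bd β) _).1.aestronglyMeasurable]
  congr 1
  funext U
  exact (act_eq k j β U).symm

end

end Pool.Agent.Run7.h897.ST
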