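import Pool.Agent.Run7.h897.ST.Out
import Pool.Agent.Run7.h897.ST.Comb
import Pool.Agent.Run7.h4.VS.Bounds
import Pool.Agent.Run7.h630.VS.A1
import Pool.Agent.Run7.h630.VS.A2
import Pool.Agent.Run7.h630.VS.INS
import Pool.Agent.Run7.h182.VS.FR
import Pool.Agent.Run7.h182.VS.LK

/-!
# The string tension: existence, the law of the flux and the rate
-/

open MeasureTheory Filter Topology
open Run7.h4.YM (Link)
open Run7.h4.VS (action2 Zf Bnd)

namespace Pool.Agent.Run7.h897.ST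

set_option linter.unusedSectionVars false

noncomputable section

variable {N : ℕ} [NeZero N] [MeasurableSpace (S4 N)] [BorelSpace (S4 N)]

theorem bnd (l k : ℕ) [NeZero l] (hk : Nat.Coprime k N) (μ : Measure (S4 N))
    [IsProbabilityMeasure μ] [μ.IsHaarMeasure] : ∃ S : ℕ → ℝ, Bnd N l k μ S :=
  Run7.h4.VS.bounds (Run7.h182.VS.tFR Run7.h630.VS.tA1) (Run7.h182.VS.tLK Run7.h630.VS.tA2)
    CO.comb Run7.h630.VS.tINS N l k hk μ

lemma least {S : ℕ → ℝ} (hS : ∀ j j' : ℕ, (j : ZMod N) = (j' : ZMod N) → S j = S j') {c : ℕ}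
    (hc : ¬ N ∣ c) : ∃ T, IsLeast {s | ∃ j : ℕ, ¬ N ∣ c * j ∧ s = S j} T := by
  have h1 : ((Finset.range N).filter fun j => ¬ N ∣ c * j).Nonempty := by
    have hN : 1 < N := by
      rcases Nat.lt_or_ge 1 N with h | h
      · exact h
      · have : N = 1 := le_antisymm h (NeZero.pos N)
        exact absurd (this ▸ one_dvd c) hc
    exact ⟨1, Finset.mem_filter.2 ⟨Finset.mem_range.2 hN, by rwa [mul_one]⟩⟩
  obtain ⟨i, hi, hmin⟩ := Finset.exists_min_image _ S h1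
  refine ⟨S i, ⟨i, (Finset.mem_filter.1 hi).2, rfl⟩, ?_⟩
  rintro s ⟨j, hj, rfl⟩
  have h2 : S j = S (j % N) := hS _ _ (by rw [ZMod.natCast_mod])
  rw [h2]
  refine hmin _ (Finset.mem_filter.2 ⟨Finset.mem_range.2 (Nat.mod_lt _ (NeZero.pos N)), ?_⟩)
  intro h3
  apply hj
  rw [← ZMod.natCast_eq_zero_iff] at h3 ⊢
  push_cast at h3 ⊢
  rwa [ZMod.natCast_mod] at h3

/-- **The joint theorem.** -/
theorem joint (l k : ℕ) [NeZero l] (hN : 2 ≤ N) (hk : Nat.Coprime k N) (μ : Measure (S4 N))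
    [IsProbabilityMeasure μ] [μ.IsHaarMeasure] :
    ∃ (S : ℕ → ℝ) (σ : ℕ → ℝ → ℝ),
      (∀ j, Tendsto (fun p : ℕ × ℕ => sInf (Set.range fun U : Link (p.1 + 1) (p.2 + 1) l → S4 N =>
        action2 k j U)) atTop (𝓝 (S j))) ∧
      (∀ m : ℝ, 0 < m → m < 2 * Real.arsinh (Real.sin (Real.pi / (l * N))) → SoftZ μ l k σ m) ∧
      ∀ c : ℕ, ¬ N ∣ c → ∃ T : ℝ, 0 < T ∧ IsLeast {s | ∃ j : ℕ, ¬ N ∣ c * j ∧ s = S j} T ∧
        (∀ᶠ β in atTop, 0 < σ c β) ∧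
        Tendsto (fun β => -Real.log (σ c β) / β) atTop (𝓝 T) := by
  obtain ⟨S, hS⟩ := bnd l k hk μ
  obtain ⟨δ, hδ, hδS⟩ := hS.pos
  have hT : ∀ c : ℕ, ¬ N ∣ c → ∃ T : ℝ, 0 < T ∧ IsLeast {s | ∃ j : ℕ, ¬ N ∣ c * j ∧ s = S j} T ∧
      (∀ S', 0 < S' → S' < T → UpZ μ l k c S') ∧ (∀ S', T < S' → LoZ μ l k c S') := by
    intro c hc
    obtain ⟨T, hT⟩ := least hS.congr hc
    obtain ⟨⟨j0, hj0, hTj⟩, hmin⟩ := hT
    have hT0 : 0 < T := by
      rw [hTj]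
      exact hδ.trans_le (hδS j0 fun h => hj0 (h.mul_left c))
    refine ⟨T, hT0, ⟨⟨j0, hj0, hTj⟩, hmin⟩, fun S' h1 h2 => ?_, fun S' h1 => ?_⟩
    · intro C0 hC0
      obtain ⟨M, hM⟩ := hS.up c T hT0 (fun j hj => hmin ⟨j, hj, rfl⟩) (T - S') (by linarith)
      obtain ⟨β0, hβ0, h⟩ := hM C0 hC0
      refine ⟨max M 1, β0, fun β hβ p q _ _ hp hq hp' hq' j hj => ?_⟩
      haveI : NeZero p := ⟨by have := (le_max_right M 1).trans hp; omega⟩
      haveI : NeZero q := ⟨by have := (le_max_right M 1).trans hq; omega⟩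
      have h3 := h β hβ p q ((le_max_left _ _).trans hp) ((le_max_left _ _).trans hq) hp' hq' j hj
      rw [show β * (T - (T - S')) = S' * β by ring] at h3
      exact h3
    · obtain ⟨β0, M, hβ0, hM, h⟩ := hS.lo j0 (S' - T) (by linarith)
      refine ⟨j0, hj0, M, β0, fun β hβ p _ hp => ?_⟩
      haveI : NeZero p := ⟨by omega⟩
      have h3 := h β hβ p p hp hp
      rw [← hTj, show β * (T + (S' - T)) = S' * β by ring] at h3
      exact h3
  have h1 : ¬ N ∣ 1 := fun h => by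
    have := Nat.le_of_dvd one_pos h
    omega
  obtain ⟨T1, hT1, -, hU1, -⟩ := hT 1 h1
  obtain ⟨σ, hσ1, hσ2⟩ := out l k hN hk μ (half_pos hT1) (hU1 (T1 / 2) (half_pos hT1) (by linarith))
  refine ⟨S, σ, hS.lim, hσ1, fun c hc => ?_⟩
  obtain ⟨T, hT0, hl, hU, hL⟩ := hT c hc
  exact ⟨T, hT0, hl, hσ2 c T hT0 hU hL⟩

end

end Pool.Agent.Run7.h897.ST
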