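import Pool.Agent.Run7.h897.ST.Wro

/-!
# The rate of two Polyakov loops in a representation
-/

set_option linter.unusedSectionVars false
set_option linter.unusedVariables false
set_option linter.style.haveILetI false

open MeasureTheory Matrix Filter Topology
open scoped ComplexConjugate

namespace Pool.Agent.Run7.h897.PC

open Pool.Agent.Run7.h630.R2 (zeta TwPair en)
open Pool.Agent.Run7.h897.FS Pool.Agent.Run7.h897.TW Pool.Agent.Run7.h897.ST
open Run7.h4.YM (Link Site dir plaq line action twist polyakov)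
open Run7.h4.VS (twist2 action2)
open Run7.h182.WL (Fr Zn)

noncomputable section

/-! ### sequences -/

lemma TS0.exp_le {E : ℕ → ℝ} (h : TS0 E) :
    ∃ C : ℝ, 0 < C ∧ ∀ q, 1 ≤ q → E q ≤ C * Real.exp (q * ell E) := by
  refine ⟨E 1 * Real.exp (-ell E), mul_pos (h.pos 1 le_rfl) (Real.exp_pos _), fun q hq => ?_⟩
  obtain ⟨k, rfl⟩ := Nat.exists_eq_add_of_le hq
  have h1 := h.step (n := 1) le_rfl k
  rw [← Real.log_exp (k * ell E), ← Real.log_mul (h.pos 1 le_rfl).ne' (Real.exp_pos _).ne'] at h1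
  have h2 := (Real.log_le_log_iff (h.pos (1 + k) (by omega))
    (mul_pos (h.pos 1 le_rfl) (Real.exp_pos _))).1 h1
  refine h2.trans (le_of_eq ?_)
  rw [mul_assoc, ← Real.exp_add]
  congr 2
  push_cast
  ring

/-- the ratios converge -/
lemma TS0.ratio {E : ℕ → ℝ} (h : TS0 E) :
    Tendsto (fun q : ℕ => E (q + 2) / E (q + 1)) atTop (𝓝 (Real.exp (ell E))) := by
  obtain ⟨s, hs⟩ : ∃ s : ℕ → ℝ, s = fun n => Real.log (E (n + 2)) - Real.log (E (n + 1)) :=
    ⟨_, rfl⟩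
  have hmono : Monotone s := by
    refine monotone_nat_of_le_succ fun n => ?_
    rw [hs]
    exact h.slope (n := n + 1) (by omega)
  have hbdd : BddAbove (Set.range s) := by
    refine ⟨ell E, ?_⟩
    rintro _ ⟨n, rfl⟩
    rw [hs]
    exact h.slope_le (n := n + 1) (by omega)
  have hlim := tendsto_atTop_ciSup hmono hbdd
  obtain ⟨S, hS⟩ : ∃ S, S = ⨆ n, s n := ⟨_, rfl⟩
  rw [← hS] at hlim
  have h1 : S ≤ ell E := le_of_tendsto' hlim fun n => by
    rw [hs]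
    exact h.slope_le (n := n + 1) (by omega)
  have h2 : ell E ≤ S := by
    have e1 : ∀ n : ℕ, Real.log (E (n + 1)) ≤ Real.log (E 1) + n * S := by
      intro n
      induction n with
      | zero => simp
      | succ n ih =>
        have e2 : s n ≤ S := by rw [hS]; exact le_ciSup hbdd n
        rw [hs] at e2
        beta_reduce at e2
        push_cast
        rw [show n + 1 + 1 = n + 2 by ring]
        linarith
    have e3 := (h.tend').comp (tendsto_add_atTop_nat 1)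
    have e4 : Tendsto (fun n : ℕ => (Real.log (E 1) - S) / ((n + 1 : ℕ) : ℝ) + S) atTop
        (𝓝 (0 + S)) :=
      ((tendsto_const_nhds.div_atTop (tendsto_natCast_atTop_atTop.comp
        (tendsto_add_atTop_nat 1)))).add_const S
    rw [zero_add] at e4
    refine le_of_tendsto_of_tendsto' e3 e4 fun n => ?_
    simp only [Function.comp]
    have hn : (0 : ℝ) < ((n + 1 : ℕ) : ℝ) := by positivity
    rw [div_le_iff₀ hn, add_mul, div_mul_cancel₀ _ hn.ne']
    have := e1 n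
    push_cast
    linarith
  have h3 : S = ell E := le_antisymm h1 h2
  rw [h3] at hlim
  refine ((Real.continuous_exp.tendsto _).comp hlim).congr fun n => ?_
  simp only [Function.comp]
  rw [hs]
  beta_reduce
  rw [Real.exp_sub, Real.exp_log (h.pos (n + 2) (by omega)),
    Real.exp_log (h.pos (n + 1) (by omega))]

/-- the doubling, iterated -/
lemma iter_dbl {f : ℕ → ℕ → ℝ} {Z : ℕ → ℝ} {s : ℕ} {C0 Ev E1 : ℝ} (hC0 : 0 < C0)
    (hZ : ∀ q, 1 ≤ q → 0 ≤ Z q ∧ Z q ≤ C0 * Real.exp (q * Ev))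
    (hf : ∀ t, t < s → ∀ q, 1 ≤ q → 0 ≤ f (t + 1) q ∧ f t q ≤ Real.sqrt (Z q * f (t + 1) q))
    (h1 : ∃ C, 0 < C ∧ ∀ q, 1 ≤ q → f s q ≤ C * Real.exp (q * E1)) :
    ∀ t, t ≤ s → ∃ C, 0 < C ∧ ∀ q, 1 ≤ q →
      f (s - t) q ≤ C * Real.exp (q * (Ev + (E1 - Ev) / 2 ^ t)) := by
  intro t
  induction t with
  | zero =>
    intro _
    obtain ⟨C, hC, h⟩ := h1
    refine ⟨C, hC, fun q hq => ?_⟩
    have := h q hq
    simpa using this
  | succ t ih =>
    intro ht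
    obtain ⟨C, hC, h⟩ := ih (by omega)
    refine ⟨Real.sqrt (C0 * C), Real.sqrt_pos.2 (mul_pos hC0 hC), fun q hq => ?_⟩
    obtain ⟨a1, a2⟩ := hf (s - (t + 1)) (by omega) q hq
    rw [show s - (t + 1) + 1 = s - t by omega] at a1 a2
    refine a2.trans ?_
    have e1 : Real.sqrt (C0 * C) * Real.exp (q * (Ev + (E1 - Ev) / 2 ^ (t + 1))) =
        Real.sqrt (C0 * Real.exp (q * Ev) * (C * Real.exp (q * (Ev + (E1 - Ev) / 2 ^ t)))) := by
      have : C0 * Real.exp (q * Ev) * (C * Real.exp (q * (Ev + (E1 - Ev) / 2 ^ t))) =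
          C0 * C * (Real.exp (q * (Ev + (E1 - Ev) / 2 ^ (t + 1)))) ^ 2 := by
        rw [← Real.exp_nat_mul, show C0 * Real.exp (q * Ev) *
          (C * Real.exp (q * (Ev + (E1 - Ev) / 2 ^ t))) = C0 * C * (Real.exp (q * Ev) *
          Real.exp (q * (Ev + (E1 - Ev) / 2 ^ t))) by ring, ← Real.exp_add]
        congr 2
        rw [pow_succ]
        push_cast
        field_simp
        ring
      rw [this, Real.sqrt_mul (show 0 ≤ C0 * C by positivity) (Real.exp _ ^ 2),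
        Real.sqrt_sq (Real.exp_pos _).le]
    rw [e1]
    refine Real.sqrt_le_sqrt ?_
    obtain ⟨z1, z2⟩ := hZ q hq
    exact mul_le_mul z2 (h q hq) a1 (by positivity)

lemma sum_bd {s : Finset ℕ} {f : ℕ → ℕ → ℝ} {E : ℝ}
    (h : ∀ e ∈ s, ∃ C, 0 < C ∧ ∀ q, 1 ≤ q → f e q ≤ C * Real.exp (q * E)) :
    ∃ C, 0 < C ∧ ∀ q, 1 ≤ q → ∑ e ∈ s, f e q ≤ C * Real.exp (q * E) := by
  classical
  induction s using Finset.induction_on with
  | empty => exact ⟨1, one_pos, fun q _ => by simp; positivity⟩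
  | insert a s ha ih =>
    obtain ⟨C, hC, h1⟩ := ih fun e he => h e (Finset.mem_insert_of_mem he)
    obtain ⟨D, hD, h2⟩ := h a (Finset.mem_insert_self a s)
    refine ⟨D + C, by positivity, fun q hq => ?_⟩
    rw [Finset.sum_insert ha, add_mul]
    exact add_le_add (h2 q hq) (h1 q hq)

variable {N : ℕ} [NeZero N] [MeasurableSpace (S4 N)] [BorelSpace (S4 N)]
  [MeasurableSpace (S6 N)] [BorelSpace (S6 N)]

/-- the rate of the partition function -/
def Ev (μ : Measure (S4 N)) (k l : ℕ) [NeZero l] (β : ℝ) (m : ℕ) [NeZero (2 * m)] : ℝ :=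
  ell (EE (PM (mu6 μ) (Ls (2 * m) l)) (kp (PM (mu6 μ) (Ls (2 * m) l))
    (tk0 (mu6 μ) (2 * m) (Pool.Agent.Run7.h871.TC.wE N l k β))))

lemma Zn_EE {q m l k : ℕ} [NeZero (2 * q)] [NeZero (2 * m)] [NeZero l] (μ : Measure (S4 N))
    [IsProbabilityMeasure μ] [μ.IsHaarMeasure] (β : ℝ) :
    Zn (2 * q) (2 * m) l μ k β = EE (PM (mu6 μ) (Ls (2 * m) l))
      (kp (PM (mu6 μ) (Ls (2 * m) l))
        (tk0 (mu6 μ) (2 * m) (Pool.Agent.Run7.h871.TC.wE N l k β))) q := by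
  haveI := mu6_prob μ
  haveI := mu6_haar μ
  haveI := right_inv'' (mu6 μ)
  haveI := inv_inv'' (mu6 μ)
  have hb : (Pool.Agent.Run7.h871.TC.wE N l k β).Bd := Pool.Agent.Run7.h871.TC.wE_bd β
  have hsy : (Pool.Agent.Run7.h871.TC.wE N l k β).Sy := Pool.Agent.Run7.h871.TC.wE_sy β
  have hcn : Cn (Pool.Agent.Run7.h871.TC.wE N l k β) (Pool.Agent.Run7.h871.UP.zc N) :=
    Pool.Agent.Run7.h871.UP.zc_cn β
  have hq : 1 ≤ q := by
    have := NeZero.ne (2 * q)
    omega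
  rw [Zn_eq, ZT_eq hb hsy hcn, Tw_zero (Cs_act hb hcn),
    (tk0_KS (μ := mu6 μ) (b := 2 * m) hb hsy).EE_diag hq, ← two_mul q]

lemma EE_ts0 {m l k : ℕ} [NeZero (2 * m)] [NeZero l] (μ : Measure (S4 N))
    [IsProbabilityMeasure μ] [μ.IsHaarMeasure] (β : ℝ) :
    TS0 (EE (PM (mu6 μ) (Ls (2 * m) l)) (kp (PM (mu6 μ) (Ls (2 * m) l))
        (tk0 (mu6 μ) (2 * m) (Pool.Agent.Run7.h871.TC.wE N l k β)))) := by
  haveI := mu6_prob μ
  haveI := mu6_haar μ
  haveI := right_inv'' (mu6 μ)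
  haveI := inv_inv'' (mu6 μ)
  have hb : (Pool.Agent.Run7.h871.TC.wE N l k β).Bd := Pool.Agent.Run7.h871.TC.wE_bd β
  have hsy : (Pool.Agent.Run7.h871.TC.wE N l k β).Sy := Pool.Agent.Run7.h871.TC.wE_sy β
  have hk := tk0_KS (μ := mu6 μ) (b := 2 * m) hb hsy
  refine ⟨fun n hn => ?_, fun n hn => hk.lc hn, fun n m hn hm => hk.sub hn hm⟩
  haveI : NeZero (2 * n) := ⟨by omega⟩
  rw [← Zn_EE, Zn_eq]
  exact ZT_pos hb 0

lemma Ev_ratio {m l k : ℕ} [NeZero (2 * m)] [NeZero l] (μ : Measure (S4 N))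
    [IsProbabilityMeasure μ] [μ.IsHaarMeasure] (β : ℝ) :
    Tendsto (fun q : ℕ => Zn (2 * (q + 2)) (2 * m) l μ k β / Zn (2 * (q + 1)) (2 * m) l μ k β)
      atTop (𝓝 (Real.exp (Ev μ k l β m))) := by
  refine (TS0.ratio (EE_ts0 (m := m) (l := l) (k := k) μ β)).congr fun q => ?_
  rw [Zn_EE, Zn_EE]

/-- the rate of the partition function and the density of the free energy -/
lemma Ev_ge {m l k : ℕ} [NeZero (2 * m)] [NeZero l] (μ : Measure (S4 N))
    [IsProbabilityMeasure μ] [μ.IsHaarMeasure] (β : ℝ) {r : ℝ} {A0 : ℕ} (hA0 : 1 ≤ A0)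
    (hfe : Fe (mu6 μ) (Pool.Agent.Run7.h871.TC.wE N l k β) r A0) (hm : A0 ≤ m) :
    (m : ℝ) * fe (fun n m => ZX (mu6 μ) (Pool.Agent.Run7.h871.TC.wE N l k β) (ch N 0) ![n, m]) ≤
      Ev μ k l β m := by
  haveI := mu6_prob μ
  haveI := mu6_haar μ
  haveI := right_inv'' (mu6 μ)
  haveI := inv_inv'' (mu6 μ)
  have hb : (Pool.Agent.Run7.h871.TC.wE N l k β).Bd := Pool.Agent.Run7.h871.TC.wE_bd β
  have hsy : (Pool.Agent.Run7.h871.TC.wE N l k β).Sy := Pool.Agent.Run7.h871.TC.wE_sy β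
  have hcn : Cn (Pool.Agent.Run7.h871.TC.wE N l k β) (Pool.Agent.Run7.h871.UP.zc N) :=
    Pool.Agent.Run7.h871.UP.zc_cn β
  have ht := (EE_ts0 (m := m) (l := l) (k := k) μ β).tend'
  refine ge_of_tendsto ht ?_
  filter_upwards [eventually_ge_atTop A0] with q hq
  have hq1 : 1 ≤ q := hA0.trans hq
  haveI : NeZero (2 * q) := ⟨by omega⟩
  have hq0 : (0 : ℝ) < q := by exact_mod_cast hq1
  have hpos : ∀ c, 0 < ZX (mu6 μ) (Pool.Agent.Run7.h871.TC.wE N l k β) (ch N c) ![m, q] :=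
    fun c => (fam0 (hfe (ch N c)).1 hq1).pos m (hA0.trans hm)
  rw [le_div_iff₀ hq0, ← Zn_EE, Zn_eq, ZT_ex hb hsy, neg_zero]
  have e0 := ZT_inv (μ := mu6 μ) (a := 2 * m) (b := 2 * q) hb hsy hcn 0
  simp only [Nat.cast_zero, mul_zero, zero_div, Real.cos_zero, one_mul] at e0
  have h1 := ((hfe (ch N 0)).2 m q hm hq).1
  have h2 : ZX (mu6 μ) (Pool.Agent.Run7.h871.TC.wE N l k β) (ch N 0) ![m, q] ≤
      ZT (mu6 μ) (Pool.Agent.Run7.h871.TC.wE N l k β) 0 (2 * m) (2 * q) := by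
    rw [e0]
    have e1 : ∀ c, ZS (mu6 μ) (Pool.Agent.Run7.h871.TC.wE N l k β) (ch N c) (2 * m) (2 * q) =
        ZX (mu6 μ) (Pool.Agent.Run7.h871.TC.wE N l k β) (ch N c) ![m, q] := fun c =>
      (ZX_eq (n := ![m, q]) (p := 2 * m) (q := 2 * q) rfl rfl).symm
    simp only [e1]
    exact Finset.single_le_sum (f := fun c =>
      ZX (mu6 μ) (Pool.Agent.Run7.h871.TC.wE N l k β) (ch N c) ![m, q])
      (fun c _ => (hpos c).le) (Finset.mem_range.2 (NeZero.pos N))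
  have h3 := Real.log_le_log (hpos 0) h2
  linarith

/-- the growth of one sector -/
lemma sec_gr {l k : ℕ} [NeZero l] (μ : Measure (S4 N)) (β : ℝ) {r : ℝ} {A0 : ℕ} (hA0 : 1 ≤ A0)
    (hfe : Fe (mu6 μ) (Pool.Agent.Run7.h871.TC.wE N l k β) r A0) (hr : 0 < r) (e : ℕ) {p : ℕ}
    (hp : A0 ≤ p) : ∃ C, 0 < C ∧ ∀ q, 1 ≤ q →
      ZX (mu6 μ) (Pool.Agent.Run7.h871.TC.wE N l k β) (ch N e) ![p, q] ≤ C * Real.exp (q *
        (p * fe (fun n m => ZX (mu6 μ) (Pool.Agent.Run7.h871.TC.wE N l k β) (ch N e) ![n, m]) +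
          1)) := by
  have h0 := (fam1 (hfe (ch N e)).1 (hA0.trans hp)).toTS0
  obtain ⟨C, hC, h1⟩ := TS0.exp_le h0
  refine ⟨C, hC, fun q hq => (h1 q hq).trans ?_⟩
  refine mul_le_mul_of_nonneg_left (Real.exp_le_exp.2 ?_) hC.le
  refine mul_le_mul_of_nonneg_left ?_ (Nat.cast_nonneg q)
  have h2 := (ell_bds (m := r) h0 (A := A0) (q := p)
    (φ := fe fun n m => ZX (mu6 μ) (Pool.Agent.Run7.h871.TC.wE N l k β) (ch N e) ![n, m]) hp
    (fun n hn => by
      have := ((hfe (ch N e)).2 p n hp hn).1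
      linarith)
    (fun n hn => by
      have := ((hfe (ch N e)).2 p n hp hn).2
      rw [min_comm, add_comm (p : ℝ)] at this
      linarith)).2
  refine h2.trans ?_
  have h3 : Real.exp (-(2 * r * p)) ≤ 1 := Real.exp_le_one_iff.2 (by
    have : 0 ≤ 2 * r * p := by positivity
    linarith)
  linarith

/-- **The rate of two Polyakov loops in a representation.** -/
theorem W0 (l k : ℕ) [NeZero l] (hN : 2 ≤ N) (hk : Nat.Coprime k N) (μ : Measure (S4 N))
    [IsProbabilityMeasure μ] [μ.IsHaarMeasure] {σ : ℕ → ℝ → ℝ}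
    (h2 : ∀ m : ℝ, 0 < m → m < 2 * Real.arsinh (Real.sin (Real.pi / (l * N))) → SoftZ μ l k σ m)
    (h3 : ∀ c : ℕ, ¬ N ∣ c → ∀ᶠ β in atTop, 0 < σ c β) :
    ∃ β0 : ℝ, ∀ β, β0 ≤ β → ∀ (d c : ℕ) [NeZero d] (ρ : S4 N →* unitaryGroup (Fin d) ℂ),
      Continuous ρ → Nality ρ c → ∀ (R : ℕ), 1 ≤ R → ∀ ε : ℝ, 0 < ε → ∃ M0 : ℕ,
      ∀ (m : ℕ) [NeZero (2 * m)], M0 ≤ m → ∃ C : ℝ, 0 < C ∧ ∀ (q : ℕ) [NeZero (2 * q)],
        Fr ρ (2 * q) (2 * m) l μ k β R ≤
          C * Real.exp (q * (Ev μ k l β m - 2 * σ c β * R + ε)) := by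
  haveI := mu6_prob μ
  haveI := mu6_haar μ
  haveI := right_inv'' (mu6 μ)
  haveI := inv_inv'' (mu6 μ)
  have hr0 : 0 < 2 * Real.arsinh (Real.sin (Real.pi / (l * N))) := by
    have := Real.arsinh_pos_iff.2 (sin_pos' hN l)
    linarith
  obtain ⟨r, hr⟩ : ∃ r, r = Real.arsinh (Real.sin (Real.pi / (l * N))) := ⟨_, rfl⟩
  have hr1 : 0 < r := by rw [hr]; linarith
  have hr2 : r < 2 * Real.arsinh (Real.sin (Real.pi / (l * N))) := by rw [← hr]; linarith
  obtain ⟨S1, hS1, hU1⟩ := upz1 l k hN hk μ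
  obtain ⟨A, β1, hA, hfe⟩ := full l k hN hk μ hS1 hU1 hr1 hr2
  obtain ⟨β3, hsig⟩ := sig_eq μ hr1 (h2 r hr1 hr2) hA
  have hpos : ∀ᶠ β : ℝ in atTop, ∀ c ∈ Finset.range N, c ≠ 0 → 0 < σ c β := by
    rw [Filter.eventually_all_finset]
    intro c hc
    by_cases hc0 : c = 0
    · exact Eventually.of_forall fun β h => absurd hc0 h
    have hcN : ¬ N ∣ c := fun h => by
      have := Nat.le_of_dvd (Nat.pos_of_ne_zero hc0) h
      have := Finset.mem_range.1 hc
      omega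
    filter_upwards [h3 c hcN] with β h _ using h
  obtain ⟨β4, hpos⟩ := eventually_atTop.1 hpos
  refine ⟨max β1 (max β3 β4), fun β hβ d c _ ρ hρ hc R hR ε hε => ?_⟩
  have b1 : β1 ≤ β := (le_max_left _ _).trans hβ
  have b3 : β3 ≤ β := (le_max_left _ _).trans ((le_max_right _ _).trans hβ)
  have b4 : β4 ≤ β := (le_max_right _ _).trans ((le_max_right _ _).trans hβ)
  have hfe' := hfe β b1
  have hs4 := hsig β b3 hfe'
  have hpos' := hpos β b4
  obtain ⟨φ, hφ⟩ : ∃ φ : ℕ → ℝ, φ = fun e => fe fun n m =>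
    ZX (mu6 μ) (Pool.Agent.Run7.h871.TC.wE N l k β) (ch N e) ![n, m] := ⟨_, rfl⟩
  have hs4' : ∀ e, 4 * σ e β = φ 0 - φ e := fun e => by rw [hφ]; exact hs4 e
  -- the scale
  obtain ⟨s1, hs1⟩ := pow_unbounded_of_one_lt (1 / ε) (one_lt_two)
  obtain ⟨s, hs⟩ : ∃ s, s = max s1 A := ⟨_, rfl⟩
  have hsε : 1 / (2 : ℝ) ^ s ≤ ε := by
    have h5 : (2 : ℝ) ^ s1 ≤ 2 ^ s := pow_le_pow_right₀ (by norm_num) (by rw [hs]; exact le_max_left _ _)
    rw [div_le_iff₀ (by positivity)]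
    rw [div_lt_iff₀ hε] at hs1
    nlinarith
  obtain ⟨R1, hR1⟩ : ∃ R1, R1 = 2 ^ s * R := ⟨_, rfl⟩
  have hsA : A ≤ R1 := by
    have h5 : A ≤ s := by rw [hs]; exact le_max_right _ _
    have h6 : s < 2 ^ s := Nat.lt_two_pow_self
    rw [hR1]
    nlinarith
  have hsf : ∀ e, (fun n m => ZX (mu6 μ) (Pool.Agent.Run7.h871.TC.wE N l k β)
      (ch N (sfc N c e)) ![n, m]) = fun n m => ZX (mu6 μ) (Pool.Agent.Run7.h871.TC.wE N l k β)
      (ch N (sfc N c e)) ![n, m] := fun e => rfl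
  -- the size
  have hM : ∀ᶠ m : ℕ in atTop, R1 + A ≤ m ∧ ∀ e ∈ Finset.range N, e ≠ 0 →
      (R1 : ℝ) * (4 * |σ c β|) ≤ m * (4 * σ e β) := by
    refine (eventually_ge_atTop _).and ?_
    rw [Filter.eventually_all_finset]
    intro e he
    by_cases he0 : e = 0
    · exact Eventually.of_forall fun m h => absurd he0 h
    have h5 : Tendsto (fun m : ℕ => (m : ℝ) * (4 * σ e β)) atTop atTop :=
      tendsto_natCast_atTop_atTop.atTop_mul_const (by
        have := hpos' e he he0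
        positivity)
    filter_upwards [h5.eventually_ge_atTop (R1 * (4 * |σ c β|))] with m h _ using h
  obtain ⟨M0, hM0⟩ := eventually_atTop.1 hM
  refine ⟨M0, fun m _ hm => ?_⟩
  obtain ⟨g1, g2⟩ := hM0 m hm
  have hR1pos : 1 ≤ R1 := hA.trans hsA
  have hEv := Ev_ge (m := m) (l := l) (k := k) μ β hA hfe' (by omega)
  have hEv' : (m : ℝ) * φ 0 ≤ Ev μ k l β m := by rw [hφ]; exact hEv
  -- the sectors
  obtain ⟨E1, hE1⟩ : ∃ E1, E1 = m * φ 0 - 2 * σ c β * R1 + 1 := ⟨_, rfl⟩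
  -- the density of the shifted vacuum
  have hsh : φ (sfc N c 0) = φ c := by
    have h5 : ∀ s : ZMod N, (ch N (sfc N c 0) s).re = (ch N c s).re := by
      intro s
      have h6 := ch_sfc c 0 s
      rw [ch_zero, AddChar.one_apply] at h6
      have h7 : ch N (sfc N c 0) s = conj (ch N c s) := by
        have h8 : ch N c s * conj (ch N c s) = 1 := by
          rw [Complex.mul_conj, Complex.normSq_eq_norm_sq, AddChar.norm_apply]
          simp
        have h9 : ch N c s ≠ 0 := left_ne_zero_of_mul_eq_one h8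
        apply mul_right_cancel₀ h9
        rw [h6, mul_comm, h8]
      rw [h7, Complex.conj_re]
    rw [hφ]
    beta_reduce
    congr 1
    funext n m
    unfold ZX ZS
    simp only [h5]
  have hle0 : ∀ e, φ e ≤ φ 0 := by
    intro e
    by_cases he : N ∣ e
    · have h5 : ch N e = ch N 0 := by
        unfold ch
        rw [(ZMod.natCast_eq_zero_iff e N).2 he, Nat.cast_zero]
      rw [hφ]
      beta_reduce
      rw [h5]
    · have h5 : e % N ≠ 0 := fun h => he (Nat.dvd_of_mod_eq_zero h)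
      have h6 := hpos' (e % N) (Finset.mem_range.2 (Nat.mod_lt _ (NeZero.pos N))) h5
      have h7 := hs4' (e % N)
      have h8 : φ (e % N) = φ e := by
        rw [hφ]
        beta_reduce
        rw [ch_mod]
      rw [h8] at h7
      linarith
  have hsecE : ∀ e ∈ Finset.range N, ∃ C, 0 < C ∧ ∀ q, 1 ≤ q →
      Real.sqrt (ZX (mu6 μ) (Pool.Agent.Run7.h871.TC.wE N l k β) (ch N e) ![2 * m - R1, q] *
        ZX (mu6 μ) (Pool.Agent.Run7.h871.TC.wE N l k β) (ch N (sfc N c e)) ![R1, q]) ≤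
      C * Real.exp (q * E1) := by
    intro e he
    obtain ⟨C, hC, k1⟩ := sec_gr (l := l) (k := k) μ β hA hfe' hr1 e (p := 2 * m - R1) (by omega)
    obtain ⟨D, hD, k2⟩ := sec_gr (l := l) (k := k) μ β hA hfe' hr1 (sfc N c e) (p := R1) hsA
    refine ⟨Real.sqrt (C * D), Real.sqrt_pos.2 (mul_pos hC hD), fun q hq => ?_⟩
    have hcast : ((2 * m - R1 : ℕ) : ℝ) = 2 * m - R1 := by
      rw [Nat.cast_sub (by omega)]
      push_cast
      ring
    have e2 : ((2 * m - R1 : ℕ) : ℝ) * φ e + 1 + (R1 * φ (sfc N c e) + 1) ≤ 2 * E1 := by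
      rw [hcast, hE1]
      have h4c := hs4' c
      have hm0 : (0 : ℝ) ≤ m := Nat.cast_nonneg m
      have hR0 : (0 : ℝ) ≤ R1 := Nat.cast_nonneg R1
      by_cases he0 : e = 0
      · subst he0
        rw [hsh]
        have : (R1 : ℝ) * (4 * σ c β) = R1 * (φ 0 - φ c) := by rw [h4c]
        nlinarith
      · have h5 := g2 e he he0
        have h6 := hs4' e
        have h7 := hle0 (sfc N c e)
        have h8 : (R1 : ℝ) * (4 * σ c β) ≤ R1 * (4 * |σ c β|) := by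
          have := le_abs_self (σ c β)
          gcongr
        have h9 : (m : ℝ) * (4 * σ e β) ≤ (2 * m - R1) * (φ 0 - φ e) := by
          rw [h6]
          have h10 : (R1 : ℝ) ≤ m := by
            have : R1 ≤ m := by omega
            exact_mod_cast this
          have h11 := hle0 e
          nlinarith
        have h12 : (R1 : ℝ) * φ (sfc N c e) ≤ R1 * φ 0 := mul_le_mul_of_nonneg_left h7 hR0
        nlinarith
    have e1 : Real.sqrt (C * D) * Real.exp (q * E1) =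
        Real.sqrt (C * D * Real.exp (q * E1) ^ 2) := by
      rw [Real.sqrt_mul (show 0 ≤ C * D by positivity) (Real.exp _ ^ 2),
        Real.sqrt_sq (Real.exp_pos _).le]
    rw [e1]
    refine Real.sqrt_le_sqrt ?_
    have k1' := k1 q hq
    have k2' := k2 q hq
    have hnn : 0 ≤ ZX (mu6 μ) (Pool.Agent.Run7.h871.TC.wE N l k β) (ch N (sfc N c e)) ![R1, q] :=
      ((fam0 (hfe' (ch N (sfc N c e))).1 hq).pos R1 hR1pos).le
    calc _ ≤ (C * Real.exp (q * (((2 * m - R1 : ℕ) : ℝ) * φ e + 1))) *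
          (D * Real.exp (q * (R1 * φ (sfc N c e) + 1))) := by
          rw [hφ]
          exact mul_le_mul k1' k2' hnn (by positivity)
      _ = C * D * Real.exp (q * (((2 * m - R1 : ℕ) : ℝ) * φ e + 1 +
          (R1 * φ (sfc N c e) + 1))) := by
          rw [mul_add (q : ℝ) (((2 * m - R1 : ℕ) : ℝ) * φ e + 1), Real.exp_add]
          ring
      _ ≤ C * D * Real.exp (q * E1) ^ 2 := by
          rw [← Real.exp_nat_mul]
          refine mul_le_mul_of_nonneg_left (Real.exp_le_exp.2 ?_) (by positivity)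
          push_cast
          have : (0 : ℝ) ≤ q := Nat.cast_nonneg q
          nlinarith
  obtain ⟨C1, hC1, k3⟩ := sum_bd hsecE
  -- the two sequences
  obtain ⟨f, hf⟩ : ∃ f : ℕ → ℕ → ℝ, f = fun t q => if h : q ≠ 0 then
      haveI : NeZero (2 * q) := ⟨by omega⟩
      Fr ρ (2 * q) (2 * m) l μ k β (2 ^ t * R) else 0 := ⟨_, rfl⟩
  have hfv : ∀ (t q : ℕ) [NeZero (2 * q)], f t q = Fr ρ (2 * q) (2 * m) l μ k β (2 ^ t * R) := by
    intro t q hq
    have h0 : q ≠ 0 := by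
      have := hq.out
      omega
    rw [hf]
    beta_reduce
    rw [dif_pos h0]
  have hts := EE_ts0 (m := m) (l := l) (k := k) μ β
  obtain ⟨C0, hC0, k4⟩ := TS0.exp_le hts
  have hlt : ∀ t, t < s → 2 ^ t * R < m := by
    intro t ht
    have h5 : 2 ^ t * R ≤ 2 ^ s * R := Nat.mul_le_mul_right _ (Nat.pow_le_pow_right (by norm_num) ht.le)
    rw [← hR1] at h5
    omega
  have hres := iter_dbl (f := f) (Z := EE (PM (mu6 μ) (Ls (2 * m) l))
      (kp (PM (mu6 μ) (Ls (2 * m) l))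
        (tk0 (mu6 μ) (2 * m) (Pool.Agent.Run7.h871.TC.wE N l k β)))) (s := s) (C0 := C0)
    (Ev := Ev μ k l β m) (E1 := E1) hC0
    (fun q hq => ⟨(hts.pos q hq).le, k4 q hq⟩)
    (fun t ht q hq => by
      haveI : NeZero (2 * q) := ⟨by omega⟩
      rw [hfv, hfv, ← Zn_EE]
      have h5 := Fr_dbl (q := q) (m := m) (l := l) μ hρ k β (R := 2 ^ t * R)
        (Nat.mul_pos (by positivity) hR) (hlt t ht)
      rw [show 2 ^ (t + 1) * R = 2 * (2 ^ t * R) by ring]
      exact h5)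
    ⟨C1, hC1, fun q hq => by
      haveI : NeZero (2 * q) := ⟨by omega⟩
      rw [hfv, ← hR1]
      exact (Fr_sec (q := q) (L := 2 * m) (l := l) μ hρ hc k β (R := R1) hR1pos
        (by omega)).trans (k3 q hq)⟩ s le_rfl
  obtain ⟨C, hC, k5⟩ := hres
  refine ⟨C, hC, fun q hq0 => ?_⟩
  have hq : 1 ≤ q := by
    have := hq0.out
    omega
  have k6 := k5 q hq
  rw [Nat.sub_self, hfv, pow_zero, one_mul] at k6
  refine k6.trans (mul_le_mul_of_nonneg_left (Real.exp_le_exp.2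
    (mul_le_mul_of_nonneg_left ?_ (Nat.cast_nonneg q))) hC.le)
  have h2s : (0 : ℝ) < 2 ^ s := by positivity
  have hR1' : (R1 : ℝ) = 2 ^ s * R := by rw [hR1]; push_cast; ring
  have e5 : (E1 - Ev μ k l β m) / 2 ^ s ≤ (-(2 * σ c β * R1) + 1) / 2 ^ s := by
    refine div_le_div_of_nonneg_right ?_ h2s.le
    rw [hE1]
    linarith
  have e6 : (-(2 * σ c β * R1) + 1) / 2 ^ s = -(2 * σ c β * R) + 1 / 2 ^ s := by
    rw [hR1']
    field_simp
  linarith

end

end Pool.Agent.Run7.h897.PC
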