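import Pool.Agent.Run7.h897.TW.Str
import Pool.Agent.Run7.h871.YM.Upper

/-!
# The criterion for all the electric sectors of the twisted theory
-/

open MeasureTheory Matrix Filter Topology
open Pool.Agent.H906R3.YM Pool.Agent.W793.YM Pool.Agent.TH618.YM Pool.Agent.N984.TW
open Pool.Agent.Run7.h630.R2 (SU SU_closed zeta TwPair)
open Pool.Agent.Run7.h897.TW
open Pool.Agent.Run7.h897.FS (dP)

namespace Pool.Agent.Run7.h897.ST

set_option linter.unusedSectionVars false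
set_option linter.style.haveILetI false

noncomputable section

variable {N : ℕ} [NeZero N] {k : ℕ} [MeasurableSpace (SU N)] [BorelSpace (SU N)]
  (μ : Measure (SU N)) [IsProbabilityMeasure μ] [μ.IsMulLeftInvariant] [μ.IsMulRightInvariant]
  [μ.IsInvInvariant]

/-- the criterion at a given scale -/
theorem crit_at (hN : 2 ≤ N) (l : ℕ) [NeZero l] {P Q : SU N} (hPQ : TwPair N (zeta N ^ k) P Q) :
    ∃ C : ℝ, ∀ a : ℕ, 1 ≤ a → ∀ s : ℝ, C * a * Real.exp (-rate l N) ^ (2 * a) < 1 / 15 * s →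
      ∃ β0 : ℝ, ∀ β, β0 ≤ β → CrS μ (Pool.Agent.Run7.h871.TC.wE N l k β) a s := by
  obtain ⟨n, ⟨B⟩⟩ := exists_frame (SU_closed N)
  refine ⟨4 * (8 * l ^ 2 * n), fun a ha1 s ha3 => ?_⟩
  haveI : NeZero (2 * a) := ⟨by omega⟩
  haveI : NeZero (2 * (2 * a)) := ⟨by omega⟩
  haveI : NeZero (2 * (4 * a)) := ⟨by omega⟩
  have hE : ∀ b : ℕ, b ≤ 8 * a → 4 * ((b : ℝ) * l ^ 2 * n) * Real.exp (-rate l N) ^ (2 * a) <
      1 / 15 * s := by
    intro b hb
    refine lt_of_le_of_lt ?_ ha3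
    have hb' : (b : ℝ) ≤ 8 * a := by exact_mod_cast hb
    have h1 : 4 * ((b : ℝ) * l ^ 2 * n) ≤ 4 * (8 * l ^ 2 * n) * a := by
      have h2 : (0 : ℝ) ≤ l ^ 2 * n := by positivity
      nlinarith
    exact mul_le_mul_of_nonneg_right h1 (by positivity)
  have k1 := Pool.Agent.Run7.h871.TC.ratio_ev (k := k) (l := l) μ hN hPQ B (a := 2 * a)
    (a' := 2 * (2 * a)) (b := 2 * (2 * a)) rfl (hE _ (by omega))
  have k2 := Pool.Agent.Run7.h871.TC.ratio_ev (k := k) (l := l) μ hN hPQ B (a := 2 * a)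
    (a' := 2 * (2 * a)) (b := 2 * (4 * a)) rfl (hE _ (by omega))
  obtain ⟨β0, hβ0⟩ := eventually_atTop.1 (k1.and k2)
  refine ⟨β0, fun β hβ => ?_⟩
  obtain ⟨j1, j2⟩ := hβ0 β hβ
  have hb := Pool.Agent.Run7.h871.TC.wE_bd (N := N) (l := l) (k := k) β
  have hs := Pool.Agent.Run7.h871.TC.wE_sy (N := N) (l := l) (k := k) β
  obtain ⟨w, hw⟩ : ∃ w, w = Pool.Agent.Run7.h871.TC.wE N l k β := ⟨_, rfl⟩
  have key : ∀ c : ℕ, c = 2 * a ∨ c = 4 * a → ∀ [NeZero (2 * c)],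
      1 - ZE μ w (2 * (2 * a)) (2 * c) / ZE μ w (2 * a) (2 * c) ^ 2 ≤ 1 / 15 * s := by
    intro c hc inst
    rw [hw, Pool.Agent.Run7.h871.TC.ZE_eq_Zt, Pool.Agent.Run7.h871.TC.ZE_eq_Zt]
    rcases hc with rfl | rfl
    · exact j1
    · exact j2
  rw [← hw] at hb hs ⊢
  intro i M hi hj
  unfold dP
  fin_cases i
  · have h1 := hj 1 (by decide)
    haveI : NeZero (2 * M 1) := ⟨by omega⟩
    have e1 : ZH2 μ w (Function.update M 0 (2 * a)) =
        ZE μ w (2 * (2 * a)) (2 * M 1) := ZH2_eq (by simp) (by simp)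
    have e2 : ZH2 μ w (Function.update M 0 a) =
        ZE μ w (2 * a) (2 * M 1) := ZH2_eq (by simp) (by simp)
    show 1 - ZH2 μ w (Function.update M 0 (2 * a)) /
      ZH2 μ w (Function.update M 0 a) ^ 2 ≤ _
    rw [e1, e2]
    exact key _ h1
  · have h1 := hj 0 (by decide)
    haveI : NeZero (2 * M 0) := ⟨by omega⟩
    have e1 : ZH2 μ w (Function.update M 1 (2 * a)) =
        ZE μ w (2 * M 0) (2 * (2 * a)) := ZH2_eq (by simp) (by simp)
    have e2 : ZH2 μ w (Function.update M 1 a) =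
        ZE μ w (2 * M 0) (2 * a) := ZH2_eq (by simp) (by simp)
    show 1 - ZH2 μ w (Function.update M 1 (2 * a)) /
      ZH2 μ w (Function.update M 1 a) ^ 2 ≤ _
    rw [e1, e2, ZE_ex hb hs, ZE_ex (a := 2 * M 0) (b := 2 * a) hb hs]
    exact key _ h1

/-- large scales -/
lemma large {r m C : ℝ} (hm : 0 < m) (hmr : m < r) :
    ∀ᶠ a : ℕ in atTop, Real.exp (-(m * (2 * a))) ≤ 1 / 2 ∧
      C * a * Real.exp (-r) ^ (2 * a) < 1 / 15 * Real.exp (-(m * (2 * a))) := by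
  have h1 : Tendsto (fun a : ℕ => Real.exp (-(2 * m)) ^ a) atTop (𝓝 0) :=
    tendsto_pow_atTop_nhds_zero_of_lt_one (Real.exp_pos _).le
      (by rw [Real.exp_lt_one_iff]; linarith)
  have h2 : Tendsto (fun a : ℕ => C * ((a : ℝ) ^ 1 * Real.exp (-(2 * (r - m))) ^ a)) atTop
      (𝓝 (C * 0)) :=
    (tendsto_pow_const_mul_const_pow_of_abs_lt_one 1 (by
      rw [abs_of_pos (Real.exp_pos _), Real.exp_lt_one_iff]; linarith)).const_mul C
  rw [mul_zero] at h2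
  have h3 := h1.eventually (ge_mem_nhds (show (0 : ℝ) < 1 / 2 by norm_num))
  have h4 := h2.eventually (gt_mem_nhds (show (0 : ℝ) < 1 / 15 by norm_num))
  filter_upwards [h3, h4] with a ha2 ha3
  refine ⟨?_, ?_⟩
  · rw [← Real.exp_nat_mul] at ha2
    rw [show -(m * (2 * (a : ℝ))) = a * -(2 * m) by ring]
    exact ha2
  · rw [← Real.exp_nat_mul] at ha3 ⊢
    push_cast
    have e1 : (2 * (a : ℝ)) * -r = a * -(2 * (r - m)) + -(m * (2 * a)) := by ring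
    rw [e1, Real.exp_add]
    have h5 := mul_lt_mul_of_pos_right ha3 (Real.exp_pos (-(m * (2 * a))))
    rw [pow_one] at h5
    calc C * a * (Real.exp (a * -(2 * (r - m))) * Real.exp (-(m * (2 * a))))
        = C * (a * Real.exp (a * -(2 * (r - m)))) * Real.exp (-(m * (2 * a))) := by ring
      _ < _ := h5

/-- **The criterion for all the sectors at all the scales of an interval.** -/
theorem crit_all (hN : 2 ≤ N) (l : ℕ) [NeZero l] {P Q : SU N} (hPQ : TwPair N (zeta N ^ k) P Q)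
    {M : ℕ} (hU : ∀ (A : ℕ) (η : ℝ), 0 < η → ∃ β0 : ℝ, ∀ β, β0 ≤ β →
      Sm μ (Pool.Agent.Run7.h871.TC.wE N l k β) M A η)
    {m : ℝ} (hm : 0 < m) (hmr : m < rate l N) :
    ∀ᶠ A : ℕ in atTop, ∃ β0 : ℝ, ∀ β, β0 ≤ β → ∀ a, A ≤ a → a ≤ 2 * A →
      ∀ χ : AddChar (ZMod N) ℂ,
        CrX μ (Pool.Agent.Run7.h871.TC.wE N l k β) χ a (Real.exp (-(m * (2 * a)))) ∧
        0 < ZX μ (Pool.Agent.Run7.h871.TC.wE N l k β) χ fun _ => a := by
  obtain ⟨C, hC⟩ := crit_at (k := k) μ hN l hPQ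
  obtain ⟨m1, hm1, hm1r⟩ := exists_between hmr
  obtain ⟨A0, hA0⟩ := eventually_atTop.1 (large (C := C) (hm.trans hm1) hm1r)
  filter_upwards [eventually_ge_atTop (max A0 1), eventually_ge_atTop M] with A hA hAM
  have hN0 : (0 : ℝ) < N := by exact_mod_cast NeZero.pos N
  have h1 : ∀ a ∈ Finset.Icc A (2 * A), ∀ᶠ β in atTop, ∀ χ : AddChar (ZMod N) ℂ,
        CrX μ (Pool.Agent.Run7.h871.TC.wE N l k β) χ a (Real.exp (-(m * (2 * a)))) ∧
        0 < ZX μ (Pool.Agent.Run7.h871.TC.wE N l k β) χ fun _ => a := by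
    intro a ha
    rw [Finset.mem_Icc] at ha
    have ha1 : 1 ≤ a := (le_max_right _ _).trans (hA.trans ha.1)
    obtain ⟨-, h2⟩ := hA0 a ((le_max_left _ _).trans (hA.trans ha.1))
    obtain ⟨β1, hβ1⟩ := hC a ha1 _ h2
    have ha' : (1 : ℝ) ≤ a := by exact_mod_cast ha1
    have h3 : Real.exp (-(m1 * (2 * a))) < Real.exp (-(m * (2 * a))) := by
      rw [Real.exp_lt_exp]
      nlinarith
    obtain ⟨η, hη⟩ : ∃ η, η = min ((Real.exp (-(m * (2 * a))) - Real.exp (-(m1 * (2 * a)))) /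
      (30 * N)) (1 / (4 * N)) := ⟨_, rfl⟩
    have hη0 : 0 < η := by
      rw [hη]
      have : 0 < Real.exp (-(m * (2 * a))) - Real.exp (-(m1 * (2 * a))) := by linarith
      positivity
    have hη1 : 30 * N * η ≤ Real.exp (-(m * (2 * a))) - Real.exp (-(m1 * (2 * a))) := by
      have : η ≤ (Real.exp (-(m * (2 * a))) - Real.exp (-(m1 * (2 * a)))) / (30 * N) := by
        rw [hη]; exact min_le_left _ _
      rw [le_div_iff₀ (by positivity)] at this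
      linarith
    have hη2 : 4 * N * η ≤ 1 := by
      have : η ≤ 1 / (4 * N) := by rw [hη]; exact min_le_right _ _
      rw [le_div_iff₀ (by positivity)] at this
      linarith
    obtain ⟨β2, hβ2⟩ := hU (4 * a) η hη0
    filter_upwards [eventually_ge_atTop β1, eventually_ge_atTop β2] with β hb1 hb2 χ
    exact crX (Pool.Agent.Run7.h871.TC.wE_bd β) (Pool.Agent.Run7.h871.TC.wE_sy β)
      (Pool.Agent.Run7.h871.UP.zc_cn β)
      (fun a b _ _ s hs => Pool.Agent.Run7.h630.R2.dc_range s hs) ha1 h3 (hβ1 β hb1) hη0.le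
      hη1 hη2 (fun p q _ _ h5 h6 h7 h8 => hβ2 β hb2 p q (hAM.trans (ha.1.trans h5))
        (hAM.trans (ha.1.trans h6)) h7 h8) χ
  obtain ⟨β0, hβ0⟩ := eventually_atTop.1 ((Finset.Icc A (2 * A)).eventually_all.2 h1)
  exact ⟨β0, fun β hβ a h1 h2 χ => hβ0 β hβ a (Finset.mem_Icc.2 ⟨h1, h2⟩) χ⟩

/-- **The free energies of the electric sectors**: the string tensions with the errors of the
order `exp (- m L)`, for every `m` below the lattice mass. -/
theorem soft_main (hN : 2 ≤ N) (l : ℕ) [NeZero l] {P Q : SU N} (hPQ : TwPair N (zeta N ^ k) P Q)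
    {M : ℕ} (hU : ∀ (A : ℕ) (η : ℝ), 0 < η → ∃ β0 : ℝ, ∀ β, β0 ≤ β →
      Sm μ (Pool.Agent.Run7.h871.TC.wE N l k β) M A η)
    {m : ℝ} (hm : 0 < m) (hmr : m < rate l N) :
    ∃ (A : ℕ) (β0 : ℝ), 1 ≤ A ∧ ∀ β, β0 ≤ β → ∀ (χ : AddChar (ZMod N) ℂ) (p q : ℕ)
      [NeZero (2 * p)] [NeZero (2 * q)], A ≤ p → A ≤ q →
      0 < ZS μ (Pool.Agent.Run7.h871.TC.wE N l k β) χ (2 * p) (2 * q) ∧
      |Real.log (ZS μ (Pool.Agent.Run7.h871.TC.wE N l k β) χ (2 * p) (2 * q) /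
          ZS μ (Pool.Agent.Run7.h871.TC.wE N l k β) 1 (2 * p) (2 * q)) +
        sig μ (Pool.Agent.Run7.h871.TC.wE N l k β) χ * (4 * (p * q))| ≤
        (p + q) * Real.exp (-(2 * m * (min p q : ℕ))) := by
  obtain ⟨m1, hm1, hm1r⟩ := exists_between hmr
  have h1 := crit_all (k := k) μ hN l hPQ hU (hm.trans hm1) hm1r
  have h2 : ∀ᶠ A : ℕ in atTop, Real.exp (-(m1 * (2 * A))) ≤ 1 / 2 :=
    (large (C := 0) (hm.trans hm1) hm1r).mono fun a h => h.1
  have h3 : ∀ᶠ A : ℕ in atTop, m / (m1 - m) ≤ A :=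
    tendsto_natCast_atTop_atTop.eventually_ge_atTop _
  obtain ⟨A, ⟨β0, hA⟩, hA2, hA3, hA4⟩ := (h1.and (h2.and (h3.and (eventually_ge_atTop 2)))).exists
  refine ⟨2 * A, β0, by omega, fun β hβ χ p q _ _ hp hq => ?_⟩
  obtain ⟨n, hn⟩ : ∃ n, n = min p q := ⟨_, rfl⟩
  have hnA : 2 * A ≤ n := by rw [hn]; exact le_min hp hq
  obtain ⟨k', e1, e2, -⟩ := xS_scale (s := 1 / 2) (by norm_num) le_rfl (a := A) (by omega)
    (n := n) hnA
  have hpw : 0 < 2 ^ (k' + 1) := by positivity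
  obtain ⟨a, ha⟩ : ∃ a, a = n / 2 ^ (k' + 1) := ⟨_, rfl⟩
  have a1 : A ≤ a := by
    rw [ha, Nat.le_div_iff_mul_le hpw, mul_comm]
    exact e1
  have a2 : a ≤ 2 * A := by
    have : a < 2 * A := by
      rw [ha, Nat.div_lt_iff_lt_mul hpw]
      calc n < 2 ^ (k' + 2) * A := e2
        _ = _ := by ring
    omega
  have a3 : 2 ^ (k' + 1) * a ≤ n := by
    rw [ha]; exact Nat.mul_div_le n _
  have a4 : n < 2 ^ (k' + 1) * (a + 1) := by
    rw [ha, mul_comm]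
    exact Nat.lt_mul_of_div_lt (Nat.lt_succ_self _) hpw
  obtain ⟨w, hw⟩ : ∃ w, w = Pool.Agent.Run7.h871.TC.wE N l k β := ⟨_, rfl⟩
  have hb : w.Bd := hw ▸ Pool.Agent.Run7.h871.TC.wE_bd β
  have hsy : w.Sy := hw ▸ Pool.Agent.Run7.h871.TC.wE_sy β
  have hcn : Cn w (Pool.Agent.Run7.h871.UP.zc N) := hw ▸ Pool.Agent.Run7.h871.UP.zc_cn β
  have hcr := hA β hβ a a1 a2
  rw [← hw] at hcr ⊢
  have ha' : (A : ℝ) ≤ a := by exact_mod_cast a1
  have hs : Real.exp (-(m1 * (2 * a))) ≤ 1 / 2 := by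
    refine le_trans (Real.exp_le_exp.2 ?_) hA2
    have : 0 < m1 := hm.trans hm1
    nlinarith
  have h1p : 2 ^ (k' + 1) * a ≤ p := a3.trans (hn ▸ min_le_left _ _)
  have h1q : 2 ^ (k' + 1) * a ≤ q := a3.trans (hn ▸ min_le_right _ _)
  obtain ⟨c1, c2, c3⟩ := sector hb hsy hcn χ (by omega) (hcr χ).2 (Real.exp_pos _) hs (hcr χ).1
    h1p h1q
  obtain ⟨b1, b2, b3⟩ := sector hb hsy hcn 1 (by omega) (hcr 1).2 (Real.exp_pos _) hs (hcr 1).1
    h1p h1q
  have e1 : ∀ χ : AddChar (ZMod N) ℂ, ZX μ w χ ![p, q] = ZS μ w χ (2 * p) (2 * q) := fun χ =>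
    ZX_eq rfl rfl
  rw [e1] at c1 c2 c3 b1 b2 b3
  refine ⟨c1, ?_⟩
  rw [Real.log_div c1.ne' b1.ne']
  set E := xS (Real.exp (-(m1 * (2 * a)))) k' * (1 + (p + q) / (2 ^ (k' + 1) * a : ℕ)) with hE
  have h4 : |Real.log (ZS μ w χ (2 * p) (2 * q)) - Real.log (ZS μ w 1 (2 * p) (2 * q)) +
      sig μ w χ * (4 * (p * q))| ≤ E := by
    unfold sig
    rw [abs_le]
    constructor <;> nlinarith
  refine h4.trans ?_
  have ht : (4 : ℝ) ≤ (2 ^ (k' + 1) * a : ℕ) := by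
    have h5 : 2 ≤ 2 ^ (k' + 1) := by
      rw [pow_succ]
      have := Nat.one_le_two_pow (n := k')
      omega
    have : 4 ≤ 2 ^ (k' + 1) * a := by
      calc 4 = 2 * 2 := by norm_num
        _ ≤ _ := Nat.mul_le_mul h5 (by omega)
    exact_mod_cast this
  have hp1 : (1 : ℝ) ≤ p := by
    have : 1 ≤ p := by omega
    exact_mod_cast this
  have hq1 : (0 : ℝ) ≤ q := by positivity
  have h6 : 1 + ((p : ℝ) + q) / (2 ^ (k' + 1) * a : ℕ) ≤ 15 * (p + q) := by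
    have h7 : ((p : ℝ) + q) / (2 ^ (k' + 1) * a : ℕ) ≤ p + q :=
      div_le_self (by positivity) (by linarith)
    linarith
  have hx : xS (Real.exp (-(m1 * (2 * a)))) k' ≤ 1 / 15 * Real.exp (-(2 * m * n)) := by
    unfold xS
    refine mul_le_mul_of_nonneg_left ?_ (by norm_num)
    rw [← Real.exp_nat_mul, Real.exp_le_exp]
    push_cast
    have g1 : (n : ℝ) ≤ 2 ^ (k' + 1) * (a + 1) := by exact_mod_cast a4.le
    have g2 : m * (a + 1) ≤ m1 * a := by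
      have g3 : m / (m1 - m) ≤ a := hA3.trans ha'
      rw [div_le_iff₀ (by linarith)] at g3
      linarith
    have g4 : m * n ≤ 2 ^ (k' + 1) * (m1 * a) := by
      calc m * n ≤ m * (2 ^ (k' + 1) * (a + 1)) := by gcongr
        _ = 2 ^ (k' + 1) * (m * (a + 1)) := by ring
        _ ≤ _ := by gcongr
    nlinarith
  calc E ≤ (1 / 15 * Real.exp (-(2 * m * n))) * (15 * (p + q)) := by
        rw [hE]
        exact mul_le_mul hx h6 (by positivity) (by positivity)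
    _ = _ := by rw [hn]; ring

end

end Pool.Agent.Run7.h897.ST
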