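import Mathlib

/-!
# Project C: the numerical part, statements

All sizes are half sizes: loops of length `2 q`, distances `2 j` and `2 i` on a circle of length
`2 (i + j)`.
-/

open Filter Topology

namespace Pool.Agent.Run7.h897.PC

noncomputable section

/-- the data at one coupling -/
structure PD where
  /-- the correlation of two loops (not normalised) -/
  F : ℕ → ℕ → ℕ → ℝ
  /-- its part in the sector `c` -/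
  A : ℕ → ℕ → ℕ → ℕ → ℝ
  /-- the partition functions `Z c p q` of the sectors -/
  Z : ℕ → ℕ → ℕ → ℝ
  /-- the partition function `T p q` -/
  T : ℕ → ℕ → ℝ
  /-- logarithm of the squared norm of the transfer operator of the sector `c` -/
  e : ℕ → ℕ → ℝ
  /-- the free energy densities -/
  φ : ℕ → ℝ
  /-- the shift of the sectors by the loop -/
  s : ℕ → ℕ

/-- the properties of the data -/
structure PD.Ok (D : PD) (N A0 : ℕ) (m : ℝ) : Prop where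
  sN : ∀ c, c < N → D.s c < N
  sum : ∀ q i j, 1 ≤ q → 1 ≤ i → 1 ≤ j → D.F q i j = ∑ c ∈ Finset.range N, D.A c q i j
  An : ∀ c q i j, c < N → 1 ≤ q → 1 ≤ i → 1 ≤ j → 0 ≤ D.A c q i j
  Ale : ∀ c q i j, c < N → 1 ≤ q → 1 ≤ i → 1 ≤ j →
    D.A c q i j ^ 2 ≤ D.Z c (2 * i) q * D.Z (D.s c) (2 * j) q
  up1 : ∀ q i j t, A0 ≤ q → 1 ≤ i → 1 ≤ j → D.A 0 q i j -
      Real.exp (i * D.e 0 q) * (D.Z (D.s 0) j q - Real.exp (j * D.e (D.s 0) q)) ≤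
    D.A 0 q i (j + t) * Real.exp (-(t * D.e (D.s 0) q))
  up2 : ∀ q i j t, A0 ≤ q → 1 ≤ i → 1 ≤ j → D.A 0 q i j -
      Real.exp (j * D.e (D.s 0) q) * (D.Z 0 i q - Real.exp (i * D.e 0 q)) ≤
    D.A 0 q (i + t) j * Real.exp (-(t * D.e 0 q))
  Zpos : ∀ c p q, c < N → A0 ≤ p → A0 ≤ q → 0 < D.Z c p q
  Zlo : ∀ c p q, c < N → A0 ≤ p → A0 ≤ q → (p : ℝ) * q * D.φ c ≤ Real.log (D.Z c p q)
  Zup : ∀ c p q, c < N → A0 ≤ p → A0 ≤ q → Real.log (D.Z c p q) ≤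
    p * q * D.φ c + (p + q) * Real.exp (-(2 * m * (min p q : ℕ)))
  elo : ∀ c q, c < N → A0 ≤ q → (q : ℝ) * D.φ c ≤ D.e c q
  eup : ∀ c q, c < N → A0 ≤ q → D.e c q ≤ q * D.φ c + Real.exp (-(2 * m * q))
  lcq : ∀ q i j, 1 ≤ q → 1 ≤ i → 1 ≤ j → D.F (q + 1) i j ^ 2 ≤ D.F q i j * D.F (q + 2) i j
  lcj : ∀ q i j, 1 ≤ q → D.F q (i + 1) (j + 1) ^ 2 ≤ D.F q (i + 2) j * D.F q i (j + 2)
  Fpos : ∀ q i j, 1 ≤ q → 1 ≤ i → 1 ≤ j → 0 < D.F q i j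
  F0 : ∀ q i, 1 ≤ q → 1 ≤ i → D.F q i 0 ≤ D.T i q
  Tsum : ∀ p q, 1 ≤ p → 1 ≤ q → D.T p q = ∑ c ∈ Finset.range N, D.Z c p q
  lcT : ∀ p q, 1 ≤ p → 1 ≤ q → D.T p (q + 1) ^ 2 ≤ D.T p q * D.T p (q + 2)
  φle : ∀ c, c < N → D.φ c ≤ D.φ 0

/-- PC4-I: the overlap of the loop with the flux sector is at least `exp (- small * length)`, by
induction on the length. -/
def S_I : Prop := ∀ (m α : ℝ) (N : ℕ), 0 < m → 0 < α → 16 * α ≤ m → 1 ≤ N → ∃ Q : ℕ,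
  ∀ (D : PD) (A0 K q0 : ℕ), D.Ok N A0 m → 1 ≤ A0 → Q ≤ q0 → 4 * A0 ≤ q0 → 1 ≤ K →
    (K : ℝ) ≤ Real.exp (m * q0 / 4) →
    (∀ c, c < N → c ≠ 0 → D.φ 0 - D.φ (D.s 0) + 1 ≤ K * (D.φ 0 - D.φ c)) →
    (∀ q : ℕ, q0 ≤ q → q ≤ 64 * q0 →
      Real.exp (-(α / 2 * q)) * Real.exp (q * (q * D.φ 0 + q * D.φ (D.s 0))) ≤ D.A 0 q q q) →
    ∀ q i j : ℕ, q0 ≤ q → K * q ≤ i → q ≤ j →
      Real.exp (-(2 * α * q)) * Real.exp (q * (i * D.φ 0 + j * D.φ (D.s 0))) ≤ D.A 0 q i j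

/-- PC4-II: the potential, from the conclusion of PC4-I. `V` is the rate of `F q i j / T (i + j) q`
per half length `q`, the potential is `V / 2`, the distance is `2 j`, and the string tension is
`(φ 0 - φ (s 0)) / 4`. -/
def S_II : Prop := ∀ (m α : ℝ) (N : ℕ), 0 < m → 0 < α → 16 * α ≤ m → 1 ≤ N →
  ∀ (D : PD) (A0 K q0 : ℕ), D.Ok N A0 m → 1 ≤ A0 → A0 ≤ q0 → 1 ≤ K →
    D.φ (D.s 0) < D.φ 0 →
    (∀ c, c < N → c ≠ 0 → D.φ 0 - D.φ (D.s 0) + 1 ≤ K * (D.φ 0 - D.φ c)) →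
    (∀ q i j : ℕ, q0 ≤ q → K * q ≤ i → q ≤ j →
      Real.exp (-(2 * α * q)) * Real.exp (q * (i * D.φ 0 + j * D.φ (D.s 0))) ≤ D.A 0 q i j) →
    ∀ ε : ℝ, 0 < ε → ∃ L0 : ℕ, ∀ i j : ℕ, 1 ≤ j → L0 * j ≤ i → ∃ V : ℝ,
      Tendsto (fun q : ℕ => -Real.log (D.F q i j / D.T (i + j) q) / q) atTop (𝓝 V) ∧
      (1 - ε) * (j * (D.φ 0 - D.φ (D.s 0))) ≤ V ∧
      V ≤ j * (D.φ 0 - D.φ (D.s 0)) + 6 * α

end

end Pool.Agent.Run7.h897.PC
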