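import Pool.Agent.Run7.h897.ST.Fin3
import Pool.Agent.Run7.h4.VS.PI3
import Pool.Agent.Run7.h630.PC.II

/-!
# The string tension and the static potential
-/

open MeasureTheory Filter Topology
open Run7.h4.YM (Link polyakov)
open Run7.h4.VS (action2 Zf Bnd)

namespace Pool.Agent.Run7.h897.ST

set_option linter.unusedSectionVars false

noncomputable section

variable {N : ℕ} [NeZero N] [MeasurableSpace (S4 N)] [BorelSpace (S4 N)]

/-- **The joint theorem with the static potential.** -/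
theorem joint2 (l k : ℕ) [NeZero l] (hN : 2 ≤ N) (hk : Nat.Coprime k N) (μ : Measure (S4 N))
    [IsProbabilityMeasure μ] [μ.IsHaarMeasure] :
    ∃ (S : ℕ → ℝ) (σ : ℕ → ℝ → ℝ),
      (∀ j, Tendsto (fun p : ℕ × ℕ => sInf (Set.range fun U : Link (p.1 + 1) (p.2 + 1) l → S4 N =>
        action2 k j U)) atTop (𝓝 (S j))) ∧
      (∀ m : ℝ, 0 < m → m < 2 * Real.arsinh (Real.sin (Real.pi / (l * N))) → SoftZ μ l k σ m) ∧
      (∀ c : ℕ, ¬ N ∣ c → ∃ T : ℝ, 0 < T ∧ IsLeast {s | ∃ j : ℕ, ¬ N ∣ c * j ∧ s = S j} T ∧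
        (∀ᶠ β in atTop, 0 < σ c β) ∧
        Tendsto (fun β => -Real.log (σ c β) / β) atTop (𝓝 T)) ∧
      ∀ δ : ℝ, 0 < δ → ∃ β0 : ℝ, ∀ β, β0 ≤ β → ∀ ε : ℝ, 0 < ε → ∃ L0 : ℕ, ∀ (n R : ℕ) [NeZero n],
        1 ≤ R → L0 * R ≤ n → ∃ V : ℝ,
          Tendsto (fun q : ℕ => -Real.log (polyakov (2 * (q + 1)) (2 * n) l μ k β (2 * R)) /
            ((2 * (q + 1) : ℕ) : ℝ)) atTop (𝓝 V) ∧
          (1 - ε) * (σ 1 β * (2 * R)) ≤ V ∧ V ≤ σ 1 β * (2 * R) + δ := by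
  obtain ⟨S, σ, h1, h2, h3⟩ := joint (N := N) l k hN hk μ
  refine ⟨S, σ, h1, h2, h3, ?_⟩
  exact PC.pot Run7.h4.VS.tI Run7.h630.PC.tII l k hN hk μ h2 fun c hc => by
    obtain ⟨T, a, -, b, c⟩ := h3 c hc
    exact ⟨T, a, b, c⟩

end

end Pool.Agent.Run7.h897.ST
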