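import Pool.Agent.Run7.h897.ST.Bri

/-!
# The string tensions, in terms of the partition functions with fluxes
-/

open MeasureTheory Matrix Filter Topology
open Pool.Agent.Run7.h630.R2 (zeta TwPair en)
open Pool.Agent.Run7.h897.TW
open Pool.Agent.Run7.h897.FS (PM BM KS Tw)
open Run7.h4.YM (Link Site dir plaq)
open Run7.h4.VS (twist2 action2 Zf)

namespace Pool.Agent.Run7.h897.ST

set_option linter.unusedSectionVars false
set_option linter.style.haveILetI false

noncomputable section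

/-! ### characters -/

section char

variable {N : ℕ} [NeZero N]

/-- the characters of `ZMod N` -/
def ch (N : ℕ) [NeZero N] (c : ℕ) : AddChar (ZMod N) ℂ :=
  AddChar.mulShift (ZMod.stdAddChar (N := N)) (c : ZMod N)

lemma ch_nat (c j : ℕ) : ch N c (j : ZMod N) = ZMod.stdAddChar (N := N) ((c * j : ℕ) : ZMod N) := by
  unfold ch
  rw [AddChar.mulShift_apply]
  push_cast
  rfl

lemma std_re (j : ℕ) : (ZMod.stdAddChar (N := N) ((j : ℕ) : ZMod N)).re =
    Real.cos (2 * Real.pi * j / N) := by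
  have h1 := ZMod.stdAddChar_coe (N := N) (j : ℤ)
  rw [Int.cast_natCast] at h1
  rw [h1]
  have : (2 : ℂ) * Real.pi * Complex.I * ((j : ℤ) : ℂ) / N =
      ((2 * Real.pi * j / N : ℝ) : ℂ) * Complex.I := by push_cast; ring
  rw [this, Complex.exp_ofReal_mul_I_re]

lemma ch_re (c j : ℕ) : (ch N c (j : ZMod N)).re = Real.cos (2 * Real.pi * (c * j) / N) := by
  rw [ch_nat, std_re]
  push_cast
  rfl

lemma ch_one_iff (c j : ℕ) : ch N c (j : ZMod N) = 1 ↔ N ∣ c * j := by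
  rw [ch_nat, ← AddChar.map_zero_eq_one (ZMod.stdAddChar (N := N)),
    ZMod.injective_stdAddChar.eq_iff, ZMod.natCast_eq_zero_iff]

lemma ch_zero : ch N 0 = 1 := by
  ext j
  unfold ch
  rw [AddChar.mulShift_apply]
  simp

lemma sum_zmod' {M : Type*} [AddCommMonoid M] (f : ZMod N → M) :
    ∑ j, f j = ∑ j ∈ Finset.range N, f (j : ZMod N) := by
  refine (Finset.sum_nbij (fun j : ℕ => (j : ZMod N)) (fun _ _ => Finset.mem_univ _) ?_ ?_
    fun _ _ => rfl).symm
  · intro i hi j hj h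
    have hi' : i < N := by simpa using hi
    have hj' : j < N := by simpa using hj
    have h1 := (ZMod.natCast_eq_natCast_iff' i j N).1 h
    rwa [Nat.mod_eq_of_lt hi', Nat.mod_eq_of_lt hj'] at h1
  · intro z _
    exact ⟨z.val, by simpa using ZMod.val_lt z, ZMod.natCast_zmod_val z⟩

/-- orthogonality of the cosines -/
lemma cos_orth (i j : ℕ) : ∑ c ∈ Finset.range N, Real.cos (2 * Real.pi * (c * i) / N) *
    Real.cos (2 * Real.pi * (c * j) / N) =
    ((if (i : ZMod N) = j then (N : ℝ) else 0) + if (i : ZMod N) = -j then (N : ℝ) else 0) / 2 := by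
  have h1 : ∀ s : ZMod N, ∑ c ∈ Finset.range N, (ZMod.stdAddChar (N := N) ((c : ZMod N) * s)).re =
      if s = 0 then (N : ℝ) else 0 := by
    intro s
    rw [← sum_zmod' fun c : ZMod N => (ZMod.stdAddChar (N := N) (c * s)).re]
    exact sum_cC s
  have h2 : ∀ c : ℕ, Real.cos (2 * Real.pi * (c * i) / N) * Real.cos (2 * Real.pi * (c * j) / N) =
      ((ZMod.stdAddChar (N := N) ((c : ZMod N) * ((i : ZMod N) - j))).re +
        (ZMod.stdAddChar (N := N) ((c : ZMod N) * ((i : ZMod N) + j))).re) / 2 := by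
    intro c
    have e1 := cC_add (M := N) ((c * i : ℕ) : ZMod N) ((c * j : ℕ) : ZMod N)
    have e2 := cC_sub (M := N) ((c * i : ℕ) : ZMod N) ((c * j : ℕ) : ZMod N)
    have e3 : ∀ i : ℕ, cC (M := N) ((c * i : ℕ) : ZMod N) = Real.cos (2 * Real.pi * (c * i) / N) := by
      intro i
      unfold cC
      rw [std_re]
      push_cast
      rfl
    rw [e3, e3] at e1 e2
    have e4 : (c : ZMod N) * ((i : ZMod N) - j) = ((c * i : ℕ) : ZMod N) - ((c * j : ℕ) : ZMod N) := by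
      push_cast; ring
    have e5 : (c : ZMod N) * ((i : ZMod N) + j) = ((c * i : ℕ) : ZMod N) + ((c * j : ℕ) : ZMod N) := by
      push_cast; ring
    rw [e4, e5]
    change _ = (cC (M := N) _ + cC (M := N) _) / 2
    rw [e1, e2]
    ring
  simp only [h2]
  rw [← Finset.sum_div, Finset.sum_add_distrib, h1, h1]
  congr 2
  · simp only [sub_eq_zero]
  · simp only [add_eq_zero_iff_eq_neg]

end char

/-! ### the electric sectors -/

/-- the partition function with the electric flux `c` through the base torus -/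
def Ze {N : ℕ} (n L l : ℕ) [NeZero n] [NeZero L] [NeZero l] [MeasurableSpace (S4 N)]
    (μ : Measure (S4 N)) (k c : ℕ) (β : ℝ) : ℝ :=
  (1 / N) * ∑ j ∈ Finset.range N, Real.cos (2 * Real.pi * (c * j) / N) * Zf n L l μ k j β

section tw

variable {N l b : ℕ} {G : Type*} [Group G] [NeZero N] [NeZero l] [NeZero b] {w : Ens N l G}
  {z : ZMod N → G} [MeasurableSpace G] [MeasurableMul₂ G] [MeasurableInv G] {μ : Measure G}
  [IsProbabilityMeasure μ] [μ.IsMulLeftInvariant] [μ.IsInvInvariant]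

/-- charge conjugation -/
lemma ZT_neg {a : ℕ} [NeZero a] (hb : w.Bd) (hw : w.Sy) (h : Cn w z) (j : ZMod N) :
    ZT μ w (-j) a b = ZT μ w j a b := by
  have hK := tk0_KS (μ := μ) (b := b) hb hw
  have hA := Cs_act (μ := μ) (b := b) hb h
  rw [ZT_eq hb hw h, ZT_eq hb hw h]
  unfold Tw
  have h1 := hA.int_comp j (fun y => FS.kp (PM μ (Ls b l)) (tk0 μ b w) a (Cs z (-j) y) y)
  rw [← h1]
  congr 1
  funext y
  rw [← Cs_add h, neg_add_cancel, Cs_zero h]
  exact hK.symm a (NeZero.one_le) _ _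

/-- the inversion formula -/
lemma ZT_inv {a : ℕ} [NeZero a] (hb : w.Bd) (hw : w.Sy) (h : Cn w z) (j : ℕ) :
    ZT μ w (j : ZMod N) a b = ∑ c ∈ Finset.range N, Real.cos (2 * Real.pi * (c * j) / N) *
      ZS μ w (ch N c) a b := by
  have hN : (0 : ℝ) < N := by exact_mod_cast NeZero.pos N
  have h1 : ∀ c : ℕ, ZS μ w (ch N c) a b = (1 / N) * ∑ i ∈ Finset.range N,
      Real.cos (2 * Real.pi * (c * i) / N) * ZT μ w (i : ZMod N) a b := by
    intro c
    unfold ZS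
    rw [sum_zmod']
    simp only [ch_re]
  simp only [h1]
  have h2 : ∑ c ∈ Finset.range N, Real.cos (2 * Real.pi * (c * j) / N) * ((1 / N) *
      ∑ i ∈ Finset.range N, Real.cos (2 * Real.pi * (c * i) / N) * ZT μ w (i : ZMod N) a b) =
      (1 / N) * ∑ i ∈ Finset.range N, (∑ c ∈ Finset.range N, Real.cos (2 * Real.pi * (c * i) / N) *
        Real.cos (2 * Real.pi * (c * j) / N)) * ZT μ w (i : ZMod N) a b := by
    simp only [Finset.mul_sum, Finset.sum_mul]
    rw [Finset.sum_comm]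
    refine Finset.sum_congr rfl fun i _ => Finset.sum_congr rfl fun c _ => ?_
    ring
  rw [h2]
  simp only [cos_orth]
  rw [← sum_zmod' fun i : ZMod N => ((if i = (j : ZMod N) then (N : ℝ) else 0) +
    if i = -(j : ZMod N) then (N : ℝ) else 0) / 2 * ZT μ w i a b]
  have h3 : ∀ i : ZMod N, ((if i = (j : ZMod N) then (N : ℝ) else 0) +
      if i = -(j : ZMod N) then (N : ℝ) else 0) / 2 * ZT μ w i a b =
      (if i = (j : ZMod N) then (N : ℝ) / 2 * ZT μ w i a b else 0) +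
      if i = -(j : ZMod N) then (N : ℝ) / 2 * ZT μ w i a b else 0 := by
    intro i
    split_ifs <;> ring
  simp only [h3]
  rw [Finset.sum_add_distrib, Finset.sum_ite_eq' Finset.univ, Finset.sum_ite_eq' Finset.univ,
    if_pos (Finset.mem_univ _), if_pos (Finset.mem_univ _), ZT_neg hb hw h]
  field_simp
  ring

end tw

section out

variable {N : ℕ} [NeZero N] [MeasurableSpace (S4 N)] [BorelSpace (S4 N)]

/-- upper bounds for the fluxes at the sizes of the order `β` -/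
def UpZ (μ : Measure (S4 N)) (l : ℕ) [NeZero l] (k c : ℕ) (S : ℝ) : Prop :=
  ∀ C0 : ℝ, 0 < C0 → ∃ (M : ℕ) (β0 : ℝ), ∀ β, β0 ≤ β → ∀ (p q : ℕ) [NeZero (2 * p)]
    [NeZero (2 * q)], M ≤ p → M ≤ q → (p : ℝ) ≤ C0 * β → (q : ℝ) ≤ C0 * β →
    ∀ j : ℕ, ¬ N ∣ c * j →
      Zf (2 * p) (2 * q) l μ k j β ≤ Real.exp (-(S * β)) * Zf (2 * p) (2 * q) l μ k 0 β

/-- lower bounds for one flux -/
def LoZ (μ : Measure (S4 N)) (l : ℕ) [NeZero l] (k c : ℕ) (S : ℝ) : Prop :=
  ∃ j : ℕ, ¬ N ∣ c * j ∧ ∃ (M : ℕ) (β0 : ℝ), ∀ β, β0 ≤ β → ∀ (p : ℕ) [NeZero (2 * p)], M ≤ p →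
      Real.exp (-(S * β)) * Zf (2 * p) (2 * p) l μ k 0 β ≤ Zf (2 * p) (2 * p) l μ k j β

/-- the free energies of the electric fluxes with exponentially small errors -/
def SoftZ (μ : Measure (S4 N)) (l : ℕ) [NeZero l] (k : ℕ) (σ : ℕ → ℝ → ℝ) (m : ℝ) : Prop :=
  ∃ (A : ℕ) (β0 : ℝ), 1 ≤ A ∧ ∀ β, β0 ≤ β → ∀ (p q : ℕ) [NeZero (2 * p)] [NeZero (2 * q)],
    A ≤ p → A ≤ q →
    (∀ c : ℕ, 0 < Ze (2 * p) (2 * q) l μ k c β ∧
      |Real.log (Ze (2 * p) (2 * q) l μ k c β / Ze (2 * p) (2 * q) l μ k 0 β) +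
        σ c β * (4 * (p * q))| ≤ (p + q) * Real.exp (-(2 * m * (min p q : ℕ)))) ∧
    ∀ j : ℕ, |Zf (2 * p) (2 * q) l μ k j β / Zf (2 * p) (2 * q) l μ k 0 β -
      (∑ c ∈ Finset.range N, Real.cos (2 * Real.pi * (c * j) / N) *
        Real.exp (-(σ c β * (4 * (p * q))))) /
      ∑ c ∈ Finset.range N, Real.exp (-(σ c β * (4 * (p * q))))| ≤
        8 * (p + q) * Real.exp (-(2 * m * (min p q : ℕ)))

/-- the numerical part of the flux law -/
lemma flux_num {f : ℕ → ℝ} {x y : ℕ → ℝ} {ε : ℝ} (hf : ∀ c, |f c| ≤ 1)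
    (hx : ∀ c, 0 < x c) (hy : ∀ c, 0 < y c) (hε : 0 ≤ ε)
    (h : ∀ c, |Real.log (x c) - Real.log (y c)| ≤ ε) :
    |(∑ c ∈ Finset.range N, f c * x c) / ∑ c ∈ Finset.range N, x c -
      (∑ c ∈ Finset.range N, f c * y c) / ∑ c ∈ Finset.range N, y c| ≤ 8 * ε := by
  have hN : (Finset.range N).Nonempty := ⟨0, Finset.mem_range.2 (NeZero.pos N)⟩
  have X : 0 < ∑ c ∈ Finset.range N, x c := Finset.sum_pos (fun c _ => hx c) hN
  have Y : 0 < ∑ c ∈ Finset.range N, y c := Finset.sum_pos (fun c _ => hy c) hN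
  have bd : ∀ {z : ℕ → ℝ}, (∀ c, 0 < z c) →
      |(∑ c ∈ Finset.range N, f c * z c) / ∑ c ∈ Finset.range N, z c| ≤ 1 := by
    intro z hz
    have Z : 0 < ∑ c ∈ Finset.range N, z c := Finset.sum_pos (fun c _ => hz c) hN
    rw [abs_div, abs_of_pos Z, div_le_one Z]
    refine (Finset.abs_sum_le_sum_abs _ _).trans (Finset.sum_le_sum fun c _ => ?_)
    rw [abs_mul, abs_of_pos (hz c)]
    have := mul_le_mul_of_nonneg_right (hf c) (hz c).le
    linarith
  have b1 := bd hx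
  have b2 := bd hy
  rcases le_or_gt (1 / 4) ε with h4 | h4
  · calc _ ≤ |(∑ c ∈ Finset.range N, f c * x c) / ∑ c ∈ Finset.range N, x c| +
          |(∑ c ∈ Finset.range N, f c * y c) / ∑ c ∈ Finset.range N, y c| := abs_sub _ _
      _ ≤ 8 * ε := by linarith
  -- small errors
  have key : ∀ c, |x c - y c| ≤ 2 * ε * y c := by
    intro c
    have e1 : x c = y c * Real.exp (Real.log (x c) - Real.log (y c)) := by
      rw [Real.exp_sub, Real.exp_log (hx c), Real.exp_log (hy c)]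
      field_simp [(hy c).ne']
    have h5 := h c
    obtain ⟨t, ht⟩ : ∃ t, t = Real.log (x c) - Real.log (y c) := ⟨_, rfl⟩
    rw [← ht] at h5 e1
    have h6 : |Real.exp t - 1| ≤ 2 * ε := by
      have h7 : |t| ≤ 1 := h5.trans (by linarith)
      have h8 := Real.abs_exp_sub_one_sub_id_le h7
      have h9 : t ^ 2 ≤ ε := by
        have := abs_le.1 h5
        nlinarith
      have h10 : |Real.exp t - 1| ≤ |Real.exp t - 1 - t| + |t| := by
        have := abs_add_le (Real.exp t - 1 - t) t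
        rwa [sub_add_cancel] at this
      linarith
    rw [e1, show y c * Real.exp t - y c = y c * (Real.exp t - 1) by ring, abs_mul,
      abs_of_pos (hy c)]
    have := mul_le_mul_of_nonneg_left h6 (hy c).le
    linarith
  set Sx := ∑ c ∈ Finset.range N, x c
  set Sy := ∑ c ∈ Finset.range N, y c
  set Fx := ∑ c ∈ Finset.range N, f c * x c
  set Fy := ∑ c ∈ Finset.range N, f c * y c
  have k1 : |Sx - Sy| ≤ 2 * ε * Sy := by
    rw [← Finset.sum_sub_distrib, Finset.mul_sum]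
    exact (Finset.abs_sum_le_sum_abs _ _).trans (Finset.sum_le_sum fun c _ => key c)
  have k2 : |Fx - Fy| ≤ 2 * ε * Sy := by
    rw [← Finset.sum_sub_distrib, Finset.mul_sum]
    refine (Finset.abs_sum_le_sum_abs _ _).trans (Finset.sum_le_sum fun c _ => ?_)
    rw [← mul_sub, abs_mul]
    calc |f c| * |x c - y c| ≤ 1 * |x c - y c| :=
          mul_le_mul_of_nonneg_right (hf c) (abs_nonneg _)
      _ ≤ _ := by rw [one_mul]; exact key c
  have e2 : Fx / Sx - Fy / Sy = ((Fx - Fy) - Fx / Sx * (Sx - Sy)) / Sy := by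
    field_simp
    ring
  rw [e2, abs_div, abs_of_pos Y, div_le_iff₀ Y]
  calc |Fx - Fy - Fx / Sx * (Sx - Sy)| ≤ |Fx - Fy| + |Fx / Sx * (Sx - Sy)| := abs_sub _ _
    _ ≤ 2 * ε * Sy + 1 * (2 * ε * Sy) := by
        rw [abs_mul]
        exact add_le_add k2 (mul_le_mul b1 k1 (abs_nonneg _) zero_le_one)
    _ ≤ 8 * ε * Sy := by nlinarith

/-- **The string tensions and the law of the flux.** -/
theorem out (l k : ℕ) [NeZero l] (hN : 2 ≤ N) (hk : Nat.Coprime k N) (μ : Measure (S4 N))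
    [IsProbabilityMeasure μ] [μ.IsHaarMeasure] {S1 : ℝ} (hS1 : 0 < S1) (hU1 : UpZ μ l k 1 S1) :
    ∃ σ : ℕ → ℝ → ℝ,
      (∀ m : ℝ, 0 < m → m < 2 * Real.arsinh (Real.sin (Real.pi / (l * N))) → SoftZ μ l k σ m) ∧
      ∀ (c : ℕ) (S : ℝ), 0 < S → (∀ S', 0 < S' → S' < S → UpZ μ l k c S') →
        (∀ S', S < S' → LoZ μ l k c S') →
        (∀ᶠ β in atTop, 0 < σ c β) ∧
        Tendsto (fun β => -Real.log (σ c β) / β) atTop (𝓝 S) := by
  letI : MeasurableSpace (S6 N) := borel _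
  haveI : BorelSpace (S6 N) := ⟨rfl⟩
  haveI := mu6_prob μ
  haveI := mu6_haar μ
  haveI := right_inv'' (mu6 μ)
  haveI := inv_inv'' (mu6 μ)
  have hN0 : (0 : ℝ) < N := by exact_mod_cast NeZero.pos N
  have hZf : ∀ (a b j : ℕ) [NeZero a] [NeZero b] (β : ℝ), Zf a b l μ k j β =
      ZT (mu6 μ) (Pool.Agent.Run7.h871.TC.wE N l k β) (j : ZMod N) a b := fun a b j _ _ β =>
    Zf_eq μ k j β
  have hZf0 : ∀ (a b : ℕ) [NeZero a] [NeZero b] (β : ℝ), Zf a b l μ k 0 β =
      ZT (mu6 μ) (Pool.Agent.Run7.h871.TC.wE N l k β) 0 a b := fun a b _ _ β => by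
    rw [hZf, Nat.cast_zero]
  have hZe : ∀ (a b c : ℕ) [NeZero a] [NeZero b] (β : ℝ), Ze a b l μ k c β =
      ZS (mu6 μ) (Pool.Agent.Run7.h871.TC.wE N l k β) (ch N c) a b := by
    intro a b c _ _ β
    unfold Ze ZS
    rw [sum_zmod']
    simp only [ch_re, hZf]
  have hUR : ∀ (c : ℕ) (S : ℝ), UpZ μ l k c S →
      UpR (mu6 μ) (fun β => Pool.Agent.Run7.h871.TC.wE N l k β) (ch N c) S := by
    intro c S h C0 hC0
    obtain ⟨M, β0, h0⟩ := h C0 hC0
    refine ⟨M, β0, fun β hβ p q _ _ h1 h2 h3 h4 j hj => ?_⟩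
    have h5 := h0 β hβ p q h1 h2 h3 h4 j.val (fun h6 => hj (by
      have := (ch_one_iff (N := N) c j.val).2 h6
      rwa [ZMod.natCast_zmod_val] at this))
    rw [hZf0, hZf, ZMod.natCast_zmod_val] at h5
    exact h5
  have hLR : ∀ (c : ℕ) (S : ℝ), LoZ μ l k c S →
      Lo (mu6 μ) (fun β => Pool.Agent.Run7.h871.TC.wE N l k β) (ch N c) S := by
    rintro c S ⟨j, hj, M, β0, h0⟩
    refine ⟨(j : ZMod N), fun h6 => hj ((ch_one_iff c j).1 h6), M, β0, fun β hβ p _ h1 => ?_⟩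
    have h5 := h0 β hβ p h1
    rw [hZf0, hZf] at h5
    exact h5
  have hχ1 : ∀ j : ZMod N, j ≠ 0 → ch N 1 j ≠ 1 := by
    intro j hj h
    apply hj
    have h1 : ch N 1 ((j.val : ℕ) : ZMod N) = 1 := by rwa [ZMod.natCast_zmod_val]
    rw [ch_one_iff, one_mul] at h1
    have h2 := (ZMod.natCast_eq_zero_iff j.val N).2 h1
    rwa [ZMod.natCast_zmod_val] at h2
  obtain ⟨m1, m2⟩ := main (k := k) (mu6 μ) hN hk l hχ1 hS1 (hUR 1 S1 hU1)
  refine ⟨fun c β => sig (mu6 μ) (Pool.Agent.Run7.h871.TC.wE N l k β) (ch N c), ?_, ?_⟩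
  · intro m hm hmr
    obtain ⟨A, β0, hA, h0⟩ := m1 m hm hmr
    refine ⟨A, β0, hA, fun β hβ p q _ _ hp hq => ?_⟩
    obtain ⟨w, hw⟩ : ∃ w, w = Pool.Agent.Run7.h871.TC.wE N l k β := ⟨_, rfl⟩
    have hb : w.Bd := hw ▸ Pool.Agent.Run7.h871.TC.wE_bd β
    have hsy : w.Sy := hw ▸ Pool.Agent.Run7.h871.TC.wE_sy β
    have hcn : Cn w (Pool.Agent.Run7.h871.UP.zc N) := hw ▸ Pool.Agent.Run7.h871.UP.zc_cn β
    have h1 := fun c => h0 β hβ (ch N c) p q hp hq
    simp only [hZe, hZf, Nat.cast_zero]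
    beta_reduce at h1 ⊢
    rw [← hw] at h1 ⊢
    have hz0 : ZS (mu6 μ) w (ch N 0) (2 * p) (2 * q) = ZS (mu6 μ) w 1 (2 * p) (2 * q) := by
      rw [ch_zero]
    have hpos1 : 0 < ZS (mu6 μ) w 1 (2 * p) (2 * q) := ZS_one_pos hb
    refine ⟨fun c => ⟨(h1 c).1, ?_⟩, fun j => ?_⟩
    · rw [hz0]; exact (h1 c).2
    · have e1 := ZT_inv (μ := mu6 μ) (a := 2 * p) (b := 2 * q) hb hsy hcn j
      have e0 := ZT_inv (μ := mu6 μ) (a := 2 * p) (b := 2 * q) hb hsy hcn 0
      simp only [Nat.cast_zero, mul_zero, zero_div, Real.cos_zero, one_mul] at e0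
      rw [e1, e0]
      have h2 := flux_num (N := N) (f := fun c => Real.cos (2 * Real.pi * (c * j) / N))
        (x := fun c => ZS (mu6 μ) w (ch N c) (2 * p) (2 * q) /
          ZS (mu6 μ) w 1 (2 * p) (2 * q))
        (y := fun c => Real.exp (-(sig (mu6 μ) w (ch N c) * (4 * (p * q)))))
        (ε := (p + q) * Real.exp (-(2 * m * (min p q : ℕ))))
        (fun c => Real.abs_cos_le_one _) (fun c => div_pos (h1 c).1 hpos1)
        (fun c => Real.exp_pos _) (by positivity) (fun c => by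
          rw [Real.log_exp, sub_neg_eq_add]
          exact (h1 c).2)
      have e3 : (∑ c ∈ Finset.range N, Real.cos (2 * Real.pi * (c * j) / N) *
          (ZS (mu6 μ) w (ch N c) (2 * p) (2 * q) / ZS (mu6 μ) w 1 (2 * p) (2 * q))) /
          ∑ c ∈ Finset.range N, ZS (mu6 μ) w (ch N c) (2 * p) (2 * q) /
            ZS (mu6 μ) w 1 (2 * p) (2 * q) =
          (∑ c ∈ Finset.range N, Real.cos (2 * Real.pi * (c * j) / N) *
            ZS (mu6 μ) w (ch N c) (2 * p) (2 * q)) /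
          ∑ c ∈ Finset.range N, ZS (mu6 μ) w (ch N c) (2 * p) (2 * q) := by
        simp only [mul_div_assoc']
        rw [← Finset.sum_div, ← Finset.sum_div, div_div_div_cancel_right₀ hpos1.ne']
      rw [e3] at h2
      refine h2.trans (le_of_eq ?_)
      ring
  · intro c S hS hU hL
    exact m2 (ch N c) S hS (fun S' h3 h4 => hUR c S' (hU S' h3 h4))
      (fun S' h3 => hLR c S' (hL S' h3))

end out

end

end Pool.Agent.Run7.h897.ST
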