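import Pool.Agent.Run7.h897.ST.Out

/-!
# The free energies of the electric sectors, one by one
-/

open MeasureTheory Matrix Filter Topology
open Pool.Agent.H906R3.YM Pool.Agent.W793.YM Pool.Agent.TH618.YM Pool.Agent.N984.TW
open Pool.Agent.Run7.h630.R2 (SU SU_closed zeta TwPair)
open Pool.Agent.Run7.h897.TW
open Pool.Agent.Run7.h897.FS (dP Fam fe)
open Run7.h4.VS (Zf)

namespace Pool.Agent.Run7.h897.ST

set_option linter.unusedSectionVars false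
set_option linter.style.haveILetI false

noncomputable section

/-- the free energies of the sectors with exponentially small errors -/
def Fe {N l : ℕ} {G : Type*} [Group G] [NeZero N] [NeZero l] [MeasurableSpace G]
    (μ : Measure G) (w : Ens N l G) (m : ℝ) (A : ℕ) : Prop :=
  ∀ χ : AddChar (ZMod N) ℂ, Fam (ZX μ w χ) ∧ ∀ p q : ℕ, A ≤ p → A ≤ q →
    (p : ℝ) * q * fe (fun n m => ZX μ w χ ![n, m]) ≤ Real.log (ZX μ w χ ![p, q]) ∧
    Real.log (ZX μ w χ ![p, q]) ≤ p * q * fe (fun n m => ZX μ w χ ![n, m]) +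
      (p + q) * Real.exp (-(2 * m * (min p q : ℕ)))

section one

variable {N : ℕ} [NeZero N] {k : ℕ} [MeasurableSpace (SU N)] [BorelSpace (SU N)]
  (μ : Measure (SU N)) [IsProbabilityMeasure μ] [μ.IsMulLeftInvariant] [μ.IsMulRightInvariant]
  [μ.IsInvInvariant]

theorem soft_full (hN : 2 ≤ N) (l : ℕ) [NeZero l] {P Q : SU N} (hPQ : TwPair N (zeta N ^ k) P Q)
    {M : ℕ} (hU : ∀ (A : ℕ) (η : ℝ), 0 < η → ∃ β0 : ℝ, ∀ β, β0 ≤ β →
      Sm μ (Pool.Agent.Run7.h871.TC.wE N l k β) M A η)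
    {m : ℝ} (hm : 0 < m) (hmr : m < rate l N) :
    ∃ (A : ℕ) (β0 : ℝ), 1 ≤ A ∧ ∀ β, β0 ≤ β →
      Fe μ (Pool.Agent.Run7.h871.TC.wE N l k β) m A := by
  obtain ⟨m1, hm1, hm1r⟩ := exists_between hmr
  have h1 := crit_all (k := k) μ hN l hPQ hU (hm.trans hm1) hm1r
  have h2 : ∀ᶠ A : ℕ in atTop, Real.exp (-(m1 * (2 * A))) ≤ 1 / 2 :=
    (large (C := 0) (hm.trans hm1) hm1r).mono fun a h => h.1
  have h3 : ∀ᶠ A : ℕ in atTop, m / (m1 - m) ≤ A :=
    tendsto_natCast_atTop_atTop.eventually_ge_atTop _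
  obtain ⟨A, ⟨β0, hA⟩, hA2, hA3, hA4⟩ := (h1.and (h2.and (h3.and (eventually_ge_atTop 2)))).exists
  refine ⟨2 * A, β0, by omega, fun β hβ χ => ?_⟩
  obtain ⟨w, hw⟩ : ∃ w, w = Pool.Agent.Run7.h871.TC.wE N l k β := ⟨_, rfl⟩
  have hb : w.Bd := hw ▸ Pool.Agent.Run7.h871.TC.wE_bd β
  have hsy : w.Sy := hw ▸ Pool.Agent.Run7.h871.TC.wE_sy β
  have hcn : Cn w (Pool.Agent.Run7.h871.UP.zc N) := hw ▸ Pool.Agent.Run7.h871.UP.zc_cn β
  have hcr0 := hA β hβ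
  rw [← hw] at hcr0 ⊢
  refine ⟨famX hb hsy hcn χ (by omega) (hcr0 A le_rfl (by omega) χ).2, fun p q hp hq => ?_⟩
  obtain ⟨n, hn⟩ : ∃ n, n = min p q := ⟨_, rfl⟩
  have hnA : 2 * A ≤ n := by rw [hn]; exact le_min hp hq
  obtain ⟨k', e1, e2, -⟩ := xS_scale (s := 1 / 2) (by norm_num) le_rfl (a := A) (by omega)
    (n := n) hnA
  have hpw : 0 < 2 ^ (k' + 1) := by positivity
  obtain ⟨a, ha⟩ : ∃ a, a = n / 2 ^ (k' + 1) := ⟨_, rfl⟩
  have a1 : A ≤ a := by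
    rw [ha, Nat.le_div_iff_mul_le hpw, mul_comm]
    exact e1
  have a2 : a ≤ 2 * A := by
    have : a < 2 * A := by
      rw [ha, Nat.div_lt_iff_lt_mul hpw]
      calc n < 2 ^ (k' + 2) * A := e2
        _ = _ := by ring
    omega
  have a3 : 2 ^ (k' + 1) * a ≤ n := by
    rw [ha]; exact Nat.mul_div_le n _
  have a4 : n < 2 ^ (k' + 1) * (a + 1) := by
    rw [ha, mul_comm]
    exact Nat.lt_mul_of_div_lt (Nat.lt_succ_self _) hpw
  have hcr := hcr0 a a1 a2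
  have ha' : (A : ℝ) ≤ a := by exact_mod_cast a1
  have hs : Real.exp (-(m1 * (2 * a))) ≤ 1 / 2 := by
    refine le_trans (Real.exp_le_exp.2 ?_) hA2
    have : 0 < m1 := hm.trans hm1
    nlinarith
  have h1p : 2 ^ (k' + 1) * a ≤ p := a3.trans (hn ▸ min_le_left _ _)
  have h1q : 2 ^ (k' + 1) * a ≤ q := a3.trans (hn ▸ min_le_right _ _)
  obtain ⟨c1, c2, c3⟩ := sector hb hsy hcn χ (by omega) (hcr χ).2 (Real.exp_pos _) hs (hcr χ).1
    h1p h1q
  refine ⟨by linarith, ?_⟩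
  set E := xS (Real.exp (-(m1 * (2 * a)))) k' * (1 + (p + q) / (2 ^ (k' + 1) * a : ℕ)) with hE
  suffices h4 : E ≤ (p + q) * Real.exp (-(2 * m * (min p q : ℕ))) by linarith
  have ht : (4 : ℝ) ≤ (2 ^ (k' + 1) * a : ℕ) := by
    have h5 : 2 ≤ 2 ^ (k' + 1) := by
      rw [pow_succ]
      have := Nat.one_le_two_pow (n := k')
      omega
    have : 4 ≤ 2 ^ (k' + 1) * a := by
      calc 4 = 2 * 2 := by norm_num
        _ ≤ _ := Nat.mul_le_mul h5 (by omega)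
    exact_mod_cast this
  have hp1 : (1 : ℝ) ≤ p := by
    have : 1 ≤ p := by omega
    exact_mod_cast this
  have hq1 : (0 : ℝ) ≤ q := by positivity
  have h6 : 1 + ((p : ℝ) + q) / (2 ^ (k' + 1) * a : ℕ) ≤ 15 * (p + q) := by
    have h7 : ((p : ℝ) + q) / (2 ^ (k' + 1) * a : ℕ) ≤ p + q :=
      div_le_self (by positivity) (by linarith)
    linarith
  have hx : xS (Real.exp (-(m1 * (2 * a)))) k' ≤ 1 / 15 * Real.exp (-(2 * m * n)) := by
    unfold xS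
    refine mul_le_mul_of_nonneg_left ?_ (by norm_num)
    rw [← Real.exp_nat_mul, Real.exp_le_exp]
    push_cast
    have g1 : (n : ℝ) ≤ 2 ^ (k' + 1) * (a + 1) := by exact_mod_cast a4.le
    have g2 : m * (a + 1) ≤ m1 * a := by
      have g3 : m / (m1 - m) ≤ a := hA3.trans ha'
      rw [div_le_iff₀ (by linarith)] at g3
      linarith
    have g4 : m * n ≤ 2 ^ (k' + 1) * (m1 * a) := by
      calc m * n ≤ m * (2 ^ (k' + 1) * (a + 1)) := by gcongr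
        _ = 2 ^ (k' + 1) * (m * (a + 1)) := by ring
        _ ≤ _ := by gcongr
    nlinarith
  calc E ≤ (1 / 15 * Real.exp (-(2 * m * n))) * (15 * (p + q)) := by
        rw [hE]
        exact mul_le_mul hx h6 (by positivity) (by positivity)
    _ = _ := by rw [hn]; ring

end one

section two

variable {N : ℕ} [NeZero N] [MeasurableSpace (S4 N)] [BorelSpace (S4 N)] [MeasurableSpace (S6 N)]
  [BorelSpace (S6 N)]

/-- **The free energies of the electric sectors.** -/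
theorem full (l k : ℕ) [NeZero l] (hN : 2 ≤ N) (hk : Nat.Coprime k N) (μ : Measure (S4 N))
    [IsProbabilityMeasure μ] [μ.IsHaarMeasure] {S1 : ℝ} (hS1 : 0 < S1) (hU1 : UpZ μ l k 1 S1)
    {m : ℝ} (hm : 0 < m) (hmr : m < 2 * Real.arsinh (Real.sin (Real.pi / (l * N)))) :
    ∃ (A : ℕ) (β0 : ℝ), 1 ≤ A ∧ ∀ β, β0 ≤ β →
      Fe (mu6 μ) (Pool.Agent.Run7.h871.TC.wE N l k β) m A := by
  haveI := mu6_prob μ
  haveI := mu6_haar μ
  haveI := right_inv'' (mu6 μ)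
  haveI := inv_inv'' (mu6 μ)
  have hZf : ∀ (a b j : ℕ) [NeZero a] [NeZero b] (β : ℝ), Zf a b l μ k j β =
      ZT (mu6 μ) (Pool.Agent.Run7.h871.TC.wE N l k β) (j : ZMod N) a b := fun a b j _ _ β =>
    Zf_eq μ k j β
  have hZf0 : ∀ (a b : ℕ) [NeZero a] [NeZero b] (β : ℝ), Zf a b l μ k 0 β =
      ZT (mu6 μ) (Pool.Agent.Run7.h871.TC.wE N l k β) 0 a b := fun a b _ _ β => by
    rw [hZf, Nat.cast_zero]
  have hUR : UpR (mu6 μ) (fun β => Pool.Agent.Run7.h871.TC.wE N l k β) (ch N 1) S1 := by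
    intro C0 hC0
    obtain ⟨M, β0, h0⟩ := hU1 C0 hC0
    refine ⟨M, β0, fun β hβ p q _ _ h1 h2 h3 h4 j hj => ?_⟩
    have h5 := h0 β hβ p q h1 h2 h3 h4 j.val (fun h6 => hj (by
      have := (ch_one_iff (N := N) 1 j.val).2 h6
      rwa [ZMod.natCast_zmod_val] at this))
    rw [hZf0, hZf, ZMod.natCast_zmod_val] at h5
    exact h5
  have hχ1 : ∀ j : ZMod N, j ≠ 0 → ch N 1 j ≠ 1 := by
    intro j hj h
    apply hj
    have h1 : ch N 1 ((j.val : ℕ) : ZMod N) = 1 := by rwa [ZMod.natCast_zmod_val]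
    rw [ch_one_iff, one_mul] at h1
    have h2 := (ZMod.natCast_eq_zero_iff j.val N).2 h1
    rwa [ZMod.natCast_zmod_val] at h2
  obtain ⟨P, Q, hPQ⟩ := Pool.Agent.Run7.h871.TP.exists_twPair N hk
  have hb : ∀ β, (Pool.Agent.Run7.h871.TC.wE N l k β).Bd := fun β =>
    Pool.Agent.Run7.h871.TC.wE_bd β
  obtain ⟨M, hM⟩ := hUR.sm (mu6 μ) hb hS1 hχ1
  exact soft_full (k := k) (mu6 μ) hN l hPQ hM hm hmr

end two

end

end Pool.Agent.Run7.h897.ST
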