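import Pool.Agent.Run7.h897.FS.Cx
import Pool.Agent.Run7.h4.YM.Defs

/-!
# Project C: statements of the parts
-/

open MeasureTheory Matrix
open scoped ComplexConjugate
open Run7.h4.YM

namespace Pool.Agent.Run7.h897.PC

open Pool.Agent.Run7.h897.FS

noncomputable section

/-- the trace of `p k_{2i} p* k'_{2j}` -/
def AA {X : Type*} [MeasurableSpace X] (μ : Measure X) (k k' : ℕ → X → X → ℂ) (p : X → ℂ)
    (i j : ℕ) : ℝ :=
  (∫ x, ∫ y, p x * k (2 * i) x y * conj (p y) * k' (2 * j) y x ∂μ ∂μ).re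

/-- PC1: the trace of two semigroups and a multiplication operator of norm at most one. -/
def S_PC1 : Prop := ∀ (X : Type) [MeasurableSpace X] (μ : Measure X) [IsProbabilityMeasure μ]
  (k k' : ℕ → X → X → ℂ) (p : X → ℂ), KC μ k → KC μ k' → BC p → (∀ x, ‖p x‖ ≤ 1) →
  (∀ n, 1 ≤ n → 0 < EC μ k n) → (∀ n, 1 ≤ n → 0 < EC μ k' n) → ∀ i j : ℕ, 1 ≤ i → 1 ≤ j →
    0 ≤ AA μ k k' p i j ∧
    AA μ k k' p i j ^ 2 ≤ EC μ k (2 * i) * EC μ k' (2 * j) ∧
    (∀ t : ℕ, AA μ k k' p i j -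
        Real.exp (i * ell (EC μ k)) * (EC μ k' j - Real.exp (j * ell (EC μ k'))) ≤
      AA μ k k' p i (j + t) * Real.exp (-(t * ell (EC μ k')))) ∧
    (∀ s : ℕ, AA μ k k' p i j -
        Real.exp (j * ell (EC μ k')) * (EC μ k i - Real.exp (i * ell (EC μ k))) ≤
      AA μ k k' p (i + s) j * Real.exp (-(s * ell (EC μ k))))

/-- the correlation of two Polyakov loops, without normalisation -/
def Fp {N : ℕ} (n L l : ℕ) [NeZero n] [NeZero L] [NeZero l] [MeasurableSpace (SU N)]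
    (μ : Measure (SU N)) (k : ℕ) (β : ℝ) (R : ℕ) : ℝ :=
  ∫ U : Link n L l → SU N,
    (trace (line U 0).1 / N * star (trace (line U (R : ZMod L)).1 / N)).re *
      Real.exp (-(β * action k U)) ∂(Measure.pi fun _ => μ)

/-- PC3: log-convexity in the length of the loops. -/
def S_PC3 : Prop := ∀ (N l k L : ℕ) [NeZero N] [NeZero l] [NeZero L] [MeasurableSpace (SU N)]
  [BorelSpace (SU N)] (μ : Measure (SU N)) [IsProbabilityMeasure μ] [μ.IsHaarMeasure] (β : ℝ)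
  (R i : ℕ) [NeZero (2 * i)], 0 ≤ Fp (2 * i) L l μ k β R ∧
    Fp (2 * (i + 1)) L l μ k β R ^ 2 ≤ Fp (2 * i) L l μ k β R * Fp (2 * (i + 2)) L l μ k β R

end

end Pool.Agent.Run7.h897.PC
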