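import Pool.Agent.Run7.h897.ST.Fin2
import Pool.Agent.Run7.h630.PC.P1
import Pool.Agent.Run7.h182.PC.PC3

/-!
# Project C: the static potential, final form
-/

set_option linter.unusedSectionVars false
set_option linter.unusedVariables false
set_option linter.style.haveILetI false

open MeasureTheory Matrix Filter Topology
open scoped ComplexConjugate

namespace Pool.Agent.Run7.h897.PC

open Pool.Agent.Run7.h897.FS Pool.Agent.Run7.h897.TW Pool.Agent.Run7.h897.ST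
open Run7.h4.YM (Link Site dir plaq line action twist polyakov om om_prim)
open Run7.h4.VS (twist2 action2 Zf)

noncomputable section

variable {N : ℕ} [NeZero N] [MeasurableSpace (S4 N)] [BorelSpace (S4 N)]

/-- the bound for the fluxes -/
lemma upz1 (l k : ℕ) [NeZero l] (hN : 2 ≤ N) (hk : Nat.Coprime k N) (μ : Measure (S4 N))
    [IsProbabilityMeasure μ] [μ.IsHaarMeasure] : ∃ S1 : ℝ, 0 < S1 ∧ UpZ μ l k 1 S1 := by
  obtain ⟨S, hS⟩ := bnd l k hk μ
  obtain ⟨δ, hδ, hδS⟩ := hS.pos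
  refine ⟨δ / 2, half_pos hδ, fun C0 hC0 => ?_⟩
  obtain ⟨M, hM⟩ := hS.up 1 δ hδ (fun j hj => hδS j (by rwa [one_mul] at hj)) (δ / 2)
    (half_pos hδ)
  obtain ⟨β0, hβ0, h⟩ := hM C0 hC0
  refine ⟨max M 1, β0, fun β hβ p q _ _ hp hq hp' hq' j hj => ?_⟩
  haveI : NeZero p := ⟨by have := (le_max_right M 1).trans hp; omega⟩
  haveI : NeZero q := ⟨by have := (le_max_right M 1).trans hq; omega⟩
  have h3 := h β hβ p q ((le_max_left _ _).trans hp) ((le_max_left _ _).trans hq) hp' hq' j hj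
  rw [show β * (δ - δ / 2) = δ / 2 * β by ring] at h3
  exact h3

section six

variable [MeasurableSpace (S6 N)] [BorelSpace (S6 N)]

lemma pol_eq {n L l k : ℕ} [NeZero n] [NeZero L] [NeZero l] (μ : Measure (S4 N)) (β : ℝ) (R : ℕ) :
    polyakov n L l μ k β R = Fp n L l μ k β R / Run7.h4.VS.Zf n L l μ k 0 β := by
  unfold polyakov Run7.h4.YM.expect Fp Run7.h4.VS.Zf
  simp only [act20]

lemma Ze_eq {a b l k : ℕ} [NeZero a] [NeZero b] [NeZero l] (μ : Measure (S4 N))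
    [IsProbabilityMeasure μ] [μ.IsHaarMeasure] (c : ℕ) (β : ℝ) :
    Ze a b l μ k c β = ZS (mu6 μ) (Pool.Agent.Run7.h871.TC.wE N l k β) (ch N c) a b := by
  unfold Ze ZS
  rw [sum_zmod']
  simp only [ch_re, ST.Zf_eq]

/-- the string tension and the densities -/
lemma sig_eq {l k : ℕ} [NeZero l] (μ : Measure (S4 N)) [IsProbabilityMeasure μ]
    [μ.IsHaarMeasure] {σ : ℕ → ℝ → ℝ} {m : ℝ} (hm : 0 < m) (hσ : SoftZ μ l k σ m) {A : ℕ}
    (hA : 1 ≤ A) : ∃ β0 : ℝ, ∀ β, β0 ≤ β →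
      Fe (mu6 μ) (Pool.Agent.Run7.h871.TC.wE N l k β) m A → ∀ c : ℕ,
        4 * σ c β = fe (fun n m => ZX (mu6 μ) (Pool.Agent.Run7.h871.TC.wE N l k β) (ch N 0) ![n, m])
          - fe (fun n m => ZX (mu6 μ) (Pool.Agent.Run7.h871.TC.wE N l k β) (ch N c) ![n, m]) := by
  haveI := mu6_prob μ
  haveI := mu6_haar μ
  haveI := right_inv'' (mu6 μ)
  haveI := inv_inv'' (mu6 μ)
  obtain ⟨A', β0, hA', h0⟩ := hσ
  refine ⟨β0, fun β hβ hfe c => ?_⟩
  set x := 4 * σ c β -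
    (fe (fun n m => ZX (mu6 μ) (Pool.Agent.Run7.h871.TC.wE N l k β) (ch N 0) ![n, m])
      - fe (fun n m => ZX (mu6 μ) (Pool.Agent.Run7.h871.TC.wE N l k β) (ch N c) ![n, m])) with hx
  have key : ∀ p : ℕ, max A A' ≤ p → |x| * (p * p) ≤ 6 * p := by
    intro p hp
    have hp1 : A ≤ p := (le_max_left _ _).trans hp
    have hp2 : A' ≤ p := (le_max_right _ _).trans hp
    haveI : NeZero (2 * p) := ⟨by omega⟩
    have h1 := ((h0 β hβ p p hp2 hp2).1 c).2
    have hc0 := ((h0 β hβ p p hp2 hp2).1 c).1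
    have h00 := ((h0 β hβ p p hp2 hp2).1 0).1
    rw [Real.log_div hc0.ne' h00.ne', Ze_eq, Ze_eq] at h1
    have e : ∀ c, ZS (mu6 μ) (Pool.Agent.Run7.h871.TC.wE N l k β) (ch N c) (2 * p) (2 * p) =
        ZX (mu6 μ) (Pool.Agent.Run7.h871.TC.wE N l k β) (ch N c) ![p, p] := fun c =>
      (ZX_eq (n := ![p, p]) (p := 2 * p) (q := 2 * p) rfl rfl).symm
    rw [e, e, min_self] at h1
    obtain ⟨a1, a2⟩ := (hfe (ch N c)).2 p p hp1 hp1
    obtain ⟨b1, b2⟩ := (hfe (ch N 0)).2 p p hp1 hp1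
    rw [min_self] at a2 b2
    have hexp : Real.exp (-(2 * m * (p : ℕ))) ≤ 1 := Real.exp_le_one_iff.2 (by
      have : 0 ≤ 2 * m * p := by positivity
      linarith)
    have h3 : ((p : ℝ) + p) * Real.exp (-(2 * m * (p : ℕ))) ≤ 2 * p := by
      have : (0 : ℝ) ≤ p := by positivity
      nlinarith
    have hpp : (0 : ℝ) ≤ p * p := by positivity
    rw [abs_le] at h1
    obtain ⟨c1, c2⟩ := h1
    have : |x * (p * p)| ≤ 6 * p := by
      rw [abs_le]
      constructor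
      · rw [hx]; nlinarith
      · rw [hx]; nlinarith
    rwa [abs_mul, abs_of_nonneg hpp] at this
  have hx0 : x = 0 := by
    by_contra hne
    have hpos : 0 < |x| := abs_pos.2 hne
    obtain ⟨p, hp⟩ := exists_nat_gt (6 / |x|)
    obtain ⟨q, hq⟩ : ∃ q, q = max p (max A A') := ⟨_, rfl⟩
    have h1 := key q (hq ▸ le_max_right _ _)
    have hq1 : (1 : ℝ) ≤ q := by
      have : 1 ≤ q := by rw [hq]; exact hA.trans ((le_max_left _ _).trans (le_max_right _ _))
      exact_mod_cast this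
    have h2 : (p : ℝ) ≤ q := by
      have : p ≤ q := by rw [hq]; exact le_max_left _ _
      exact_mod_cast this
    rw [div_lt_iff₀ hpos] at hp
    have h3 : |x| * q ≤ 6 := by
      refine le_of_mul_le_mul_right ?_ (show (0 : ℝ) < q by linarith)
      linarith
    have h4 := mul_le_mul_of_nonneg_left h2 hpos.le
    linarith
  rw [hx] at hx0
  linarith

lemma ZX_conj {l : ℕ} [NeZero l] {ν : Measure (S6 N)} {w : Ens N l (S6 N)} :
    ZX ν w (ch N (sft N 0)) = ZX ν w (ch N 1) := by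
  have h1 : ∀ s : ZMod N, (ch N (sft N 0) s).re = (ch N 1 s).re := by
    intro s
    have h2 := ch_sft 0 s
    have h3 : ch N 1 s = ZMod.stdAddChar (N := N) s := by
      unfold ch
      rw [AddChar.mulShift_apply, Nat.cast_one, one_mul]
    rw [ch_zero, AddChar.one_apply] at h2
    have h4 : ch N (sft N 0) s = conj (ch N 1 s) := by
      rw [h3, ← AddChar.map_neg_eq_conj]
      have h5 : ZMod.stdAddChar (N := N) s * ZMod.stdAddChar (N := N) (-s) = 1 := by
        rw [← AddChar.map_add_eq_mul, add_neg_cancel, AddChar.map_zero_eq_one]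
      have h6 : ZMod.stdAddChar (N := N) s ≠ 0 := left_ne_zero_of_mul_eq_one h5
      apply mul_right_cancel₀ h6
      rw [h2, mul_comm, h5]
    rw [h4, Complex.conj_re]
  funext n
  unfold ZX ZS
  simp only [h1]

end six

/-- **The static potential.** -/
theorem pot (hI : S_I) (hII : S_II) (l k : ℕ) [NeZero l] (hN : 2 ≤ N) (hk : Nat.Coprime k N)
    (μ : Measure (S4 N)) [IsProbabilityMeasure μ] [μ.IsHaarMeasure] {σ : ℕ → ℝ → ℝ}
    (h2 : ∀ m : ℝ, 0 < m → m < 2 * Real.arsinh (Real.sin (Real.pi / (l * N))) → SoftZ μ l k σ m)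
    (h3 : ∀ c : ℕ, ¬ N ∣ c → ∃ T : ℝ, 0 < T ∧ (∀ᶠ β in atTop, 0 < σ c β) ∧
      Tendsto (fun β => -Real.log (σ c β) / β) atTop (𝓝 T)) :
    ∀ δ : ℝ, 0 < δ → ∃ β0 : ℝ, ∀ β, β0 ≤ β → ∀ ε : ℝ, 0 < ε → ∃ L0 : ℕ, ∀ (n R : ℕ) [NeZero n],
      1 ≤ R → L0 * R ≤ n → ∃ V : ℝ,
        Tendsto (fun q : ℕ => -Real.log (polyakov (2 * (q + 1)) (2 * n) l μ k β (2 * R)) /
          ((2 * (q + 1) : ℕ) : ℝ)) atTop (𝓝 V) ∧
        (1 - ε) * (σ 1 β * (2 * R)) ≤ V ∧ V ≤ σ 1 β * (2 * R) + δ := by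
  letI : MeasurableSpace (S6 N) := borel _
  haveI : BorelSpace (S6 N) := ⟨rfl⟩
  haveI := mu6_prob μ
  haveI := mu6_haar μ
  haveI := right_inv'' (mu6 μ)
  haveI := inv_inv'' (mu6 μ)
  intro δ hδ
  have hr0 : 0 < 2 * Real.arsinh (Real.sin (Real.pi / (l * N))) := by
    have := Real.arsinh_pos_iff.2 (sin_pos' hN l)
    linarith
  obtain ⟨m, hm⟩ : ∃ m, m = Real.arsinh (Real.sin (Real.pi / (l * N))) := ⟨_, rfl⟩
  have hm0 : 0 < m := by rw [hm]; linarith
  have hmr : m < 2 * Real.arsinh (Real.sin (Real.pi / (l * N))) := by rw [← hm]; linarith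
  obtain ⟨α, hα⟩ : ∃ α, α = min (m / 16) (δ / 3) := ⟨_, rfl⟩
  have hα0 : 0 < α := by rw [hα]; positivity
  have hαm : 16 * α ≤ m := by
    have : α ≤ m / 16 := by rw [hα]; exact min_le_left _ _
    linarith
  have hαδ : 3 * α ≤ δ := by
    have : α ≤ δ / 3 := by rw [hα]; exact min_le_right _ _
    linarith
  obtain ⟨S1, hS1, hU1⟩ := upz1 l k hN hk μ
  obtain ⟨A, β1, hA, hfe⟩ := full l k hN hk μ hS1 hU1 hm0 hmr
  obtain ⟨β2, hok⟩ := D0_ok (N := N) Run7.h630.PC.tPC1 Run7.h182.PC.tPC3 l k hk μ hm0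
  obtain ⟨β3, hsig⟩ := sig_eq μ hm0 (h2 m hm0 hmr) hA
  -- the lower bounds for the tensions
  have hT : ∃ T : ℝ, 0 < T ∧ ∀ᶠ β : ℝ in atTop, ∀ c ∈ Finset.range N, c ≠ 0 →
      Real.exp (-(T * β)) ≤ σ c β ∧ σ c β ≤ 1 / 4 := by
    have h4 : ∀ c : ℕ, ∃ T : ℝ, 0 < T ∧ (c ∈ Finset.range N → c ≠ 0 → ∀ᶠ β : ℝ in atTop,
        Real.exp (-(T * β)) ≤ σ c β ∧ σ c β ≤ 1 / 4) := by
      intro c
      by_cases hc : c ∈ Finset.range N ∧ c ≠ 0
      · have hcN : ¬ N ∣ c := fun h => by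
          have := Nat.le_of_dvd (Nat.pos_of_ne_zero hc.2) h
          have := Finset.mem_range.1 hc.1
          omega
        obtain ⟨T, hT0, e1, e2⟩ := h3 c hcN
        refine ⟨T + 1, by linarith, fun _ _ => ?_⟩
        have e3 := e2.eventually (eventually_le_nhds (show T < T + 1 by linarith))
        have e4 := e2.eventually (eventually_ge_nhds (show T / 2 < T by linarith))
        have e5 : ∀ᶠ β : ℝ in atTop, Real.log 4 ≤ T / 2 * β :=
          (tendsto_id.const_mul_atTop (by positivity)).eventually_ge_atTop _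
        filter_upwards [e1, e3, e4, e5, eventually_gt_atTop 0] with β g1 g3 g4 g5 g6
        rw [div_le_iff₀ g6] at g3
        rw [le_div_iff₀ g6] at g4
        constructor
        · rw [← Real.exp_log g1, Real.exp_le_exp]
          linarith
        · rw [← Real.exp_log g1, show (1 / 4 : ℝ) = Real.exp (-Real.log 4) by
            rw [Real.exp_neg, Real.exp_log (by norm_num)]; norm_num, Real.exp_le_exp]
          linarith
      · refine ⟨1, one_pos, fun a b => absurd ⟨a, b⟩ hc⟩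
    choose T hT0 hT using h4
    refine ⟨∑ c ∈ Finset.range N, T c, ?_, ?_⟩
    · exact Finset.sum_pos (fun c _ => hT0 c) ⟨0, Finset.mem_range.2 (NeZero.pos N)⟩
    · rw [Filter.eventually_all_finset]
      intro c hc
      by_cases hc0 : c = 0
      · exact Eventually.of_forall fun β h => absurd hc0 h
      filter_upwards [hT c hc hc0, eventually_ge_atTop 0] with β hβ hβ0 _
      refine ⟨le_trans ?_ hβ.1, hβ.2⟩
      rw [Real.exp_le_exp]
      have h5 : T c ≤ ∑ c ∈ Finset.range N, T c :=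
        Finset.single_le_sum (fun c _ => (hT0 c).le) hc
      nlinarith
  obtain ⟨T, hT0, hT⟩ := hT
  obtain ⟨β4, hT⟩ := eventually_atTop.1 hT
  obtain ⟨C1, hC1⟩ : ∃ C1, C1 = 4 * (T + 1) / m := ⟨_, rfl⟩
  have hC10 : 0 < C1 := by rw [hC1]; positivity
  obtain ⟨β5, hbase⟩ := base l k hN hk μ hS1 hU1 hα0 hC10 m
  obtain ⟨Q, hQ⟩ := hI m α N hm0 hα0 hαm (by omega)
  have hlarge : ∀ᶠ β : ℝ in atTop, ((max Q (4 * A) : ℕ) : ℝ) ≤ C1 * β :=
    (tendsto_id.const_mul_atTop hC10).eventually_ge_atTop _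
  obtain ⟨β6, hlarge⟩ := eventually_atTop.1 hlarge
  refine ⟨max (max (max β1 β2) (max β3 β4)) (max (max β5 β6) 1), fun β hβ ε hε => ?_⟩
  have b1 : β1 ≤ β := (le_max_left _ _).trans ((le_max_left _ _).trans ((le_max_left _ _).trans hβ))
  have b2 : β2 ≤ β := (le_max_right _ _).trans ((le_max_left _ _).trans ((le_max_left _ _).trans hβ))
  have b3 : β3 ≤ β := (le_max_left _ _).trans ((le_max_right _ _).trans ((le_max_left _ _).trans hβ))
  have b4 : β4 ≤ β := (le_max_right _ _).trans ((le_max_right _ _).trans ((le_max_left _ _).trans hβ))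
  have b5 : β5 ≤ β := (le_max_left _ _).trans ((le_max_left _ _).trans ((le_max_right _ _).trans hβ))
  have b6 : β6 ≤ β := (le_max_right _ _).trans ((le_max_left _ _).trans ((le_max_right _ _).trans hβ))
  have b7 : 1 ≤ β := (le_max_right _ _).trans ((le_max_right _ _).trans hβ)
  have hok' := hok β b2 A hA (hfe β b1)
  have hs4 := hsig β b3 (hfe β b1)
  have hT' := hT β b4
  have hb' := hbase β b5 A hA hok'
  have hl' := hlarge β b6
  -- `q0` and `K`
  obtain ⟨q0, hq0⟩ : ∃ q0, q0 = ⌈C1 * β⌉₊ := ⟨_, rfl⟩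
  have hq01 : C1 * β ≤ q0 := by rw [hq0]; exact Nat.le_ceil _
  have hq02 : (q0 : ℝ) ≤ C1 * β + 1 := by
    rw [hq0]; exact (Nat.ceil_lt_add_one (by positivity)).le
  obtain ⟨K, hK⟩ : ∃ K, K = ⌈Real.exp (T * β)⌉₊ := ⟨_, rfl⟩
  have hK1 : Real.exp (T * β) ≤ K := by rw [hK]; exact Nat.le_ceil _
  have hK2 : (K : ℝ) ≤ Real.exp (m * q0 / 4) := by
    have e1 : (K : ℝ) ≤ Real.exp (T * β) + 1 := by
      rw [hK]; exact (Nat.ceil_lt_add_one (Real.exp_pos _).le).le
    have e2 : 1 ≤ Real.exp (T * β) := Real.one_le_exp (by positivity)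
    have e3 : (2 : ℝ) ≤ Real.exp 1 := by
      have := Real.add_one_le_exp (1 : ℝ)
      linarith
    calc (K : ℝ) ≤ 2 * Real.exp (T * β) := by linarith
      _ ≤ Real.exp 1 * Real.exp (T * β) := by gcongr
      _ = Real.exp (1 + T * β) := (Real.exp_add _ _).symm
      _ ≤ Real.exp (m * q0 / 4) := by
          rw [Real.exp_le_exp]
          have e4 : m * (C1 * β) ≤ m * q0 := mul_le_mul_of_nonneg_left hq01 hm0.le
          have e5 : m * (C1 * β) = 4 * (T + 1) * β := by rw [hC1]; field_simp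
          nlinarith
  have hK0 : 1 ≤ K := by
    rw [hK]; exact Nat.one_le_ceil_iff.2 (Real.exp_pos _)
  have hqQ : Q ≤ q0 ∧ 4 * A ≤ q0 := by
    have h4 : ((max Q (4 * A) : ℕ) : ℝ) ≤ q0 := hl'.trans hq01
    have h5 : max Q (4 * A) ≤ q0 := by exact_mod_cast h4
    exact ⟨(le_max_left _ _).trans h5, (le_max_right _ _).trans h5⟩
  have hsN : sft N 0 = N - 1 := by
    unfold sft
    rw [zero_add, Nat.mod_eq_of_lt (by omega)]
  have hs1 : 4 * σ 1 β = (D0 l μ k β).φ 0 - (D0 l μ k β).φ ((D0 l μ k β).s 0) := by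
    have h4 := hs4 1
    rw [← ZX_conj] at h4
    exact h4
  have h1N : (1 : ℕ) ∈ Finset.range N := Finset.mem_range.2 (by omega)
  have hgap : ∀ c, c < N → c ≠ 0 → (D0 l μ k β).φ 0 - (D0 l μ k β).φ ((D0 l μ k β).s 0) + 1 ≤
      K * ((D0 l μ k β).φ 0 - (D0 l μ k β).φ c) := by
    intro c hc hc0
    have h4 : 4 * σ c β = (D0 l μ k β).φ 0 - (D0 l μ k β).φ c := hs4 c
    have h5 := (hT' c (Finset.mem_range.2 hc) hc0).1
    have h6 := (hT' 1 h1N one_ne_zero).2
    rw [← hs1, ← h4]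
    have h7 : 1 ≤ K * σ c β := by
      calc (1 : ℝ) = Real.exp (T * β) * Real.exp (-(T * β)) := by
            rw [← Real.exp_add]; simp
        _ ≤ K * σ c β := mul_le_mul hK1 h5 (Real.exp_pos _).le (by positivity)
    linarith
  have hA0 := hQ (D0 l μ k β) A K q0 hok' hA hqQ.1 hqQ.2 hK0 hK2 hgap (fun q h4 h5 => by
    refine hb' q (by omega) (hq01.trans (by exact_mod_cast h4)) ?_
    have h6 : (q : ℝ) ≤ 64 * q0 := by exact_mod_cast h5
    linarith)
  have hφ : (D0 l μ k β).φ ((D0 l μ k β).s 0) < (D0 l μ k β).φ 0 := by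
    have h6 := (hT' 1 h1N one_ne_zero).1
    have := Real.exp_pos (-(T * β))
    linarith
  obtain ⟨L0, hL0⟩ := hII m α N hm0 hα0 hαm (by omega) (D0 l μ k β) A K q0 hok' hA (by omega)
    hK0 hφ hgap hA0 ε hε
  refine ⟨L0 + 1, fun n R _ hR hn => ?_⟩
  have hRn : R ≤ n := le_trans (by nlinarith) hn
  have hi : L0 * R ≤ n - R := by
    have : L0 * R + R ≤ n := by rw [← Nat.succ_mul]; exact hn
    omega
  obtain ⟨V, hV, hV1, hV2⟩ := hL0 (n - R) R hR hi
  refine ⟨V / 2, ?_, ?_, ?_⟩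
  · have h4 := (hV.comp (tendsto_add_atTop_nat 1)).div_const 2
    refine h4.congr fun q => ?_
    simp only [Function.comp]
    have hn' : n - R + R = n := by omega
    rw [hn']
    have h5 : (D0 l μ k β).F (q + 1) (n - R) R = Fp (2 * (q + 1)) (2 * n) l μ k β (2 * R) := by
      show Fn l μ k β (q + 1) (n - R + R) R = _
      rw [hn', Fn_eq]
    have h6 : (D0 l μ k β).T n (q + 1) = Run7.h4.VS.Zf (2 * (q + 1)) (2 * n) l μ k 0 β := by
      have hb : (Pool.Agent.Run7.h871.TC.wE N l k β).Bd := Pool.Agent.Run7.h871.TC.wE_bd β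
      have hsy : (Pool.Agent.Run7.h871.TC.wE N l k β).Sy := Pool.Agent.Run7.h871.TC.wE_sy β
      have hcn : Cn (Pool.Agent.Run7.h871.TC.wE N l k β) (Pool.Agent.Run7.h871.UP.zc N) :=
        Pool.Agent.Run7.h871.UP.zc_cn β
      have e0 := ZT_inv (μ := mu6 μ) (a := 2 * n) (b := 2 * (q + 1)) hb hsy hcn 0
      simp only [Nat.cast_zero, mul_zero, zero_div, Real.cos_zero, one_mul] at e0
      rw [ST.Zf_eq μ k 0 β, Nat.cast_zero, ZT_ex hb hsy, neg_zero, e0]
      show ∑ c ∈ Finset.range N, ZX (mu6 μ) (Pool.Agent.Run7.h871.TC.wE N l k β) (ch N c)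
        ![n, q + 1] = _
      exact Finset.sum_congr rfl fun c _ =>
        (ZX_eq (n := ![n, q + 1]) (p := 2 * n) (q := 2 * (q + 1)) rfl rfl)
    rw [h5, h6, pol_eq]
    push_cast
    rw [div_div]
    congr 1
    ring
  · rw [← hs1] at hV1
    linarith
  · rw [← hs1] at hV2
    linarith

end

end Pool.Agent.Run7.h897.PC
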