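import Pool.Agent.Run7.h897.ST.Pol2
import Pool.Agent.Run7.h897.ST.Ful
import Pool.Agent.Run7.h897.ST.PD

/-!
# Project C: the data at one coupling
-/

set_option linter.unusedSectionVars false
set_option linter.unusedVariables false
set_option linter.style.haveILetI false

open MeasureTheory Matrix Filter Topology
open scoped ComplexConjugate

namespace Pool.Agent.Run7.h897.PC

open Pool.Agent.Run7.h897.FS Pool.Agent.Run7.h897.TW Pool.Agent.Run7.h897.ST

noncomputable section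

variable {N : ℕ} [NeZero N]

/-- the shift of the sectors -/
def sft (N c : ℕ) : ℕ := (c + (N - 1)) % N

lemma sft_lt (c : ℕ) : sft N c < N := Nat.mod_lt _ (NeZero.pos N)

lemma ch_mod (c : ℕ) : ch N (c % N) = ch N c := by
  unfold ch
  rw [ZMod.natCast_mod]

lemma ch_sft (c : ℕ) (s : ZMod N) :
    ch N (sft N c) s * ZMod.stdAddChar (N := N) s = ch N c s := by
  have hN : (N - 1) + 1 = N := Nat.sub_add_cancel (NeZero.pos N)
  unfold sft
  rw [ch_mod]
  unfold ch
  rw [AddChar.mulShift_apply, AddChar.mulShift_apply, ← AddChar.map_add_eq_mul]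
  congr 1
  have h1 : ((c + (N - 1) : ℕ) : ZMod N) + 1 = c := by
    have : ((c + (N - 1) + 1 : ℕ) : ZMod N) = ((c + N : ℕ) : ZMod N) := by
      congr 1
      omega
    push_cast at this ⊢
    rw [this]
    simp
  calc ((c + (N - 1) : ℕ) : ZMod N) * s + s = (((c + (N - 1) : ℕ) : ZMod N) + 1) * s := by ring
    _ = c * s := by rw [h1]

/-- orthogonality of the characters -/
lemma ch_orth (s : ZMod N) : ∑ c ∈ Finset.range N, ch N c s = if s = 0 then (N : ℂ) else 0 := by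
  have h1 := AddChar.sum_mulShift (R := ZMod N) (ψ := ZMod.stdAddChar (N := N)) s
    (ZMod.isPrimitive_stdAddChar N)
  rw [sum_zmod', ZMod.card] at h1
  unfold ch
  simp only [AddChar.mulShift_apply]
  rw [h1]
  split_ifs <;> simp

/-- the data -/
def dat {l : ℕ} [NeZero l] [MeasurableSpace (S6 N)] (ν : Measure (S6 N)) (w : Ens N l (S6 N))
    (F : ℕ → ℕ → ℕ → ℝ) : PD where
  F := F
  A c q i j := if h : q ≠ 0 then
      haveI : NeZero (2 * q) := ⟨by omega⟩
      AA (PM ν (Ls (2 * q) l))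
        (kx (Cs (Pool.Agent.Run7.h871.UP.zc N)) (ch N c)
          (kp (PM ν (Ls (2 * q) l)) (tk0 ν (2 * q) w)))
        (kx (Cs (Pool.Agent.Run7.h871.UP.zc N)) (ch N (sft N c))
          (kp (PM ν (Ls (2 * q) l)) (tk0 ν (2 * q) w))) lp i j
    else 0
  Z c p q := ZX ν w (ch N c) ![p, q]
  T p q := ∑ c ∈ Finset.range N, ZX ν w (ch N c) ![p, q]
  e c q := ell fun n => ZX ν w (ch N c) ![n, q]
  φ c := fe fun n m => ZX ν w (ch N c) ![n, m]
  s := sft N

lemma ell_congr {E E' : ℕ → ℝ} (h : ∀ n, 1 ≤ n → E n = E' n) : ell E = ell E' := by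
  unfold ell
  congr 1
  refine Set.image_congr fun n hn => ?_
  have hn1 : 1 ≤ n := hn
  unfold zz
  rw [if_neg (by omega), if_neg (by omega), h n hn1]

/-- log-convexity of sums -/
lemma lc_sum {ι : Type*} (s : Finset ι) {a b c : ι → ℝ} (ha : ∀ i ∈ s, 0 ≤ a i)
    (hc : ∀ i ∈ s, 0 ≤ c i) (h : ∀ i ∈ s, b i ^ 2 ≤ a i * c i) :
    (∑ i ∈ s, b i) ^ 2 ≤ (∑ i ∈ s, a i) * ∑ i ∈ s, c i := by
  exact Finset.sum_sq_le_sum_mul_sum_of_sq_le_mul s ha hc h

section fam

variable {Z : (Fin 2 → ℕ) → ℝ}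

lemma up0 (n m n' : ℕ) : Function.update (![n, m] : Fin 2 → ℕ) 0 n' = ![n', m] := by
  funext i
  fin_cases i <;> simp

lemma up1' (n m n' : ℕ) : Function.update (![n, m] : Fin 2 → ℕ) 1 n' = ![n, n'] := by
  funext i
  fin_cases i <;> simp

lemma fam0 (h : Fam Z) {q : ℕ} (hq : 1 ≤ q) : TS fun n => Z ![n, q] := by
  have := h ![1, q] (by intro i; fin_cases i <;> simp [hq]) 0
  simpa only [up0] using this

lemma fam1 (h : Fam Z) {p : ℕ} (hp : 1 ≤ p) : TS fun n => Z ![p, n] := by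
  have := h ![p, 1] (by intro i; fin_cases i <;> simp [hp]) 1
  simpa only [up1'] using this

end fam

/-- bounds for the norms from the bounds for the traces -/
lemma ell_bds {E : ℕ → ℝ} (h : TS0 E) {A : ℕ} {q : ℕ} {φ m : ℝ} (hA : A ≤ q)
    (hlo : ∀ p : ℕ, A ≤ p → (p : ℝ) * q * φ ≤ Real.log (E p))
    (hup : ∀ p : ℕ, A ≤ p → Real.log (E p) ≤ p * q * φ + (p + q) *
      Real.exp (-(2 * m * (min p q : ℕ)))) :
    q * φ ≤ ell E ∧ ell E ≤ q * φ + Real.exp (-(2 * m * q)) := by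
  have ht := h.tend'
  constructor
  · refine ge_of_tendsto ht ?_
    filter_upwards [eventually_ge_atTop (max A 1)] with p hp
    have hp1 : (0 : ℝ) < p := by
      have : 1 ≤ p := (le_max_right _ _).trans hp
      exact_mod_cast this
    rw [le_div_iff₀ hp1]
    have := hlo p ((le_max_left _ _).trans hp)
    linarith
  · have h1 : Tendsto (fun p : ℕ => q * φ + (1 + (q : ℝ) / p) * Real.exp (-(2 * m * q))) atTop
        (𝓝 (q * φ + (1 + 0) * Real.exp (-(2 * m * q)))) := by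
      refine Tendsto.const_add _ (Tendsto.mul_const _ (Tendsto.const_add _ ?_))
      exact tendsto_const_nhds.div_atTop tendsto_natCast_atTop_atTop
    rw [add_zero, one_mul] at h1
    refine le_of_tendsto_of_tendsto ht h1 ?_
    filter_upwards [eventually_ge_atTop (max (max A 1) q)] with p hp
    have hp0 : max A 1 ≤ p := (le_max_left _ _).trans hp
    have hp1 : (0 : ℝ) < p := by
      have : 1 ≤ p := (le_max_right _ _).trans hp0
      exact_mod_cast this
    have hpq : q ≤ p := (le_max_right _ _).trans hp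
    rw [div_le_iff₀ hp1]
    have h2 := hup p ((le_max_left _ _).trans hp0)
    rw [min_eq_right hpq] at h2
    refine h2.trans (le_of_eq ?_)
    field_simp

/-- comparison of the densities -/
lemma dens_le {a b : ℕ → ℝ} {x y m : ℝ} (hm : 0 < m) {A : ℕ}
    (h : ∀ p : ℕ, A ≤ p → (p : ℝ) * p * x ≤ a p) (hab : ∀ p : ℕ, A ≤ p → a p ≤ b p)
    (h' : ∀ p : ℕ, A ≤ p → b p ≤ p * p * y + (p + p) * Real.exp (-(2 * m * (p : ℕ)))) :
    x ≤ y := by
  have h1 : Tendsto (fun p : ℕ => y + 2 / (p : ℝ)) atTop (𝓝 (y + 0)) :=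
    Tendsto.const_add _ (tendsto_const_nhds.div_atTop tendsto_natCast_atTop_atTop)
  rw [add_zero] at h1
  refine ge_of_tendsto h1 ?_
  filter_upwards [eventually_ge_atTop (max A 1)] with p hp
  have hp1 : (0 : ℝ) < p := by
    have : 1 ≤ p := (le_max_right _ _).trans hp
    exact_mod_cast this
  have hA := (le_max_left _ _).trans hp
  have h2 := (h p hA).trans ((hab p hA).trans (h' p hA))
  have h3 : Real.exp (-(2 * m * (p : ℕ))) ≤ 1 := Real.exp_le_one_iff.2 (by
    have : 0 < 2 * m * p := by positivity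
    linarith)
  have h4 : ((p : ℝ) + p) * Real.exp (-(2 * m * (p : ℕ))) ≤ p + p :=
    mul_le_of_le_one_right (by positivity) h3
  have h5 : (p : ℝ) * p * x ≤ p * p * (y + 2 / p) := by
    have : (p : ℝ) * p * (y + 2 / p) = p * p * y + (p + p) := by
      field_simp
      ring
    linarith
  exact le_of_mul_le_mul_left h5 (by positivity)

variable [MeasurableSpace (S6 N)] [BorelSpace (S6 N)] {l : ℕ} [NeZero l] {ν : Measure (S6 N)}
  [IsProbabilityMeasure ν] [ν.IsMulLeftInvariant] [ν.IsInvInvariant] {w : Ens N l (S6 N)}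
  {F : ℕ → ℕ → ℕ → ℝ}

/-- **The properties of the data.** -/
theorem dat_ok (hPC1 : S_PC1) (hb : w.Bd) (hsy : w.Sy) (hcn : Cn w (Pool.Agent.Run7.h871.UP.zc N))
    {m : ℝ} (hm : 0 < m) {A0 : ℕ} (hA0 : 1 ≤ A0) (hfe : Fe ν w m A0)
    (hF : ∀ q i j : ℕ, ∀ [NeZero (2 * q)], 1 ≤ i → 1 ≤ j →
      F q i j = (FF (PM ν (Ls (2 * q) l)) (kp (PM ν (Ls (2 * q) l)) (tk0 ν (2 * q) w))
        (Cs (Pool.Agent.Run7.h871.UP.zc N)) lp 0 (2 * i) (2 * j)).re)
    (lcq : ∀ q i j, 1 ≤ q → 1 ≤ i → 1 ≤ j → F (q + 1) i j ^ 2 ≤ F q i j * F (q + 2) i j)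
    (lcj : ∀ q i j, 1 ≤ q → F q (i + 1) (j + 1) ^ 2 ≤ F q (i + 2) j * F q i (j + 2))
    (Fpos : ∀ q i j, 1 ≤ q → 1 ≤ i → 1 ≤ j → 0 < F q i j)
    (F0 : ∀ q i, ∀ [NeZero (2 * i)] [NeZero (2 * q)], F q i 0 ≤ ZT ν w 0 (2 * i) (2 * q)) :
    (dat ν w F).Ok N A0 m := by
  -- the kernels
  have hKx : ∀ (c q : ℕ) [NeZero (2 * q)], KC (PM ν (Ls (2 * q) l))
      (kx (Cs (Pool.Agent.Run7.h871.UP.zc N)) (ch N c)
        (kp (PM ν (Ls (2 * q) l)) (tk0 ν (2 * q) w))) := fun c q _ =>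
    kx_KC (tk0_KS hb hsy) (Cs_act hb hcn) _
  have hEC : ∀ (c q : ℕ) [NeZero (2 * q)] (n : ℕ), 1 ≤ n →
      EC (PM ν (Ls (2 * q) l)) (kx (Cs (Pool.Agent.Run7.h871.UP.zc N)) (ch N c)
        (kp (PM ν (Ls (2 * q) l)) (tk0 ν (2 * q) w))) n = ZX ν w (ch N c) ![n, q] := by
    intro c q _ n hn
    haveI : NeZero (2 * n) := ⟨by omega⟩
    rw [← ZS_EC hb hsy hcn (ch N c) hn]
    exact (ZX_eq (n := ![n, q]) (p := 2 * n) (q := 2 * q) rfl rfl).symm
  have hZpos : ∀ c p q, 1 ≤ p → 1 ≤ q → 0 < ZX ν w (ch N c) ![p, q] := fun c p q hp hq =>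
    (fam0 (hfe (ch N c)).1 hq).pos p hp
  have hECp : ∀ (c q : ℕ) [NeZero (2 * q)], ∀ n, 1 ≤ n →
      0 < EC (PM ν (Ls (2 * q) l)) (kx (Cs (Pool.Agent.Run7.h871.UP.zc N)) (ch N c)
        (kp (PM ν (Ls (2 * q) l)) (tk0 ν (2 * q) w))) n := by
    intro c q hq n hn
    rw [hEC c q n hn]
    exact hZpos c n q hn (by have := hq.out; omega)
  have hell : ∀ (c q : ℕ) [NeZero (2 * q)],
      ell (EC (PM ν (Ls (2 * q) l)) (kx (Cs (Pool.Agent.Run7.h871.UP.zc N)) (ch N c)
        (kp (PM ν (Ls (2 * q) l)) (tk0 ν (2 * q) w)))) = ell fun n => ZX ν w (ch N c) ![n, q] :=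
    fun c q _ => ell_congr fun n hn => hEC c q n hn
  have hP := fun (c q : ℕ) (_ : NeZero (2 * q)) (i j : ℕ) (hi : 1 ≤ i) (hj : 1 ≤ j) =>
    hPC1 (Ls (2 * q) l → S6 N) (PM ν (Ls (2 * q) l)) _ _ lp (hKx c q) (hKx (sft N c) q)
      (lp_bc (N := N)) (fun x => lp_le x) (hECp c q) (hECp (sft N c) q) i j hi hj
  have hA : ∀ (c q i j : ℕ) [NeZero (2 * q)], (dat ν w F).A c q i j =
      AA (PM ν (Ls (2 * q) l))
        (kx (Cs (Pool.Agent.Run7.h871.UP.zc N)) (ch N c)
          (kp (PM ν (Ls (2 * q) l)) (tk0 ν (2 * q) w)))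
        (kx (Cs (Pool.Agent.Run7.h871.UP.zc N)) (ch N (sft N c))
          (kp (PM ν (Ls (2 * q) l)) (tk0 ν (2 * q) w))) lp i j := by
    intro c q i j h
    have h0 : q ≠ 0 := by
      have := h.out
      omega
    unfold dat
    simp only
    rw [dif_pos h0]
  refine { sN := fun c _ => sft_lt c, sum := ?_, An := ?_, Ale := ?_, up1 := ?_, up2 := ?_,
           Zpos := ?_, Zlo := ?_, Zup := ?_, elo := ?_, eup := ?_, lcq := lcq, lcj := lcj,
           Fpos := Fpos, F0 := ?_, Tsum := fun p q _ _ => rfl, lcT := ?_, φle := ?_ }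
  · intro q i j hq hi hj
    haveI : NeZero (2 * q) := ⟨by omega⟩
    simp only [hA]
    have h1 := fun c => AA_kx (μ := PM ν (Ls (2 * q) l)) (tk0_KS hb hsy) (Cs_act hb hcn)
      (lp_bc (N := N) (b := 2 * q) (l := l))
      (ω := ZMod.stdAddChar (N := N)) (χ := ch N c) (χ' := ch N (sft N c)) lp_Cs (ch_sft c) hi hj
    simp only [h1]
    rw [← Complex.re_sum, ← Finset.mul_sum, Finset.sum_comm]
    show F q i j = _
    rw [hF q i j hi hj]
    congr 1
    simp only [← Finset.sum_mul, ch_orth]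
    have hN : (N : ℂ) ≠ 0 := by exact_mod_cast NeZero.ne N
    rw [Finset.sum_eq_single 0]
    · rw [if_pos rfl, ← mul_assoc, one_div, inv_mul_cancel₀ hN, one_mul]
    · intro s _ hs
      rw [if_neg hs, zero_mul]
    · intro h
      exact absurd (Finset.mem_univ _) h
  · intro c q i j _ hq hi hj
    haveI : NeZero (2 * q) := ⟨by omega⟩
    rw [hA]
    exact (hP c q inferInstance i j hi hj).1
  · intro c q i j _ hq hi hj
    haveI : NeZero (2 * q) := ⟨by omega⟩
    rw [hA]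
    have h1 := (hP c q inferInstance i j hi hj).2.1
    rw [hEC c q (2 * i) (by omega), hEC (sft N c) q (2 * j) (by omega)] at h1
    exact h1
  · intro q i j t hq hi hj
    haveI : NeZero (2 * q) := ⟨by omega⟩
    rw [hA, hA]
    have h1 := (hP 0 q inferInstance i j hi hj).2.2.1 t
    rw [hell, hell, hEC (sft N 0) q j hj] at h1
    exact h1
  · intro q i j t hq hi hj
    haveI : NeZero (2 * q) := ⟨by omega⟩
    rw [hA, hA]
    have h1 := (hP 0 q inferInstance i j hi hj).2.2.2 t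
    rw [hell, hell, hEC 0 q i hi] at h1
    exact h1
  · exact fun c p q _ hp hq => hZpos c p q (hA0.trans hp) (hA0.trans hq)
  · exact fun c p q _ hp hq => ((hfe (ch N c)).2 p q hp hq).1
  · exact fun c p q _ hp hq => ((hfe (ch N c)).2 p q hp hq).2
  · intro c q _ hq
    exact (ell_bds (fam0 (hfe (ch N c)).1 (hA0.trans hq)).toTS0 hq
      (fun p hp => ((hfe (ch N c)).2 p q hp hq).1) (fun p hp => ((hfe (ch N c)).2 p q hp hq).2)).1
  · intro c q _ hq
    exact (ell_bds (fam0 (hfe (ch N c)).1 (hA0.trans hq)).toTS0 hq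
      (fun p hp => ((hfe (ch N c)).2 p q hp hq).1) (fun p hp => ((hfe (ch N c)).2 p q hp hq).2)).2
  · intro q i hq hi
    haveI : NeZero (2 * q) := ⟨by omega⟩
    haveI : NeZero (2 * i) := ⟨by omega⟩
    refine (F0 q i).trans (le_of_eq ?_)
    have e0 := ZT_inv (μ := ν) (a := 2 * i) (b := 2 * q) hb hsy hcn 0
    simp only [Nat.cast_zero, mul_zero, zero_div, Real.cos_zero, one_mul] at e0
    rw [e0]
    show _ = ∑ c ∈ Finset.range N, ZX ν w (ch N c) ![i, q]
    exact Finset.sum_congr rfl fun c _ => (ZX_eq (n := ![i, q]) (p := 2 * i) (q := 2 * q) rfl rfl).symm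
  · intro p q hp hq
    exact lc_sum (Finset.range N) (a := fun c => ZX ν w (ch N c) ![p, q])
      (b := fun c => ZX ν w (ch N c) ![p, q + 1]) (c := fun c => ZX ν w (ch N c) ![p, q + 2])
      (fun c _ => (hZpos c p q hp hq).le)
      (fun c _ => (hZpos c p (q + 2) hp (by omega)).le)
      fun c _ => (fam1 (hfe (ch N c)).1 hp).lc q hq
  · intro c _
    refine dens_le (A := A0) hm
      (a := fun p => Real.log (ZX ν w (ch N c) ![p, p]))
      (b := fun p => Real.log (ZX ν w (ch N 0) ![p, p]))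
      (fun p hp => ((hfe (ch N c)).2 p p hp hp).1) (fun p hp => ?_) (fun p hp => ?_)
    · have hp1 := hA0.trans hp
      haveI : NeZero (2 * p) := ⟨by omega⟩
      refine Real.log_le_log (hZpos c p p hp1 hp1) ?_
      have e : ∀ c, ZX ν w (ch N c) ![p, p] = ZS ν w (ch N c) (2 * p) (2 * p) := fun c =>
        ZX_eq rfl rfl
      rw [e, e, ch_zero, ZS_De (ch N c) hb]
      have h1 := De_nonneg (μ := ν) (a := 2 * p) (b := 2 * p) (ch N c) hb
      have h2 := ZS_one_pos (μ := ν) (w := w) (a := 2 * p) (b := 2 * p) hb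
      nlinarith
    · have h1 := ((hfe (ch N 0)).2 p p hp hp).2
      rw [min_self] at h1
      exact h1

end

end Pool.Agent.Run7.h897.PC
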