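import Pool.Agent.Run7.h897.TW.Str

/-!
# The rate of the string tension
-/

open MeasureTheory Filter Topology

namespace Pool.Agent.Run7.h897.ST

set_option linter.unusedSectionVars false
set_option linter.style.haveILetI false

open Pool.Agent.Run7.h897.TW

noncomputable section

/-! ### numerical part -/

lemma log_bds {D : ℝ} (h0 : 0 ≤ D) (h1 : D ≤ 1 / 2) :
    D ≤ -Real.log (1 - D) ∧ -Real.log (1 - D) ≤ 2 * D := by
  have hp : 0 < 1 - D := by linarith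
  constructor
  · have := Real.log_le_sub_one_of_pos hp
    linarith
  · have h2 := Real.one_sub_inv_le_log_of_pos hp
    have h3 : (1 - D)⁻¹ ≤ 1 + 2 * D := by
      rw [inv_le_comm₀ hp (by linarith), ← one_div, div_le_iff₀ (by linarith)]
      nlinarith
    linarith

/-- the tension from the defect at one size -/
lemma tens {D L σ E A : ℝ} (h0 : 0 ≤ D) (h1 : D ≤ 1 / 2) (hL : L = Real.log (1 - D))
    (hE : |L + σ * A| ≤ E) : D - E ≤ σ * A ∧ σ * A ≤ 2 * D + E := by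
  obtain ⟨h2, h3⟩ := log_bds h0 h1
  rw [abs_le] at hE
  constructor <;> linarith [hE.1, hE.2]

lemma ev_exp {A B x y : ℝ} (hxy : x < y) (hA : 0 < A) :
    ∀ᶠ β : ℝ in atTop, B * Real.exp (-(y * β)) ≤ A * Real.exp (-(x * β)) := by
  have h1 : Tendsto (fun β : ℝ => B * Real.exp (-((y - x) * β))) atTop (𝓝 (B * 0)) := by
    refine Tendsto.const_mul _ (Real.tendsto_exp_atBot.comp ?_)
    refine tendsto_neg_atTop_atBot.comp ?_
    exact tendsto_id.const_mul_atTop (by linarith)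
  rw [mul_zero] at h1
  filter_upwards [h1.eventually (ge_mem_nhds hA)] with β hβ
  have h2 := mul_le_mul_of_nonneg_right hβ (Real.exp_pos (-(x * β))).le
  rw [mul_assoc, ← Real.exp_add] at h2
  rw [show -((y - x) * β) + -(x * β) = -(y * β) by ring] at h2
  exact h2

lemma ev_pow {A B x y : ℝ} (hxy : x < y) (hA : 0 < A) :
    ∀ᶠ β : ℝ in atTop, B * β ^ 2 * Real.exp (-(y * β)) ≤ A * Real.exp (-(x * β)) := by
  have h1 : Tendsto (fun β : ℝ => B * (((y - x) * β) ^ 2 * Real.exp (-((y - x) * β)))) atTop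
      (𝓝 (B * 0)) := by
    refine Tendsto.const_mul _ ?_
    exact (Real.tendsto_pow_mul_exp_neg_atTop_nhds_zero 2).comp
      (tendsto_id.const_mul_atTop (by linarith))
  rw [mul_zero] at h1
  have hd : 0 < (y - x) ^ 2 := by
    have : 0 < y - x := by linarith
    positivity
  filter_upwards [h1.eventually (ge_mem_nhds (mul_pos hA hd))] with β hβ
  have h2 := mul_le_mul_of_nonneg_right hβ (Real.exp_pos (-(x * β))).le
  have h3 : B * (((y - x) * β) ^ 2 * Real.exp (-((y - x) * β))) * Real.exp (-(x * β)) =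
      (B * β ^ 2 * Real.exp (-(y * β))) * (y - x) ^ 2 := by
    rw [show -(y * β) = -((y - x) * β) + -(x * β) by ring, Real.exp_add]
    ring
  rw [h3] at h2
  have h4 : A * (y - x) ^ 2 * Real.exp (-(x * β)) = (A * Real.exp (-(x * β))) * (y - x) ^ 2 := by
    ring
  rw [h4] at h2
  exact le_of_mul_le_mul_right h2 hd

lemma ev_lin {m : ℝ} (hm : 0 < m) :
    ∀ᶠ p : ℕ in atTop, ((p : ℝ) + p) * Real.exp (-(2 * m * p)) ≤ Real.exp (-(m * p)) := by
  have h1 : Tendsto (fun p : ℕ => (m * p : ℝ) ^ 1 * Real.exp (-(m * p))) atTop (𝓝 0) :=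
    (Real.tendsto_pow_mul_exp_neg_atTop_nhds_zero 1).comp
      (tendsto_natCast_atTop_atTop.const_mul_atTop hm)
  have h2 : (0 : ℝ) < m / 2 := by linarith
  filter_upwards [h1.eventually (ge_mem_nhds h2)] with p hp
  rw [show -(2 * m * (p : ℝ)) = -(m * p) + -(m * p) by ring, Real.exp_add]
  have h3 : ((p : ℝ) + p) * Real.exp (-(m * p)) ≤ 1 := by
    rw [pow_one] at hp
    have : m * (((p : ℝ) + p) * Real.exp (-(m * p))) ≤ m * 1 := by nlinarith
    exact le_of_mul_le_mul_left this hm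
  calc ((p : ℝ) + p) * (Real.exp (-(m * p)) * Real.exp (-(m * p)))
      = (((p : ℝ) + p) * Real.exp (-(m * p))) * Real.exp (-(m * p)) := by ring
    _ ≤ 1 * Real.exp (-(m * p)) := by gcongr
    _ = _ := one_mul _

/-! ### the string tension -/

variable {N l : ℕ} {G : Type*} [Group G] [NeZero N] [NeZero l] {w : ℝ → Ens N l G}
  {z : ZMod N → G} [MeasurableSpace G] [MeasurableMul₂ G] [MeasurableInv G] {μ : Measure G}
  [IsProbabilityMeasure μ] [μ.IsMulLeftInvariant] [μ.IsInvInvariant]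

/-- the free energies of the sectors with exponentially small errors -/
def Soft (μ : Measure G) (w : ℝ → Ens N l G) (m : ℝ) : Prop :=
  ∃ (A : ℕ) (β0 : ℝ), 1 ≤ A ∧ ∀ β, β0 ≤ β → ∀ (χ : AddChar (ZMod N) ℂ) (p q : ℕ)
      [NeZero (2 * p)] [NeZero (2 * q)], A ≤ p → A ≤ q →
      0 < ZS μ (w β) χ (2 * p) (2 * q) ∧
      |Real.log (ZS μ (w β) χ (2 * p) (2 * q) / ZS μ (w β) 1 (2 * p) (2 * q)) +
        sig μ (w β) χ * (4 * (p * q))| ≤ (p + q) * Real.exp (-(2 * m * (min p q : ℕ)))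

/-- upper bounds for the fluxes at the sizes of the order `β` -/
def Up (μ : Measure G) (w : ℝ → Ens N l G) (χ : AddChar (ZMod N) ℂ) (S : ℝ) : Prop :=
  ∀ C0 : ℝ, 0 < C0 → ∃ (M : ℕ) (β0 : ℝ), ∀ β, β0 ≤ β → ∀ (p : ℕ) [NeZero (2 * p)], M ≤ p →
    (p : ℝ) ≤ C0 * β →
    ∀ j : ZMod N, χ j ≠ 1 →
      ZT μ (w β) j (2 * p) (2 * p) ≤ Real.exp (-(S * β)) * ZT μ (w β) 0 (2 * p) (2 * p)

/-- lower bounds for one flux -/
def Lo (μ : Measure G) (w : ℝ → Ens N l G) (χ : AddChar (ZMod N) ℂ) (S : ℝ) : Prop :=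
  ∃ j : ZMod N, χ j ≠ 1 ∧ ∃ (M : ℕ) (β0 : ℝ), ∀ β, β0 ≤ β → ∀ (p : ℕ) [NeZero (2 * p)], M ≤ p →
      Real.exp (-(S * β)) * ZT μ (w β) 0 (2 * p) (2 * p) ≤ ZT μ (w β) j (2 * p) (2 * p)

/-- the tension from one size of the order `β` -/
lemma one_size (hb : ∀ β, (w β).Bd) {m : ℝ} (hm : 0 < m)
    (hs : Soft μ w m) (χ : AddChar (ZMod N) ℂ) {T : ℝ} (hT : 0 < T) :
    ∃ β0 : ℝ, ∀ β, β0 ≤ β → ∃ p : ℕ, ∃ _ : NeZero (2 * p), (p : ℝ) ≤ T / m * β ∧
      T / m * β ≤ p + 1 ∧ 0 < ZS μ (w β) χ (2 * p) (2 * p) ∧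
      |Real.log (1 - De μ (w β) χ (2 * p) (2 * p)) + sig μ (w β) χ * (4 * (p * p))| ≤
        Real.exp m * Real.exp (-(T * β)) := by
  obtain ⟨A, β1, hA, hs⟩ := hs
  obtain ⟨P, hP⟩ := eventually_atTop.1 (ev_lin hm)
  have hTm : 0 < T / m := by positivity
  refine ⟨max β1 ((max A P + 1 : ℕ) / (T / m)), fun β hβ => ?_⟩
  have hb1 : β1 ≤ β := (le_max_left _ _).trans hβ
  have hb2 : ((max A P + 1 : ℕ) : ℝ) ≤ T / m * β := by
    have := (le_max_right _ _).trans hβ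
    rw [div_le_iff₀ hTm] at this
    linarith
  have hb3 : 0 ≤ T / m * β := le_trans (by positivity) hb2
  obtain ⟨p, hp⟩ : ∃ p, p = ⌊T / m * β⌋₊ := ⟨_, rfl⟩
  have p1 : (p : ℝ) ≤ T / m * β := by rw [hp]; exact Nat.floor_le hb3
  have p2 : T / m * β < p + 1 := by rw [hp]; exact Nat.lt_floor_add_one _
  have p3 : max A P ≤ p := by
    have h1 : ((max A P + 1 : ℕ) : ℝ) < ((p + 1 : ℕ) : ℝ) := by push_cast at hb2 ⊢; linarith
    have h2 : max A P + 1 < p + 1 := by exact_mod_cast h1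
    omega
  have pA : A ≤ p := (le_max_left _ _).trans p3
  have pP : P ≤ p := (le_max_right _ _).trans p3
  have i0 : NeZero (2 * p) := ⟨by omega⟩
  obtain ⟨h1, h2⟩ := hs β hb1 χ p p pA pA
  refine ⟨p, i0, p1, p2.le, h1, ?_⟩
  have h3 : ZS μ (w β) χ (2 * p) (2 * p) / ZS μ (w β) 1 (2 * p) (2 * p) =
      1 - De μ (w β) χ (2 * p) (2 * p) := by
    rw [ZS_De χ (hb β)]
    exact mul_div_cancel_left₀ _ (ZS_one_pos (hb β)).ne'
  rw [h3, min_self] at h2
  refine h2.trans ((hP p pP).trans ?_)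
  rw [← Real.exp_add, Real.exp_le_exp]
  have h4 : T * β ≤ m * (p + 1) := by
    have := mul_le_mul_of_nonneg_left p2.le hm.le
    calc T * β = m * (T / m * β) := by field_simp
      _ ≤ _ := this
  linarith

theorem sig_up (hb : ∀ β, (w β).Bd) {m : ℝ} (hm : 0 < m)
    (hs : Soft μ w m) (χ : AddChar (ZMod N) ℂ) {S : ℝ} (hS : 0 < S) (hU : Up μ w χ S) {S' : ℝ}
    (hS' : S' < S) : ∀ᶠ β in atTop, sig μ (w β) χ ≤ Real.exp (-(S' * β)) := by
  obtain ⟨β1, h1⟩ := one_size hb hm hs χ (T := S) hS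
  obtain ⟨M, β2, h2⟩ := hU (S / m) (by positivity)
  have hN : (0 : ℝ) < N := by exact_mod_cast NeZero.pos N
  have e1 := ev_exp (A := 1) (B := 2 * (2 * N) + Real.exp m) hS' one_pos
  have e2 := ev_exp (A := 1 / 2) (B := 2 * N) hS (by norm_num : (0 : ℝ) < 1 / 2)
  have e3 : ∀ᶠ β : ℝ in atTop, (M + 2 : ℝ) ≤ S / m * β :=
    (tendsto_id.const_mul_atTop (by positivity)).eventually_ge_atTop _
  filter_upwards [eventually_ge_atTop β1, eventually_ge_atTop β2, e1, e2, e3] with β b1 b2 b3 b4 b5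
  obtain ⟨p, _, p1, p2, p3, p4⟩ := h1 β b1
  have hM0 : (0 : ℝ) ≤ M := by positivity
  have hMp : M ≤ p := by
    have : (M : ℝ) ≤ p := by linarith
    exact_mod_cast this
  have d1 := De_le (μ := μ) (a := 2 * p) (b := 2 * p) χ (hb β) (Real.exp_pos (-(S * β))).le
    (h2 β b2 p hMp p1)
  have d0 := De_nonneg (μ := μ) (a := 2 * p) (b := 2 * p) χ (hb β)
  rw [zero_mul, neg_zero, Real.exp_zero, mul_one] at b4
  obtain ⟨-, t2⟩ := tens d0 (d1.trans b4) rfl p4
  have hp1 : (1 : ℝ) ≤ p := by linarith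
  have hp2 : (1 : ℝ) ≤ 4 * (p * p) := by nlinarith
  have t3 : sig μ (w β) χ * (4 * (p * p)) ≤ Real.exp (-(S' * β)) * (4 * (p * p)) := by
    calc sig μ (w β) χ * (4 * (p * p)) ≤ (2 * (2 * N) + Real.exp m) * Real.exp (-(S * β)) := by
          linarith
      _ ≤ 1 * Real.exp (-(S' * β)) := b3
      _ ≤ _ := by
        rw [mul_comm]
        exact mul_le_mul_of_nonneg_left hp2 (Real.exp_pos _).le
  exact le_of_mul_le_mul_right t3 (by linarith)

theorem sig_lo (hb : ∀ β, (w β).Bd) {m : ℝ} (hm : 0 < m)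
    (hw : ∀ β, (w β).Sy) (h : ∀ β, Cn (w β) z)
    (hs : Soft μ w m) (χ : AddChar (ZMod N) ℂ) {S : ℝ} (hS : 0 < S) (hL : Lo μ w χ S) {S' : ℝ}
    (hS' : S < S') : ∀ᶠ β in atTop, Real.exp (-(S' * β)) ≤ sig μ (w β) χ := by
  obtain ⟨j, hj, M, β2, h2⟩ := hL
  obtain ⟨T, hT⟩ : ∃ T, T = S + 1 := ⟨_, rfl⟩
  have hT0 : 0 < T := by linarith
  obtain ⟨β1, h1⟩ := one_size hb hm hs χ hT0
  have hN : (0 : ℝ) < N := by exact_mod_cast NeZero.pos N
  have hre : 0 < 1 - (χ j).re := by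
    have h3 : (χ j).re ≠ 1 := by
      intro h4
      apply hj
      have h5 : ‖χ j‖ = 1 := AddChar.norm_apply χ j
      have h6 : (χ j).re ^ 2 + (χ j).im ^ 2 = 1 := by
        have := Complex.sq_norm (χ j)
        rw [h5, Complex.normSq_apply] at this
        nlinarith
      rw [h4] at h6
      have h7 : (χ j).im = 0 := by nlinarith
      exact Complex.ext h4 h7
    have h8 := re_le_one χ j
    rcases h8.lt_or_eq with h9 | h9
    · linarith
    · exact absurd h9 h3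
  obtain ⟨c1, hc1⟩ : ∃ c1, c1 = (1 - (χ j).re) / N := ⟨_, rfl⟩
  have hc10 : 0 < c1 := by rw [hc1]; positivity
  have e1 := ev_exp (A := c1 / 2) (B := Real.exp m) (show S < T by linarith) (by positivity)
  have e2 := ev_pow (A := c1 / 2) (B := 4 * (T / m) ^ 2) hS' (by positivity)
  have e3 : ∀ᶠ β : ℝ in atTop, (M + 2 : ℝ) ≤ T / m * β :=
    (tendsto_id.const_mul_atTop (by positivity)).eventually_ge_atTop _
  have e4 : ∀ᶠ β : ℝ in atTop, (0 : ℝ) ≤ β := eventually_ge_atTop 0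
  filter_upwards [eventually_ge_atTop β1, eventually_ge_atTop β2, e1, e2, e3, e4] with
    β b1 b2 b3 b4 b5 b6
  obtain ⟨p, _, p1, p2, p3, p4⟩ := h1 β b1
  have hM0 : (0 : ℝ) ≤ M := by positivity
  have hp1 : (1 : ℝ) ≤ p := by linarith
  have hMp : M ≤ p := by
    have : (M : ℝ) ≤ p := by linarith
    exact_mod_cast this
  have hp1' : 1 ≤ p := by exact_mod_cast hp1
  have d1 := De_ge (μ := μ) (a := 2 * p) (b := 2 * p) χ (hb β) (h2 β b2 p hMp)
    (fun j => ZT_le (hb β) (hw β) (h β) j hp1')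
  have d0 : De μ (w β) χ (2 * p) (2 * p) < 1 := by
    have := p3
    rw [ZS_De χ (hb β)] at this
    have h9 := (pos_iff_pos_of_mul_pos this).1 (ZS_one_pos (hb β))
    linarith
  have d2 : De μ (w β) χ (2 * p) (2 * p) ≤ -Real.log (1 - De μ (w β) χ (2 * p) (2 * p)) := by
    have := Real.log_le_sub_one_of_pos (show 0 < 1 - De μ (w β) χ (2 * p) (2 * p) by linarith)
    linarith
  rw [abs_le] at p4
  have t1 : c1 / 2 * Real.exp (-(S * β)) ≤ sig μ (w β) χ * (4 * (p * p)) := by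
    have e5 : (1 - (χ j).re) * Real.exp (-(S * β)) / N = c1 * Real.exp (-(S * β)) := by
      rw [hc1]; ring
    rw [e5] at d1
    linarith [p4.2]
  have t2 : 4 * ((p : ℝ) * p) ≤ 4 * (T / m) ^ 2 * β ^ 2 := by
    have : (p : ℝ) * p ≤ (T / m * β) * (T / m * β) := by gcongr
    nlinarith
  have t3 : Real.exp (-(S' * β)) * (4 * (p * p)) ≤ sig μ (w β) χ * (4 * (p * p)) := by
    calc Real.exp (-(S' * β)) * (4 * (p * p)) ≤
        Real.exp (-(S' * β)) * (4 * (T / m) ^ 2 * β ^ 2) := by gcongr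
      _ = 4 * (T / m) ^ 2 * β ^ 2 * Real.exp (-(S' * β)) := by ring
      _ ≤ c1 / 2 * Real.exp (-(S * β)) := b4
      _ ≤ _ := t1
  exact le_of_mul_le_mul_right t3 (by positivity)

/-- **The rate of the string tension.** -/
theorem soft_rate (hb : ∀ β, (w β).Bd) {m : ℝ} (hm : 0 < m)
    (hw : ∀ β, (w β).Sy) (h : ∀ β, Cn (w β) z)
    (hs : Soft μ w m) (χ : AddChar (ZMod N) ℂ) {S : ℝ} (hS : 0 < S)
    (hU : ∀ S', 0 < S' → S' < S → Up μ w χ S') (hL : ∀ S', S < S' → Lo μ w χ S') :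
    (∀ᶠ β in atTop, 0 < sig μ (w β) χ) ∧
      Tendsto (fun β => -Real.log (sig μ (w β) χ) / β) atTop (𝓝 S) := by
  have lo : ∀ S', S < S' → ∀ᶠ β in atTop, Real.exp (-(S' * β)) ≤ sig μ (w β) χ := by
    intro S' hS'
    obtain ⟨S1, h1, h2⟩ := exists_between hS'
    exact sig_lo hb hm hw h hs χ (hS.trans h1) (hL S1 h1) h2
  have up : ∀ S', S' < S → ∀ᶠ β in atTop, sig μ (w β) χ ≤ Real.exp (-(S' * β)) := by
    intro S' hS'
    obtain ⟨S1, h1, h2⟩ := exists_between (max_lt hS' hS)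
    exact sig_up hb hm hs χ ((le_max_right _ _).trans_lt h1)
      (hU S1 ((le_max_right _ _).trans_lt h1) h2) ((le_max_left _ _).trans_lt h1)
  have pos : ∀ᶠ β in atTop, 0 < sig μ (w β) χ :=
    (lo (S + 1) (by linarith)).mono fun β hβ => (Real.exp_pos _).trans_le hβ
  refine ⟨pos, tendsto_order.2 ⟨fun S' hS' => ?_, fun S' hS' => ?_⟩⟩
  · obtain ⟨S1, h1, h2⟩ := exists_between hS'
    filter_upwards [up S1 h2, pos, eventually_gt_atTop 0] with β b1 b2 b3
    rw [lt_div_iff₀ b3]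
    have h3 := (Real.log_le_log b2 b1)
    rw [Real.log_exp] at h3
    nlinarith
  · obtain ⟨S1, h1, h2⟩ := exists_between hS'
    filter_upwards [lo S1 h1, pos, eventually_gt_atTop 0] with β b1 b2 b3
    rw [div_lt_iff₀ b3]
    have h3 := (Real.log_le_log (Real.exp_pos _) b1)
    rw [Real.log_exp] at h3
    nlinarith

end

end Pool.Agent.Run7.h897.ST
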