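import Pool.Agent.Run7.h897.ST.Cri
import Pool.Agent.Run7.h897.ST.Rate
import Pool.Agent.Run7.h871.YM.Pair

/-!
# The string tensions of the twisted theory, from the bounds for the fluxes
-/

open MeasureTheory Matrix Filter Topology
open Pool.Agent.Run7.h630.R2 (SU zeta TwPair)
open Pool.Agent.Run7.h897.TW

namespace Pool.Agent.Run7.h897.ST

set_option linter.unusedSectionVars false
set_option linter.style.haveILetI false

noncomputable section

/-- upper bounds for the fluxes at the sizes of the order `β`, rectangles -/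
def UpR {N l : ℕ} {G : Type*} [Group G] [NeZero N] [NeZero l] [MeasurableSpace G]
    (μ : Measure G) (w : ℝ → Ens N l G) (χ : AddChar (ZMod N) ℂ) (S : ℝ) : Prop :=
  ∀ C0 : ℝ, 0 < C0 → ∃ (M : ℕ) (β0 : ℝ), ∀ β, β0 ≤ β → ∀ (p q : ℕ) [NeZero (2 * p)]
    [NeZero (2 * q)], M ≤ p → M ≤ q → (p : ℝ) ≤ C0 * β → (q : ℝ) ≤ C0 * β →
    ∀ j : ZMod N, χ j ≠ 1 →
      ZT μ (w β) j (2 * p) (2 * q) ≤ Real.exp (-(S * β)) * ZT μ (w β) 0 (2 * p) (2 * q)

variable {N : ℕ} [NeZero N] {k : ℕ} [MeasurableSpace (SU N)] [BorelSpace (SU N)]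
  (μ : Measure (SU N)) [IsProbabilityMeasure μ] [μ.IsMulLeftInvariant] [μ.IsMulRightInvariant]
  [μ.IsInvInvariant]

lemma UpR.up {l : ℕ} [NeZero l] {w : ℝ → Ens N l (SU N)} {χ : AddChar (ZMod N) ℂ} {S : ℝ}
    (h : UpR μ w χ S) : Up μ w χ S := by
  intro C0 hC0
  obtain ⟨M, β0, hβ0⟩ := h C0 hC0
  exact ⟨M, β0, fun β hβ p _ hM hp j hj => hβ0 β hβ p p hM hM hp hp j hj⟩

lemma UpR.sm {l : ℕ} [NeZero l] {w : ℝ → Ens N l (SU N)} {χ : AddChar (ZMod N) ℂ} {S : ℝ}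
    (hb : ∀ β, (w β).Bd) (hS : 0 < S) (hχ : ∀ j, j ≠ 0 → χ j ≠ 1) (h : UpR μ w χ S) :
    ∃ M : ℕ, ∀ (A : ℕ) (η : ℝ), 0 < η → ∃ β0 : ℝ, ∀ β, β0 ≤ β → Sm μ (w β) M A η := by
  obtain ⟨M, β0, hβ0⟩ := h 1 one_pos
  refine ⟨M, fun A η hη => ?_⟩
  have e1 : ∀ᶠ β : ℝ in atTop, Real.exp (-(S * β)) ≤ η := by
    have h1 : Tendsto (fun β : ℝ => Real.exp (-(S * β))) atTop (𝓝 0) :=
      Real.tendsto_exp_atBot.comp (tendsto_neg_atTop_atBot.comp (tendsto_id.const_mul_atTop hS))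
    exact h1.eventually (ge_mem_nhds hη)
  obtain ⟨β1, hβ1⟩ := eventually_atTop.1 e1
  refine ⟨max (max β0 β1) A, fun β hβ p q _ _ hMp hMq hp hq j hj => ?_⟩
  have h0 : β0 ≤ β := (le_max_left _ _).trans ((le_max_left _ _).trans hβ)
  have h1 : β1 ≤ β := (le_max_right _ _).trans ((le_max_left _ _).trans hβ)
  have h2 : (A : ℝ) ≤ β := (le_max_right _ _).trans hβ
  have hp' : (p : ℝ) ≤ A := by exact_mod_cast hp
  have hq' : (q : ℝ) ≤ A := by exact_mod_cast hq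
  refine (hβ0 β h0 p q hMp hMq (by linarith) (by linarith) j (hχ j hj)).trans ?_
  exact mul_le_mul_of_nonneg_right (hβ1 β h1) (ZT_pos (hb β) 0).le

/-- **The string tensions.** For every `m` below the mass the free energies of the electric fluxes
are `sig * area` up to errors of the order `exp (- m L)`, uniformly in the coupling, and the
string tension `sig` has the rate `S`. -/
theorem main (hN : 2 ≤ N) (hk : Nat.Coprime k N) (l : ℕ) [NeZero l] {χ1 : AddChar (ZMod N) ℂ}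
    (hχ1 : ∀ j, j ≠ 0 → χ1 j ≠ 1) {S1 : ℝ} (hS1 : 0 < S1)
    (hU1 : UpR μ (fun β => Pool.Agent.Run7.h871.TC.wE N l k β) χ1 S1) :
    (∀ m : ℝ, 0 < m → m < rate l N → Soft μ (fun β => Pool.Agent.Run7.h871.TC.wE N l k β) m) ∧
    ∀ (χ : AddChar (ZMod N) ℂ) (S : ℝ), 0 < S →
      (∀ S', 0 < S' → S' < S → UpR μ (fun β => Pool.Agent.Run7.h871.TC.wE N l k β) χ S') →
      (∀ S', S < S' → Lo μ (fun β => Pool.Agent.Run7.h871.TC.wE N l k β) χ S') →
      (∀ᶠ β in atTop, 0 < sig μ (Pool.Agent.Run7.h871.TC.wE N l k β) χ) ∧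
      Tendsto (fun β => -Real.log (sig μ (Pool.Agent.Run7.h871.TC.wE N l k β) χ) / β) atTop
        (𝓝 S) := by
  obtain ⟨P, Q, hPQ⟩ := Pool.Agent.Run7.h871.TP.exists_twPair N hk
  have hb : ∀ β, (Pool.Agent.Run7.h871.TC.wE N l k β).Bd := fun β =>
    Pool.Agent.Run7.h871.TC.wE_bd β
  obtain ⟨M, hM⟩ := hU1.sm μ hb hS1 hχ1
  have h1 : ∀ m : ℝ, 0 < m → m < rate l N →
      Soft μ (fun β => Pool.Agent.Run7.h871.TC.wE N l k β) m := fun m hm hmr =>
    soft_main (k := k) μ hN l hPQ hM hm hmr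
  refine ⟨h1, fun χ S hS hU hL => ?_⟩
  have hr0 : 0 < rate l N := by
    unfold rate
    have := Real.arsinh_pos_iff.2 (sin_pos' hN l)
    linarith
  exact soft_rate (w := fun β => Pool.Agent.Run7.h871.TC.wE N l k β)
    (z := Pool.Agent.Run7.h871.UP.zc N) hb (m := rate l N / 2) (by linarith)
    (fun β => Pool.Agent.Run7.h871.TC.wE_sy β) (fun β => Pool.Agent.Run7.h871.UP.zc_cn β)
    (h1 _ (by linarith) (by linarith)) χ hS (fun S' h2 h3 => (hU S' h2 h3).up μ) hL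

end

end Pool.Agent.Run7.h897.ST
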