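import Pool.Agent.Run7.h897.ST.Dat
import Pool.Agent.Run7.h897.ST.Joint
import Pool.Agent.Run7.h4.VS.Pol

/-!
# Project C: the static potential
-/

set_option linter.unusedSectionVars false
set_option linter.unusedVariables false
set_option linter.style.haveILetI false

open MeasureTheory Matrix Filter Topology
open scoped ComplexConjugate

namespace Pool.Agent.Run7.h897.PC

open Pool.Agent.Run7.h897.FS Pool.Agent.Run7.h897.TW Pool.Agent.Run7.h897.ST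
open Run7.h4.YM (Link Site dir plaq line action twist polyakov om om_prim)
open Run7.h4.VS (twist2 action2 Zf Fp_lower Fp_pos Fp_cs Fp_zero_le)

noncomputable section

variable {N : ℕ} [NeZero N] [MeasurableSpace (S4 N)] [BorelSpace (S4 N)]

/-- the correlation of two loops of length `2 q` at the distance `2 j` on a circle of length
`2 n` -/
def Fn (l : ℕ) [NeZero l] (μ : Measure (S4 N)) (k : ℕ) (β : ℝ) (q n j : ℕ) : ℝ :=
  if h : q ≠ 0 ∧ n ≠ 0 then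
    haveI : NeZero (2 * q) := ⟨by have := h.1; omega⟩
    haveI : NeZero (2 * n) := ⟨by have := h.2; omega⟩
    Fp (2 * q) (2 * n) l μ k β (2 * j)
  else 0

lemma Fn_eq {l : ℕ} [NeZero l] (μ : Measure (S4 N)) (k : ℕ) (β : ℝ) (q n j : ℕ) [NeZero (2 * q)]
    [NeZero (2 * n)] : Fn l μ k β q n j = Fp (2 * q) (2 * n) l μ k β (2 * j) := by
  have h1 : q ≠ 0 := fun h => NeZero.ne (2 * q) (by rw [h, mul_zero])
  have h2 : n ≠ 0 := fun h => NeZero.ne (2 * n) (by rw [h, mul_zero])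
  unfold Fn
  rw [dif_pos ⟨h1, h2⟩]

variable [MeasurableSpace (S6 N)] [BorelSpace (S6 N)]

/-- the data -/
abbrev D0 (l : ℕ) [NeZero l] (μ : Measure (S4 N)) (k : ℕ) (β : ℝ) : PD :=
  dat (mu6 μ) (Pool.Agent.Run7.h871.TC.wE N l k β) fun q i j => Fn l μ k β q (i + j) j

/-- the properties of the data -/
theorem D0_ok (hPC1 : S_PC1) (hPC3 : S_PC3) (l k : ℕ) [NeZero l] (hk : Nat.Coprime k N)
    (μ : Measure (S4 N)) [IsProbabilityMeasure μ] [μ.IsHaarMeasure] {m : ℝ} (hm : 0 < m) :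
    ∃ β0 : ℝ, ∀ β, β0 ≤ β → ∀ A0 : ℕ, 1 ≤ A0 →
      Fe (mu6 μ) (Pool.Agent.Run7.h871.TC.wE N l k β) m A0 → (D0 l μ k β).Ok N A0 m := by
  haveI := mu6_prob μ
  haveI := mu6_haar μ
  haveI := right_inv'' (mu6 μ)
  haveI := inv_inv'' (mu6 μ)
  obtain ⟨β0, -, hpos⟩ := Fp_pos N l k hk μ
  refine ⟨β0, fun β hβ A0 hA0 hfe => ?_⟩
  have hb : (Pool.Agent.Run7.h871.TC.wE N l k β).Bd := Pool.Agent.Run7.h871.TC.wE_bd β
  have hsy : (Pool.Agent.Run7.h871.TC.wE N l k β).Sy := Pool.Agent.Run7.h871.TC.wE_sy β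
  have hcn : Cn (Pool.Agent.Run7.h871.TC.wE N l k β) (Pool.Agent.Run7.h871.UP.zc N) :=
    Pool.Agent.Run7.h871.UP.zc_cn β
  refine dat_ok hPC1 hb hsy hcn hm hA0 hfe ?_ ?_ ?_ ?_ ?_
  · intro q i j _ hi hj
    haveI : NeZero (2 * (i + j)) := ⟨by omega⟩
    rw [Fn_eq, Fp_eq μ k β (R := 2 * j) (by omega) (by omega),
      show 2 * (i + j) - 2 * j = 2 * i by omega]
  · intro q i j hq hi hj
    haveI : NeZero (2 * q) := ⟨by omega⟩
    haveI : NeZero (2 * (q + 1)) := ⟨by omega⟩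
    haveI : NeZero (2 * (q + 2)) := ⟨by omega⟩
    haveI : NeZero (2 * (i + j)) := ⟨by omega⟩
    rw [Fn_eq, Fn_eq, Fn_eq]
    exact (hPC3 N l k (2 * (i + j)) μ β (2 * j) q).2
  · intro q i j hq
    haveI : NeZero (2 * q) := ⟨by omega⟩
    haveI : NeZero q := ⟨by omega⟩
    haveI : NeZero (i + j + 2) := ⟨by omega⟩
    haveI : NeZero (2 * (i + j + 2)) := ⟨by omega⟩
    rw [show i + 1 + (j + 1) = i + j + 2 by omega, show i + 2 + j = i + j + 2 by omega,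
      show i + (j + 2) = i + j + 2 by omega, Fn_eq, Fn_eq, Fn_eq]
    have h1 := Fp_cs (m := q) (m' := i + j + 2) (l := l) (k := k) μ β (a := j) (b := j + 2)
      (by omega) (by omega)
    rw [show j + (j + 2) = 2 * (j + 1) by omega] at h1
    exact h1
  · intro q i j hq hi hj
    haveI : NeZero (2 * q) := ⟨by omega⟩
    haveI : NeZero q := ⟨by omega⟩
    haveI : NeZero (i + j) := ⟨by omega⟩
    haveI : NeZero (2 * (i + j)) := ⟨by omega⟩
    rw [Fn_eq]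
    exact hpos β hβ q (i + j) j (by omega) (by omega)
  · intro q i _ _
    have h1 : q ≠ 0 := fun h => NeZero.ne (2 * q) (by rw [h, mul_zero])
    have h2 : i ≠ 0 := fun h => NeZero.ne (2 * i) (by rw [h, mul_zero])
    haveI : NeZero q := ⟨h1⟩
    haveI : NeZero i := ⟨h2⟩
    haveI : NeZero (2 * (i + 0)) := ⟨by omega⟩
    rw [Fn_eq]
    have h3 := Fp_zero_le (m := q) (m' := i) (l := l) (k := k) μ (om_prim (N := N) hk) β
    rw [Zf_eq μ k 0 β, Nat.cast_zero, ZT_ex hb hsy, neg_zero] at h3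
    exact h3

/-- the numbers -/
lemma base_num {N q c β ε S α C1 Z0 f0 r : ℝ} (hN1 : 1 ≤ N) (hZ0 : 0 ≤ Z0) (hα : 0 < α)
    (hC1 : 0 < C1) (hε0 : 0 < ε) (hε1 : 256 * (C1 + 1) * ε ≤ S) (hε2 : 2 * ε ≤ α / 4)
    (u1 : 4 * (64 * (C1 * β + 1)) ^ 2 * Real.exp (-(c * β)) ≤ 1)
    (u2 : 2 * N ^ 3 * Real.exp 1 ≤ Real.exp (S / 2 * β))
    (u3 : 1 + Real.log (2 * N ^ 3) ≤ α / 4 * (C1 * β)) (u5 : 1 ≤ β)
    (hq1 : C1 * β ≤ q) (hq2 : q ≤ 64 * (C1 * β + 1))
    (hf0 : Real.exp (-(2 * q * (ε + Real.exp (-(c * β)) * (2 * q)))) / N ^ 2 * Z0 ≤ f0)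
    (hr : -(N * (Real.exp (-(S * β)) * Z0)) ≤ r) :
    Real.exp (-(α / 2 * q)) * Z0 ≤ 1 / N * f0 + 1 / N * r := by
  have hN0 : 0 < N := by linarith
  have hq0 : 0 ≤ q := le_trans (by positivity) hq1
  have hq3 : q * (4 * q * Real.exp (-(c * β))) ≤ 1 := by
    refine le_trans ?_ u1
    have : q ^ 2 ≤ (64 * (C1 * β + 1)) ^ 2 := pow_le_pow_left₀ hq0 hq2 2
    have h5 := Real.exp_pos (-(c * β))
    nlinarith
  have a1 : Real.exp (-(2 * q * ε) - 1) ≤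
      Real.exp (-(2 * q * (ε + Real.exp (-(c * β)) * (2 * q)))) := by
    rw [Real.exp_le_exp]
    nlinarith
  have hqε : 2 * q * ε ≤ S / 2 * β := by
    have h6 : q ≤ 64 * (C1 + 1) * β := by nlinarith
    have h7 : 2 * q * ε ≤ 2 * (64 * (C1 + 1) * β) * ε := by gcongr
    nlinarith
  have a2 : N * Real.exp (-(S * β)) ≤ 1 / 2 * (Real.exp (-(2 * q * ε) - 1) / N ^ 2) := by
    have h7 : Real.exp (-(S * β)) * (2 * N ^ 3 * Real.exp 1) ≤ Real.exp (-(2 * q * ε)) := by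
      calc _ ≤ Real.exp (-(S * β)) * Real.exp (S / 2 * β) :=
            mul_le_mul_of_nonneg_left u2 (Real.exp_pos _).le
        _ = Real.exp (-(S / 2 * β)) := by rw [← Real.exp_add]; congr 1; ring
        _ ≤ _ := by rw [Real.exp_le_exp]; linarith
    have h8 : 1 / 2 * (Real.exp (-(2 * q * ε) - 1) / N ^ 2) =
        Real.exp (-(2 * q * ε)) / (2 * N ^ 2 * Real.exp 1) := by
      rw [Real.exp_sub]
      field_simp
    rw [h8, le_div_iff₀ (by positivity)]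
    calc N * Real.exp (-(S * β)) * (2 * N ^ 2 * Real.exp 1) =
        Real.exp (-(S * β)) * (2 * N ^ 3 * Real.exp 1) := by ring
      _ ≤ _ := h7
  have a3 : Real.exp (-(α / 2 * q)) ≤
      1 / N * (1 / 2 * (Real.exp (-(2 * q * ε) - 1) / N ^ 2)) := by
    have h8 : 1 / N * (1 / 2 * (Real.exp (-(2 * q * ε) - 1) / N ^ 2)) =
        Real.exp (-(2 * q * ε) - 1 - Real.log (2 * N ^ 3)) := by
      rw [Real.exp_sub (-(2 * q * ε) - 1), Real.exp_log (by positivity)]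
      field_simp
    rw [h8, Real.exp_le_exp]
    have h9 : α / 4 * (C1 * β) ≤ α / 4 * q := mul_le_mul_of_nonneg_left hq1 (by positivity)
    have h10 : 2 * ε * q ≤ α / 4 * q := mul_le_mul_of_nonneg_right hε2 hq0
    linarith
  have a4 : Real.exp (-(2 * q * ε) - 1) / N ^ 2 * Z0 ≤ f0 := by
    refine le_trans ?_ hf0
    gcongr
  have a5 : 1 / N * (Real.exp (-(2 * q * ε) - 1) / N ^ 2 * Z0) +
      1 / N * -(N * (Real.exp (-(S * β)) * Z0)) ≤ 1 / N * f0 + 1 / N * r := by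
    gcongr
  refine le_trans ?_ a5
  have a6 : 1 / N * (N * Real.exp (-(S * β)) * Z0) ≤
      1 / N * (1 / 2 * (Real.exp (-(2 * q * ε) - 1) / N ^ 2) * Z0) := by
    gcongr
  have a7 := mul_le_mul_of_nonneg_right a3 hZ0
  have a8 : 1 / N * -(N * (Real.exp (-(S * β)) * Z0)) =
      -(1 / N * (N * Real.exp (-(S * β)) * Z0)) := by ring
  have a9 : 1 / N * (Real.exp (-(2 * q * ε) - 1) / N ^ 2 * Z0) =
      1 / N * (1 / 2 * (Real.exp (-(2 * q * ε) - 1) / N ^ 2)) * Z0 +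
      1 / N * (1 / 2 * (Real.exp (-(2 * q * ε) - 1) / N ^ 2) * Z0) := by ring
  rw [a8, a9]
  linarith

/-- large couplings -/
lemma base_large {N S α C1 c : ℝ} (M : ℕ) (hS : 0 < S) (hα : 0 < α) (hC1 : 0 < C1)
    (hc : 0 < c) : ∀ᶠ β : ℝ in atTop, 4 * (64 * (C1 * β + 1)) ^ 2 * Real.exp (-(c * β)) ≤ 1 ∧
      2 * N ^ 3 * Real.exp 1 ≤ Real.exp (S / 2 * β) ∧
      1 + Real.log (2 * N ^ 3) ≤ α / 4 * (C1 * β) ∧ (M : ℝ) ≤ C1 * β ∧ 1 ≤ β := by
  have t1 : ∀ᶠ β : ℝ in atTop, 4 * (64 * (C1 * β + 1)) ^ 2 * Real.exp (-(c * β)) ≤ 1 := by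
    have h1 : Tendsto (fun β : ℝ => β ^ 2 * Real.exp (-(c * β))) atTop (𝓝 0) := by
      have := Real.tendsto_pow_mul_exp_neg_atTop_nhds_zero 2
      have h2 := (this.comp (tendsto_id.const_mul_atTop hc)).const_mul (1 / c ^ 2)
      rw [mul_zero] at h2
      refine h2.congr fun β => ?_
      simp only [Function.comp, id]
      field_simp
    have h2 := h1.const_mul (16384 * (C1 + 1) ^ 2)
    rw [mul_zero] at h2
    filter_upwards [h2.eventually (ge_mem_nhds one_pos), eventually_ge_atTop 1] with β h3 h4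
    refine le_trans ?_ h3
    have h5 : 4 * (64 * (C1 * β + 1)) ^ 2 ≤ 16384 * (C1 + 1) ^ 2 * β ^ 2 := by
      have h6 : C1 * β + 1 ≤ (C1 + 1) * β := by nlinarith
      have h7 : (C1 * β + 1) ^ 2 ≤ ((C1 + 1) * β) ^ 2 := pow_le_pow_left₀ (by positivity) h6 2
      nlinarith
    calc _ ≤ (16384 * (C1 + 1) ^ 2 * β ^ 2) * Real.exp (-(c * β)) :=
          mul_le_mul_of_nonneg_right h5 (Real.exp_pos _).le
      _ = _ := by ring
  have t2 : ∀ᶠ β : ℝ in atTop, 2 * N ^ 3 * Real.exp 1 ≤ Real.exp (S / 2 * β) := by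
    have : Tendsto (fun β : ℝ => Real.exp (S / 2 * β)) atTop atTop :=
      Real.tendsto_exp_atTop.comp (tendsto_id.const_mul_atTop (by positivity))
    exact this.eventually_ge_atTop _
  have t3 : ∀ᶠ β : ℝ in atTop, 1 + Real.log (2 * N ^ 3) ≤ α / 4 * (C1 * β) := by
    have : Tendsto (fun β : ℝ => α / 4 * C1 * β) atTop atTop :=
      tendsto_id.const_mul_atTop (by positivity)
    filter_upwards [this.eventually_ge_atTop (1 + Real.log (2 * N ^ 3))] with β h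
    linarith
  have t4 : ∀ᶠ β : ℝ in atTop, (M : ℝ) ≤ C1 * β :=
    (tendsto_id.const_mul_atTop hC1).eventually_ge_atTop _
  exact t1.and (t2.and (t3.and (t4.and (eventually_ge_atTop 1))))

lemma PD.Ok.T_ge {D : PD} {N A0 : ℕ} {m : ℝ} (hok : D.Ok N A0 m) (hN : 0 < N) (hA0 : 1 ≤ A0)
    {q : ℕ} (hq : A0 ≤ q) :
    Real.exp (q * (q * D.φ 0 + q * D.φ (D.s 0))) ≤ D.T (q + q) q := by
  have hq0 : 1 ≤ q := hA0.trans hq
  have z2 : D.Z 0 (q + q) q ≤ D.T (q + q) q := by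
    rw [hok.Tsum (q + q) q (by omega) hq0]
    exact Finset.single_le_sum (f := fun c => D.Z c (q + q) q)
      (fun c hc => (hok.Zpos c (q + q) q (Finset.mem_range.1 hc) (by omega) hq).le)
      (Finset.mem_range.2 hN)
  have z3 := hok.Zlo 0 (q + q) q hN (by omega) hq
  have z4 := hok.Zpos 0 (q + q) q hN (by omega) hq
  have z5 := hok.φle (D.s 0) (hok.sN 0 hN)
  refine le_trans ?_ z2
  rw [← Real.exp_log z4, Real.exp_le_exp]
  refine le_trans ?_ z3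
  push_cast
  have : (0 : ℝ) ≤ q * q := by positivity
  nlinarith

/-- the loops of the length of the order `β` -/
theorem base (l k : ℕ) [NeZero l] (hN : 2 ≤ N) (hk : Nat.Coprime k N) (μ : Measure (S4 N))
    [IsProbabilityMeasure μ] [μ.IsHaarMeasure] {S α C1 : ℝ} (hS : 0 < S) (hU : UpZ μ l k 1 S)
    (hα : 0 < α) (hC1 : 0 < C1) (m : ℝ) :
    ∃ β0 : ℝ, ∀ β, β0 ≤ β → ∀ A0 : ℕ, 1 ≤ A0 → (D0 l μ k β).Ok N A0 m → ∀ q : ℕ, A0 ≤ q →
      C1 * β ≤ q → (q : ℝ) ≤ 64 * (C1 * β + 1) →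
      Real.exp (-(α / 2 * q)) * Real.exp (q * (q * (D0 l μ k β).φ 0 +
        q * (D0 l μ k β).φ ((D0 l μ k β).s 0))) ≤ (D0 l μ k β).A 0 q q q := by
  haveI := mu6_prob μ
  haveI := mu6_haar μ
  haveI := right_inv'' (mu6 μ)
  haveI := inv_inv'' (mu6 μ)
  have hN0 : (0 : ℝ) < N := by exact_mod_cast NeZero.pos N
  have hN1 : (1 : ℝ) ≤ N := by exact_mod_cast NeZero.one_le
  obtain ⟨c, hc, hlow⟩ := Fp_lower N l k hk μ
  -- the constants
  obtain ⟨ε, hε⟩ : ∃ ε, ε = min (S / (256 * (C1 + 1))) (α / 8) := ⟨_, rfl⟩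
  have hε0 : 0 < ε := by rw [hε]; positivity
  have hε1 : 256 * (C1 + 1) * ε ≤ S := by
    have : ε ≤ S / (256 * (C1 + 1)) := by rw [hε]; exact min_le_left _ _
    rw [le_div_iff₀ (by positivity)] at this
    linarith
  have hε2 : 2 * ε ≤ α / 4 := by
    have : ε ≤ α / 8 := by rw [hε]; exact min_le_right _ _
    linarith
  obtain ⟨β1, -, hlow⟩ := hlow ε hε0
  obtain ⟨M, β2, hup⟩ := hU (128 * (C1 + 1)) (by positivity)
  obtain ⟨β3, hβ3⟩ := eventually_atTop.1 (base_large (N := N) M hS hα hC1 hc)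
  refine ⟨max (max β1 β2) β3, fun β hβ A0 hA0 hok q hq hq1 hq2 => ?_⟩
  have hβ1 : β1 ≤ β := (le_max_left _ _).trans ((le_max_left _ _).trans hβ)
  have hβ2 : β2 ≤ β := (le_max_right _ _).trans ((le_max_left _ _).trans hβ)
  obtain ⟨u1, u2, u3, u4, u5⟩ := hβ3 β ((le_max_right _ _).trans hβ)
  have hb : (Pool.Agent.Run7.h871.TC.wE N l k β).Bd := Pool.Agent.Run7.h871.TC.wE_bd β
  have hsy : (Pool.Agent.Run7.h871.TC.wE N l k β).Sy := Pool.Agent.Run7.h871.TC.wE_sy β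
  have hcn : Cn (Pool.Agent.Run7.h871.TC.wE N l k β) (Pool.Agent.Run7.h871.UP.zc N) :=
    Pool.Agent.Run7.h871.UP.zc_cn β
  have hq0 : 1 ≤ q := hA0.trans hq
  haveI : NeZero q := ⟨by omega⟩
  haveI : NeZero (2 * q) := ⟨by omega⟩
  haveI : NeZero (q + q) := ⟨by omega⟩
  haveI : NeZero (2 * (q + q)) := ⟨by omega⟩
  have hqM : M ≤ q := by
    have : (M : ℝ) ≤ q := u4.trans hq1
    exact_mod_cast this
  obtain ⟨w, hw⟩ : ∃ w, w = Pool.Agent.Run7.h871.TC.wE N l k β := ⟨_, rfl⟩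
  obtain ⟨Z0, hZ0⟩ : ∃ x, x = ZT (mu6 μ) (Pool.Agent.Run7.h871.TC.wE N l k β) 0
    (2 * (q + q)) (2 * q) := ⟨_, rfl⟩
  have hZ0p : 0 < Z0 := by rw [hZ0]; exact ZT_pos hb 0
  -- the correlation without a twist
  have hF1 : Real.exp (-(2 * q * (ε + Real.exp (-(c * β)) * (2 * q)))) / (N : ℝ) ^ 2 * Z0 ≤
      Fp (2 * q) (2 * (q + q)) l μ k β (2 * q) := by
    have h1 := hlow β hβ1 q (q + q) q (by omega) (by omega)
    rw [Zf_eq μ k 0 β, Nat.cast_zero, ZT_ex hb hsy, neg_zero, ← hZ0] at h1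
    push_cast at h1
    exact h1
  rw [Fp_eq μ k β (R := 2 * q) (by omega) (by omega),
    show 2 * (q + q) - 2 * q = 2 * q by omega] at hF1
  -- the twisted ones
  have hFs : ∀ s : ZMod N, s ≠ 0 → ‖FF (PM (mu6 μ) (Ls (2 * q) l))
      (kp (PM (mu6 μ) (Ls (2 * q) l)) (tk0 (mu6 μ) (2 * q)
        (Pool.Agent.Run7.h871.TC.wE N l k β)))
      (Cs (Pool.Agent.Run7.h871.UP.zc N)) lp s (2 * q) (2 * q)‖ ≤
      Real.exp (-(S * β)) * Z0 := by
    intro s hs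
    have h1 := FF_le (μ := PM (mu6 μ) (Ls (2 * q) l)) (tk0_KS hb hsy) (Cs_act hb hcn)
      (lp_bc (N := N) (b := 2 * q) (l := l)) (fun x => lp_le x)
      (fun n hn x y => (FS.kp_pos (tk0_bm hb) (tk0_pos hb) hn x y).le) s
      (r1 := 2 * q) (r2 := 2 * q) (by omega) (by omega)
    refine h1.trans ?_
    have h2 : Tw (PM (mu6 μ) (Ls (2 * q) l)) (kp (PM (mu6 μ) (Ls (2 * q) l))
        (tk0 (mu6 μ) (2 * q) (Pool.Agent.Run7.h871.TC.wE N l k β)))
        (Cs (Pool.Agent.Run7.h871.UP.zc N)) s (2 * q + 2 * q) =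
        ZT (mu6 μ) (Pool.Agent.Run7.h871.TC.wE N l k β) s (2 * (q + q)) (2 * q) := by
      rw [ZT_eq hb hsy hcn, show 2 * (q + q) = 2 * q + 2 * q by ring]
    rw [h2, hZ0]
    have hsz : (q : ℝ) ≤ 64 * (C1 + 1) * β := by nlinarith
    have h3 := hup β hβ2 (q + q) q (by omega) hqM (by push_cast; linarith) (by nlinarith) s.val
      (fun h => hs (by
        rw [one_mul] at h
        have h4 := (ZMod.natCast_eq_zero_iff s.val N).2 h
        rwa [ZMod.natCast_zmod_val] at h4))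
    rw [Zf_eq μ k _ β, Zf_eq μ k 0 β, Nat.cast_zero, ZMod.natCast_zmod_val] at h3
    exact h3
  -- the sector
  have hA : (D0 l μ k β).A 0 q q q = ((1 / N : ℂ) * ∑ s, ch N 0 s *
      FF (PM (mu6 μ) (Ls (2 * q) l)) (kp (PM (mu6 μ) (Ls (2 * q) l)) (tk0 (mu6 μ) (2 * q)
        (Pool.Agent.Run7.h871.TC.wE N l k β)))
      (Cs (Pool.Agent.Run7.h871.UP.zc N)) lp s (2 * q) (2 * q)).re := by
    have h0 : q ≠ 0 := by omega
    unfold D0 dat
    simp only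
    rw [dif_pos h0]
    exact AA_kx (tk0_KS hb hsy) (Cs_act hb hcn) lp_bc lp_Cs (ch_sft 0) hq0 hq0
  obtain ⟨f, hf⟩ : ∃ f : ZMod N → ℂ, f = fun s => FF (PM (mu6 μ) (Ls (2 * q) l))
    (kp (PM (mu6 μ) (Ls (2 * q) l)) (tk0 (mu6 μ) (2 * q)
      (Pool.Agent.Run7.h871.TC.wE N l k β)))
    (Cs (Pool.Agent.Run7.h871.UP.zc N)) lp s (2 * q) (2 * q) := ⟨_, rfl⟩
  have e0 : (D0 l μ k β).A 0 q q q = ((1 / N : ℂ) * ∑ s, f s).re := by
    rw [hA, hf]
    simp only [ch_zero, AddChar.one_apply, one_mul]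
  have hf0 : Real.exp (-(2 * q * (ε + Real.exp (-(c * β)) * (2 * q)))) / (N : ℝ) ^ 2 * Z0 ≤
      (f 0).re := by rw [hf]; exact hF1
  have hfs : ∀ s, s ≠ 0 → ‖f s‖ ≤ Real.exp (-(S * β)) * Z0 := by
    intro s hs; rw [hf]; exact hFs s hs
  have e1 : (D0 l μ k β).A 0 q q q = 1 / N * (f 0).re +
      1 / N * ∑ s ∈ Finset.univ.erase (0 : ZMod N), (f s).re := by
    have h1 : (1 / N : ℂ) = ((1 / N : ℝ) : ℂ) := by push_cast; rfl
    rw [e0, h1, Complex.re_ofReal_mul, Complex.re_sum,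
      ← Finset.add_sum_erase _ _ (Finset.mem_univ (0 : ZMod N)), mul_add]
  have e2 : -(N * (Real.exp (-(S * β)) * Z0)) ≤
      ∑ s ∈ Finset.univ.erase (0 : ZMod N), (f s).re := by
    have h1 : ∀ s ∈ Finset.univ.erase (0 : ZMod N), -(Real.exp (-(S * β)) * Z0) ≤ (f s).re := by
      intro s hs
      have h2 := hfs s (Finset.ne_of_mem_erase hs)
      have h3 := (abs_le.1 ((Complex.abs_re_le_norm (f s)).trans h2)).1
      exact h3
    have h2 := Finset.sum_le_sum h1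
    rw [Finset.sum_const, nsmul_eq_mul] at h2
    have h3 : ((Finset.univ.erase (0 : ZMod N)).card : ℝ) ≤ N := by
      have : (Finset.univ.erase (0 : ZMod N)).card ≤ N := by
        refine (Finset.card_erase_le).trans ?_
        rw [Finset.card_univ, ZMod.card]
      exact_mod_cast this
    have h4 : 0 < Real.exp (-(S * β)) * Z0 := by positivity
    nlinarith
  have k1 : Real.exp (-(α / 2 * q)) * Z0 ≤ (D0 l μ k β).A 0 q q q := by
    rw [e1]
    exact base_num hN1 hZ0p.le hα hC1 hε0 hε1 hε2 u1 u2 u3 u5 hq1 hq2 hf0 e2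
  refine le_trans ?_ k1
  refine mul_le_mul_of_nonneg_left ?_ (Real.exp_pos _).le
  -- `Z0` from below
  have z1 : Z0 = (D0 l μ k β).T (q + q) q := by
    rw [hZ0]
    have e0 := ZT_inv (μ := mu6 μ) (a := 2 * (q + q)) (b := 2 * q) hb hsy hcn 0
    simp only [Nat.cast_zero, mul_zero, zero_div, Real.cos_zero, one_mul] at e0
    rw [e0]
    show _ = ∑ c ∈ Finset.range N, ZX (mu6 μ) (Pool.Agent.Run7.h871.TC.wE N l k β) (ch N c)
      ![q + q, q]
    exact Finset.sum_congr rfl fun c _ =>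
      (ZX_eq (n := ![q + q, q]) (p := 2 * (q + q)) (q := 2 * q) rfl rfl).symm
  rw [z1]
  exact hok.T_ge (NeZero.pos N) hA0 hq

end

end Pool.Agent.Run7.h897.PC
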