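import Pool.Agent.Run7.h897.ST.PC
import Pool.Agent.Run7.h897.FS.Cz

/-!
# Project C: two loops and the sectors (abstract part)
-/

set_option linter.unusedSectionVars false

open MeasureTheory Filter Topology
open scoped ComplexConjugate

namespace Pool.Agent.Run7.h897.PC

open Pool.Agent.Run7.h897.FS

noncomputable section

variable {X : Type*} [MeasurableSpace X] {μ : Measure X} [IsProbabilityMeasure μ]
  {k : ℕ → X → X → ℝ} {N : ℕ} [NeZero N] {C : ZMod N → X → X} {p : X → ℂ}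
  {ω χ χ' : AddChar (ZMod N) ℂ}

/-- the twisted trace with two loops -/
def FF (μ : Measure X) (k : ℕ → X → X → ℝ) (C : ZMod N → X → X) (p : X → ℂ) (s : ZMod N)
    (r1 r2 : ℕ) : ℂ :=
  ∫ x, ∫ y, p x * conj (p y) * (((k r1 (C s x) y * k r2 y x : ℝ)) : ℂ) ∂μ ∂μ

lemma BC.conj' {f : X → ℂ} (hf : BC f) : BC fun x => conj (f x) := by
  obtain ⟨h1, D, hD⟩ := hf
  exact ⟨Complex.continuous_conj.measurable.comp h1, D, fun x => by
    rw [Complex.norm_conj]; exact hD x⟩

lemma FF_bc (hk : KS μ k) (h : Act μ k C) (hp : BC p) (s t : ZMod N) {r1 r2 : ℕ} (h1 : 1 ≤ r1)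
    (h2 : 1 ≤ r2) : BC fun z : X × X =>
      p z.1 * conj (p z.2) * (((k r1 (C s z.1) z.2 * k r2 (C t z.2) z.1 : ℝ)) : ℂ) := by
  have b1 : BM fun z : X × X => k r1 (C s z.1) z.2 :=
    (hk.bm r1 h1).comp (((h.mp s).measurable.comp measurable_fst).prodMk measurable_snd)
  have b2 : BM fun z : X × X => k r2 (C t z.2) z.1 :=
    (hk.bm r2 h2).comp (((h.mp t).measurable.comp measurable_snd).prodMk measurable_fst)
  exact ((hp.comp measurable_fst).mul (BC.conj' (hp.comp measurable_snd))).mul (b1.mul b2).toC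

lemma FF_move (hk : KS μ k) (h : Act μ k C) (hω : ∀ s x, p (C s x) = ω s * p x)
    (s t : ZMod N) {r1 r2 : ℕ} (h1 : 1 ≤ r1) (h2 : 1 ≤ r2) :
    ∫ x, ∫ y, p x * conj (p y) * (((k r1 (C s x) y * k r2 (C t y) x : ℝ)) : ℂ) ∂μ ∂μ =
      ω t * FF μ k C p (s + t) r1 r2 := by
  unfold FF
  rw [← integral_const_mul]
  congr 1
  funext x
  rw [← integral_const_mul, ← h.int_comp (-t)]
  congr 1
  funext y
  rw [hω, map_mul, AddChar.map_neg_eq_conj, Complex.conj_conj, h.move h1 (-t), neg_neg,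
    ← h.add, ← h.add, add_neg_cancel, h.zero, add_comm t s]
  ring

/-- the sectors of the trace with two loops -/
theorem AA_kx (hk : KS μ k) (h : Act μ k C) (hp : BC p)
    (hω : ∀ s x, p (C s x) = ω s * p x) (hχ : ∀ s, χ' s * ω s = χ s) {i j : ℕ} (hi : 1 ≤ i)
    (hj : 1 ≤ j) : AA μ (kx C χ k) (kx C χ' k) p i j =
      ((1 / N : ℂ) * ∑ s, χ s * FF μ k C p s (2 * i) (2 * j)).re := by
  have hN : (N : ℂ) ≠ 0 := by exact_mod_cast NeZero.ne N
  unfold AA
  congr 1
  have e1 : ∀ x y, p x * kx C χ k (2 * i) x y * conj (p y) * kx C χ' k (2 * j) y x =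
      ∑ s, ∑ t, (1 / N * (1 / N) * (χ s * χ' t)) *
        (p x * conj (p y) * (((k (2 * i) (C s x) y * k (2 * j) (C t y) x : ℝ)) : ℂ)) := by
    intro x y
    unfold kx
    have : p x * (1 / N * ∑ j, χ j * ((k (2 * i) (C j x) y : ℝ) : ℂ)) * conj (p y) *
        (1 / N * ∑ j_1, χ' j_1 * ((k (2 * j) (C j_1 y) x : ℝ) : ℂ)) =
        (1 / N * (1 / N) * (p x * conj (p y))) *
          ((∑ j, χ j * ((k (2 * i) (C j x) y : ℝ) : ℂ)) *
            ∑ j_1, χ' j_1 * ((k (2 * j) (C j_1 y) x : ℝ) : ℂ)) := by ring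
    rw [this, Finset.sum_mul_sum, Finset.mul_sum]
    refine Finset.sum_congr rfl fun s _ => ?_
    rw [Finset.mul_sum]
    refine Finset.sum_congr rfl fun t _ => ?_
    push_cast
    ring
  simp only [e1]
  have b1 : ∀ s t, BC fun z : X × X => (1 / N * (1 / N) * (χ s * χ' t)) *
      (p z.1 * conj (p z.2) * (((k (2 * i) (C s z.1) z.2 * k (2 * j) (C t z.2) z.1 : ℝ)) : ℂ)) :=
    fun s t => (BC.const _).mul (FF_bc hk h hp s t (by omega) (by omega))
  have b2 : ∀ s t x, BC fun y => (1 / N * (1 / N) * (χ s * χ' t)) *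
      (p x * conj (p y) * (((k (2 * i) (C s x) y * k (2 * j) (C t y) x : ℝ)) : ℂ)) :=
    fun s t x => (b1 s t).comp (φ := fun y => (x, y)) (measurable_const.prodMk measurable_id)
  have e2 : ∀ x, ∫ y, ∑ s, ∑ t, (1 / N * (1 / N) * (χ s * χ' t)) *
        (p x * conj (p y) * (((k (2 * i) (C s x) y * k (2 * j) (C t y) x : ℝ)) : ℂ)) ∂μ =
      ∑ s, ∑ t, ∫ y, (1 / N * (1 / N) * (χ s * χ' t)) *
        (p x * conj (p y) * (((k (2 * i) (C s x) y * k (2 * j) (C t y) x : ℝ)) : ℂ)) ∂μ := by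
    intro x
    rw [integral_finsetSum _ fun s _ => (BC.sum _ fun t _ => b2 s t x).int]
    exact Finset.sum_congr rfl fun s _ => integral_finsetSum _ fun t _ => (b2 s t x).int
  simp only [e2]
  have b3 : ∀ s t, BC fun x => ∫ y, (1 / N * (1 / N) * (χ s * χ' t)) *
        (p x * conj (p y) * (((k (2 * i) (C s x) y * k (2 * j) (C t y) x : ℝ)) : ℂ)) ∂μ :=
    fun s t => (b1 s t).intg
  rw [integral_finsetSum _ fun s _ => (BC.sum _ fun t _ => b3 s t).int]
  have e3 : ∀ s, ∫ x, ∑ t, ∫ y, (1 / N * (1 / N) * (χ s * χ' t)) *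
        (p x * conj (p y) * (((k (2 * i) (C s x) y * k (2 * j) (C t y) x : ℝ)) : ℂ)) ∂μ ∂μ =
      ∑ u, 1 / N * (1 / N) * (χ u * FF μ k C p u (2 * i) (2 * j)) := by
    intro s
    rw [integral_finsetSum _ fun t _ => (b3 s t).int,
      ← Equiv.sum_comp (Equiv.addLeft s) fun u => (1 / N * (1 / N) *
        (χ u * FF μ k C p u (2 * i) (2 * j)) : ℂ)]
    refine Finset.sum_congr rfl fun t _ => ?_
    simp only [integral_const_mul]
    rw [FF_move hk h hω s t (by omega) (by omega), Equiv.coe_addLeft, AddChar.map_add_eq_mul,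
      ← hχ t]
    ring
  simp only [e3]
  rw [Finset.sum_const, Finset.card_univ, ZMod.card, nsmul_eq_mul, Finset.mul_sum,
    Finset.mul_sum]
  refine Finset.sum_congr rfl fun u _ => ?_
  field_simp

/-- the twisted traces bound the twisted correlations -/
theorem FF_le (hk : KS μ k) (h : Act μ k C) (hp : BC p) (hp1 : ∀ x, ‖p x‖ ≤ 1)
    (hpos : ∀ n, 1 ≤ n → ∀ x y, 0 ≤ k n x y) (s : ZMod N) {r1 r2 : ℕ} (h1 : 1 ≤ r1)
    (h2 : 1 ≤ r2) : ‖FF μ k C p s r1 r2‖ ≤ Tw μ k C s (r1 + r2) := by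
  unfold FF Tw
  have bR : BM fun z : X × X => k r1 (C s z.1) z.2 * k r2 z.2 z.1 := by
    have b1 : BM fun z : X × X => k r1 (C s z.1) z.2 :=
      (hk.bm r1 h1).comp (((h.mp s).measurable.comp measurable_fst).prodMk measurable_snd)
    have b2 : BM fun z : X × X => k r2 z.2 z.1 :=
      (hk.bm r2 h2).comp (measurable_snd.prodMk measurable_fst)
    exact b1.mul b2
  have key : ∀ x, ‖∫ y, p x * conj (p y) * (((k r1 (C s x) y * k r2 y x : ℝ)) : ℂ) ∂μ‖ ≤
      k (r1 + r2) (C s x) x := by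
    intro x
    rw [hk.semi r1 r2 h1 h2]
    refine norm_integral_le_of_norm_le
      ((bR.comp (φ := fun y => (x, y)) (measurable_const.prodMk measurable_id)).int)
      (Eventually.of_forall fun y => ?_)
    have hk0 : 0 ≤ k r1 (C s x) y * k r2 y x := mul_nonneg (hpos r1 h1 _ _) (hpos r2 h2 _ _)
    rw [norm_mul, norm_mul, Complex.norm_conj, Complex.norm_real, Real.norm_of_nonneg hk0]
    have h3 : ‖p x‖ * ‖p y‖ ≤ 1 := mul_le_one₀ (hp1 x) (norm_nonneg _) (hp1 y)
    nlinarith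
  have b4 : BM fun x => k (r1 + r2) (C s x) x :=
    (hk.bm _ (by omega)).comp ((h.mp s).measurable.prodMk measurable_id)
  exact norm_integral_le_of_norm_le b4.int (Eventually.of_forall key)

/-- the untwisted correlation -/
theorem FF_zero (hk : KS μ k) (h : Act μ k C) (hp : BC p) {r1 r2 : ℕ} (h1 : 1 ≤ r1)
    (h2 : 1 ≤ r2) : (FF μ k C p 0 r1 r2).re =
      A2 μ k r2 r1 (fun x => (p x).re) (fun x => (p x).re) +
        A2 μ k r2 r1 (fun x => (p x).im) (fun x => (p x).im) := by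
  have hb := FF_bc hk h hp 0 0 h1 h2
  have hr : BM fun x => (p x).re := by
    obtain ⟨m1, D, hD⟩ := hp
    exact ⟨Complex.measurable_re.comp m1, D, fun x => (Complex.abs_re_le_norm _).trans (hD x)⟩
  have hi : BM fun x => (p x).im := by
    obtain ⟨m1, D, hD⟩ := hp
    exact ⟨Complex.measurable_im.comp m1, D, fun x => (Complex.abs_im_le_norm _).trans (hD x)⟩
  have bk : BM fun z : X × X => k r1 z.1 z.2 * k r2 z.2 z.1 :=
    ((hk.bm r1 h1).comp (measurable_fst.prodMk measurable_snd)).mul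
      ((hk.bm r2 h2).comp (measurable_snd.prodMk measurable_fst))
  have e0 : FF μ k C p 0 r1 r2 =
      ∫ x, ∫ y, p x * conj (p y) * (((k r1 x y * k r2 y x : ℝ)) : ℂ) ∂μ ∂μ := by
    unfold FF
    simp only [h.zero]
  have hb' : BC fun z : X × X => p z.1 * conj (p z.2) * (((k r1 z.1 z.2 * k r2 z.2 z.1 : ℝ)) : ℂ) := by
    simpa only [h.zero] using hb
  rw [e0, re_int hb'.intg]
  have e1 : ∀ x, (∫ y, p x * conj (p y) * (((k r1 x y * k r2 y x : ℝ)) : ℂ) ∂μ).re =
      ∫ y, ((p x).re * (p y).re * (k r1 x y * k r2 y x) +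
        (p x).im * (p y).im * (k r1 x y * k r2 y x)) ∂μ := by
    intro x
    rw [re_int (hb'.comp (φ := fun y => (x, y)) (measurable_const.prodMk measurable_id))]
    congr 1
    funext y
    rw [mul_comm, Complex.re_ofReal_mul, Complex.mul_re, Complex.conj_re, Complex.conj_im]
    ring
  simp only [e1]
  have c1 : BM fun z : X × X => (p z.1).re * (p z.2).re * (k r1 z.1 z.2 * k r2 z.2 z.1) :=
    ((hr.comp measurable_fst).mul (hr.comp measurable_snd)).mul bk
  have c2 : BM fun z : X × X => (p z.1).im * (p z.2).im * (k r1 z.1 z.2 * k r2 z.2 z.1) :=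
    ((hi.comp measurable_fst).mul (hi.comp measurable_snd)).mul bk
  have e2 : ∀ x, ∫ y, ((p x).re * (p y).re * (k r1 x y * k r2 y x) +
        (p x).im * (p y).im * (k r1 x y * k r2 y x)) ∂μ =
      (∫ y, (p x).re * (p y).re * (k r1 x y * k r2 y x) ∂μ) +
        ∫ y, (p x).im * (p y).im * (k r1 x y * k r2 y x) ∂μ := fun x =>
    integral_add (c1.comp (φ := fun y => (x, y)) (measurable_const.prodMk measurable_id)).int
      (c2.comp (φ := fun y => (x, y)) (measurable_const.prodMk measurable_id)).int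
  simp only [e2]
  rw [integral_add c1.intg.int c2.intg.int]
  unfold A2
  congr 1
  · rw [integral_integral_swap c1.int]
    congr 1
    funext y
    congr 1
    funext x
    ring
  · rw [integral_integral_swap c2.int]
    congr 1
    funext y
    congr 1
    funext x
    ring

end

end Pool.Agent.Run7.h897.PC
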