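import Pool.Agent.Run7.h897.ST.Pol
import Pool.Agent.Run7.h897.ST.Out
import Pool.Agent.Run7.h4.YM.Lower

/-!
# Project C: the correlation of two loops and the slices
-/

set_option linter.unusedSectionVars false
set_option linter.unusedVariables false
set_option linter.style.haveILetI false

open MeasureTheory Matrix Filter Topology
open scoped ComplexConjugate

namespace Pool.Agent.Run7.h897.PC

open Pool.Agent.H906R3.YM (UN mt)
open Pool.Agent.Run7.h630.R2 (zeta TwPair en)
open Pool.Agent.Run7.h897.FS Pool.Agent.Run7.h897.TW Pool.Agent.Run7.h897.ST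
open Run7.h4.YM (Link Site dir plaq line action twist polyakov)
open Run7.h4.VS (twist2 action2 Zf)

noncomputable section

variable {N : ℕ}

/-- the trace of the loop in a slice -/
def lp {b l : ℕ} (x : Ls b l → S6 N) : ℂ :=
  trace (mt ((List.range b).map fun t : ℕ => x ((((t : ℕ) : ZMod b), 0), 0)).prod) / N

lemma norm_tr6 [NeZero N] (g : S6 N) : ‖trace (mt g)‖ ≤ N := by
  letI : MeasurableSpace (S4 N) := borel _
  haveI : BorelSpace (S4 N) := ⟨rfl⟩
  have h := Run7.h4.YM.norm_tr_le ((phi N).symm g)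
  exact h

lemma lp_le [NeZero N] {b l : ℕ} (x : Ls b l → S6 N) : ‖lp x‖ ≤ 1 := by
  have hN : (0 : ℝ) < N := by exact_mod_cast NeZero.pos N
  unfold lp
  rw [norm_div, Complex.norm_natCast, div_le_one hN]
  exact norm_tr6 _

lemma lp_bc [NeZero N] {b l : ℕ} [NeZero b] [NeZero l] [MeasurableSpace (S6 N)]
    [BorelSpace (S6 N)] : BC (lp (N := N) (b := b) (l := l)) := by
  refine ⟨?_, 1, fun x => lp_le x⟩
  have h1 : Continuous fun x : Ls b l → S6 N =>
      ((List.range b).map fun t : ℕ => x ((((t : ℕ) : ZMod b), 0), 0)).prod :=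
    continuous_list_prod _ fun t _ => continuous_apply _
  have h2 : Continuous (lp (N := N) (b := b) (l := l)) := by
    unfold lp
    refine Continuous.div_const (Continuous.matrix_trace ?_) _
    exact (continuous_subtype_val.comp continuous_subtype_val).comp h1
  haveI : SecondCountableTopology (S6 N) := TopologicalSpace.Subtype.secondCountableTopology _
  exact h2.measurable

lemma mt_zc [NeZero N] (s : ZMod N) : mt (Pool.Agent.Run7.h871.UP.zc N s) =
    zeta N ^ s.val • (1 : Matrix _ _ ℂ) := Pool.Agent.Run7.h630.R2.mt_zk s.val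

lemma std_zeta [NeZero N] (s : ZMod N) : ZMod.stdAddChar (N := N) s = zeta N ^ s.val := by
  have h1 := ZMod.stdAddChar_coe (N := N) (s.val : ℤ)
  rw [Int.cast_natCast, ZMod.natCast_zmod_val] at h1
  rw [h1]
  unfold zeta
  rw [← Complex.exp_nat_mul]
  congr 1
  push_cast
  ring

/-- the action of the centre on the loop -/
lemma lp_Cs [NeZero N] {b l : ℕ} [NeZero b] [NeZero l] (s : ZMod N) (x : Ls b l → S6 N) :
    lp (Cs (Pool.Agent.Run7.h871.UP.zc N) s x) = ZMod.stdAddChar (N := N) s * lp x := by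
  obtain ⟨m, rfl⟩ : ∃ m, b = m + 1 := ⟨b - 1, by have := NeZero.pos b; omega⟩
  have key : ((List.range (m + 1)).map fun t : ℕ =>
      Cs (Pool.Agent.Run7.h871.UP.zc N) s x ((((t : ℕ) : ZMod (m + 1)), 0), 0)).prod =
      Pool.Agent.Run7.h871.UP.zc N s *
        ((List.range (m + 1)).map fun t : ℕ => x ((((t : ℕ) : ZMod (m + 1)), 0), 0)).prod := by
    rw [List.range_succ_eq_map, List.map_cons, List.map_cons, List.prod_cons, List.prod_cons,
      ← mul_assoc]
    have g1 : Cs (Pool.Agent.Run7.h871.UP.zc N) s x ((((0 : ℕ) : ZMod (m + 1)), 0), 0) =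
        Pool.Agent.Run7.h871.UP.zc N s * x ((((0 : ℕ) : ZMod (m + 1)), 0), 0) := by
      unfold Cs
      simp
    have g2 : ((List.map Nat.succ (List.range m)).map fun t : ℕ =>
        Cs (Pool.Agent.Run7.h871.UP.zc N) s x ((((t : ℕ) : ZMod (m + 1)), 0), 0)) =
        ((List.map Nat.succ (List.range m)).map fun t : ℕ =>
          x ((((t : ℕ) : ZMod (m + 1)), 0), 0)) := by
      rw [List.map_map, List.map_map]
      refine List.map_congr_left fun t ht => ?_
      have ht' : t < m := List.mem_range.1 ht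
      have hne : ((Nat.succ t : ℕ) : ZMod (m + 1)) ≠ 0 := by
        intro h
        rw [ZMod.natCast_eq_zero_iff] at h
        have := Nat.le_of_dvd (by omega) h
        omega
      simp only [Function.comp]
      unfold Cs
      rw [if_neg]
      intro h
      rcases h with h | h <;> first | exact hne h | exact hne h.1 | exact hne h.2 | simp_all
    rw [g1, g2]
  unfold lp
  rw [key]
  have h2 : mt (Pool.Agent.Run7.h871.UP.zc N s *
      ((List.range (m + 1)).map fun t : ℕ => x ((((t : ℕ) : ZMod (m + 1)), 0), 0)).prod) =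
      zeta N ^ s.val • mt ((List.range (m + 1)).map fun t : ℕ =>
        x ((((t : ℕ) : ZMod (m + 1)), 0), 0)).prod := by
    show Pool.Agent.H906R3.YM.mt (Pool.Agent.Run7.h871.UP.zc N s) *
      Pool.Agent.H906R3.YM.mt (N := N) _ = _
    rw [mt_zc, smul_mul_assoc, one_mul]
  rw [h2, trace_smul, std_zeta, smul_eq_mul, mul_div_assoc]

variable [MeasurableSpace (S4 N)] [BorelSpace (S4 N)] [MeasurableSpace (S6 N)]
  [BorelSpace (S6 N)]

/-- the configuration in slices orthogonal to the direction `1` -/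
def cfX {b L l : ℕ} (U : Link b L l → S4 N) : Lk L b l → S6 N := fun e => cfE U (exL b L l e)

lemma cfX_mp {b L l : ℕ} [NeZero b] [NeZero L] [NeZero l] (μ : Measure (S4 N))
    [IsProbabilityMeasure μ] :
    MeasurePreserving (cfX (N := N) (b := b) (L := L) (l := l)) (Measure.pi fun _ => μ)
      (PM (mu6 μ) (Lk L b l)) := by
  haveI := mu6_prob μ
  exact (FS.mp_comp (μ := mu6 μ) (exL b L l)).comp (cfE_mp μ)

lemma line_cfX {b L l : ℕ} [NeZero b] [NeZero L] [NeZero l] (U : Link b L l → S4 N) (x : ZMod L) :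
    lp (xs (sg L b l) (cfX U) x) = trace (line U x).1 / N := by
  unfold lp line
  congr 1
  have h1 : ((List.range b).map fun t : ℕ =>
      xs (sg L b l) (cfX U) x ((((t : ℕ) : ZMod b), 0), 0)).prod =
      phi N ((List.range b).map fun t : ℕ => U (0, ((t : ZMod b), x, 0, 0))).prod := by
    rw [map_list_prod, List.map_map]
    rfl
  rw [h1]
  exact mt_phi _ ▸ rfl

lemma act20 {b L l : ℕ} [NeZero N] [NeZero b] [NeZero L] [NeZero l] (k : ℕ)
    (U : Link b L l → S4 N) : action2 k 0 U = action k U := by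
  unfold action2 action
  refine Finset.sum_congr rfl fun x _ => Finset.sum_congr rfl fun i _ =>
    Finset.sum_congr rfl fun j _ => ?_
  have : twist2 N k 0 x i j = twist N k x i j := by
    unfold twist2 twist
    split_ifs
    · rfl
    · simp
    · rfl
  rw [this]

lemma wS_cfX {b L l : ℕ} [NeZero N] [NeZero b] [NeZero L] [NeZero l] (k : ℕ) (β : ℝ)
    (U : Link b L l → S4 N) :
    wS (Pool.Agent.Run7.h871.TC.wE N l k β) (fun _ => 0) (cfX U) =
      Real.exp (-(β * action k U)) := by
  rw [← act20, ← act_eq (N := N) k 0 β U]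
  have h0 : sj b L (((0 : ℕ) : ℕ) : ZMod N) = fun _ => 0 := by
    funext u
    unfold sj
    simp
  rw [h0]
  unfold wS cfX
  rw [nbE_ex]
  congr 1
  rw [← Equiv.prod_comp (Equiv.prodComm (ZMod L) (ZMod b))]
  refine Finset.prod_congr rfl fun u _ => ?_
  rw [bsE_ex (Pool.Agent.Run7.h871.TC.wE_sy β), neg_zero]
  rfl

/-- **The correlation of two loops in terms of the transfer kernels.** -/
theorem Fp_eq {b L l : ℕ} [NeZero N] [NeZero b] [NeZero L] [NeZero l] (μ : Measure (S4 N))
    [IsProbabilityMeasure μ] [μ.IsHaarMeasure] (k : ℕ) (β : ℝ) {R : ℕ} (hR : 1 ≤ R)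
    (hRL : R < L) :
    Fp b L l μ k β R = (FF (PM (mu6 μ) (Ls b l))
      (kp (PM (mu6 μ) (Ls b l)) (tk0 (mu6 μ) b (Pool.Agent.Run7.h871.TC.wE N l k β)))
      (Cs (Pool.Agent.Run7.h871.UP.zc N)) lp 0 (L - R) R).re := by
  haveI := mu6_prob μ
  haveI := mu6_haar μ
  haveI := inv_inv'' (mu6 μ)
  have hb : (Pool.Agent.Run7.h871.TC.wE N l k β).Bd := Pool.Agent.Run7.h871.TC.wE_bd β
  have hsy : (Pool.Agent.Run7.h871.TC.wE N l k β).Sy := Pool.Agent.Run7.h871.TC.wE_sy β
  have hcn : Cn (Pool.Agent.Run7.h871.TC.wE N l k β) (Pool.Agent.Run7.h871.UP.zc N) :=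
    Pool.Agent.Run7.h871.UP.zc_cn β
  have hp := lp_bc (N := N) (b := b) (l := l)
  have hr : BM fun x : Ls b l → S6 N => (lp x).re := by
    obtain ⟨m1, D, hD⟩ := hp
    exact ⟨Complex.measurable_re.comp m1, D, fun x => (Complex.abs_re_le_norm _).trans (hD x)⟩
  have hi : BM fun x : Ls b l → S6 N => (lp x).im := by
    obtain ⟨m1, D, hD⟩ := hp
    exact ⟨Complex.measurable_im.comp m1, D, fun x => (Complex.abs_im_le_norm _).trans (hD x)⟩
  rw [FF_zero (tk0_KS hb hsy) (Cs_act hb hcn) hp (by omega) hR]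
  have hM : Measurable fun V : Lk L b l → S6 N => fun t : ZMod L => xs (sg L b l) V t :=
    measurable_pi_iff.2 fun t => xs_meas _ t
  have c0 : BM fun V : Lk L b l → S6 N => (lp (xs (sg L b l) V 0)).re :=
    hr.comp (xs_meas _ 0)
  have c1 : BM fun V : Lk L b l → S6 N => (lp (xs (sg L b l) V (R : ZMod L))).re :=
    hr.comp (xs_meas _ _)
  have d0 : BM fun V : Lk L b l → S6 N => (lp (xs (sg L b l) V 0)).im :=
    hi.comp (xs_meas _ 0)
  have d1 : BM fun V : Lk L b l → S6 N => (lp (xs (sg L b l) V (R : ZMod L))).im :=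
    hi.comp (xs_meas _ _)
  have hw := wS_bm (a := L) (b := b) hb (fun _ => (0 : ZMod N))
  have e1 : Fp b L l μ k β R = ∫ V : Lk L b l → S6 N,
      ((lp (xs (sg L b l) V 0)).re * (lp (xs (sg L b l) V (R : ZMod L))).re +
        (lp (xs (sg L b l) V 0)).im * (lp (xs (sg L b l) V (R : ZMod L))).im) *
        wS (Pool.Agent.Run7.h871.TC.wE N l k β) (fun _ => 0) V ∂(PM (mu6 μ) (Lk L b l)) := by
    unfold Fp
    have h1 := cfX_mp (N := N) (b := b) (L := L) (l := l) μ
    rw [← h1.map_eq, integral_map h1.measurable.aemeasurable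
      ((((c0.mul c1).add (d0.mul d1)).mul hw).1.aestronglyMeasurable)]
    congr 1
    funext U
    rw [wS_cfX, line_cfX, line_cfX]
    congr 1
    rw [RCLike.star_def, Complex.mul_re, Complex.conj_re, Complex.conj_im]
    ring
  rw [e1]
  have e2 : ∀ V : Lk L b l → S6 N,
      ((lp (xs (sg L b l) V 0)).re * (lp (xs (sg L b l) V (R : ZMod L))).re +
        (lp (xs (sg L b l) V 0)).im * (lp (xs (sg L b l) V (R : ZMod L))).im) *
        wS (Pool.Agent.Run7.h871.TC.wE N l k β) (fun _ => 0) V =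
      (lp (xs (sg L b l) V 0)).re * (lp (xs (sg L b l) V (R : ZMod L))).re *
        ∏ t, kwS (Pool.Agent.Run7.h871.TC.wE N l k β) (fun _ => 0) (xs (sg L b l) V t)
          (gs (sg L b l) V t) (xs (sg L b l) V (t + 1)) +
      (lp (xs (sg L b l) V 0)).im * (lp (xs (sg L b l) V (R : ZMod L))).im *
        ∏ t, kwS (Pool.Agent.Run7.h871.TC.wE N l k β) (fun _ => 0) (xs (sg L b l) V t)
          (gs (sg L b l) V t) (xs (sg L b l) V (t + 1)) := by
    intro V
    rw [← add_mul]
    congr 1
    exact (prod_kwS (fun _ => (0 : ZMod N)) V).symm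
  simp only [e2]
  have hpr : BM fun V : Lk L b l → S6 N =>
      ∏ t, kwS (Pool.Agent.Run7.h871.TC.wE N l k β) (fun _ => 0) (xs (sg L b l) V t)
          (gs (sg L b l) V t) (xs (sg L b l) V (t + 1)) := by
    have : (fun V : Lk L b l → S6 N =>
        ∏ t, kwS (Pool.Agent.Run7.h871.TC.wE N l k β) (fun _ => 0) (xs (sg L b l) V t)
          (gs (sg L b l) V t) (xs (sg L b l) V (t + 1))) =
        wS (Pool.Agent.Run7.h871.TC.wE N l k β) (fun _ => 0) := by
      funext V
      exact prod_kwS (fun _ => (0 : ZMod N)) V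
    rw [this]
    exact hw
  rw [integral_add ((c0.mul c1).mul hpr).int ((d0.mul d1).mul hpr).int]
  congr 1
  · exact FS.int_ring_two (μ := mu6 μ) (sg L b l)
      (kwS_bm (b := b) hb fun _ => (0 : ZMod N)) hr hr hR hRL
  · exact FS.int_ring_two (μ := mu6 μ) (sg L b l)
      (kwS_bm (b := b) hb fun _ => (0 : ZMod N)) hi hi hR hRL

end

end Pool.Agent.Run7.h897.PC
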