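import Pool.Agent.Run7.h897.ST.Wro1
import Pool.Agent.Run7.h897.ST.Fin3
import Pool.Agent.Run7.h182.WL.Def

/-!
# Polyakov loops in a representation
-/

set_option linter.unusedSectionVars false
set_option linter.unusedVariables false
set_option linter.style.haveILetI false

open MeasureTheory Matrix Filter Topology
open scoped ComplexConjugate

namespace Pool.Agent.Run7.h897.PC

open Pool.Agent.Run7.h630.R2 (zeta TwPair en)
open Pool.Agent.Run7.h897.FS Pool.Agent.Run7.h897.TW Pool.Agent.Run7.h897.ST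
open Run7.h4.YM (Link Site dir plaq line action twist polyakov)
open Run7.h4.VS (twist2 action2)
open Run7.h182.WL (Fr Zn)

noncomputable section

variable {N d : ℕ}

/-- the centre acts in the representation `ρ` by the `c`-th powers -/
def Nality (ρ : S4 N →* unitaryGroup (Fin d) ℂ) (c : ℕ) : Prop :=
  ∀ (z : S4 N) (ω : ℂ), z.1 = ω • (1 : Matrix (Fin N) (Fin N) ℂ) →
    (ρ z).1 = ω ^ c • (1 : Matrix (Fin d) (Fin d) ℂ)

/-- the trace of the loop in a slice, in the representation `ρ` -/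
def lr (ρ : S4 N →* unitaryGroup (Fin d) ℂ) {b l : ℕ} (x : Ls b l → S6 N) : ℂ :=
  trace (ρ ((phi N).symm
    ((List.range b).map fun t : ℕ => x ((((t : ℕ) : ZMod b), 0), 0)).prod)).1 / d

lemma norm_tru [NeZero d] (g : unitaryGroup (Fin d) ℂ) : ‖trace g.1 / d‖ ≤ 1 := by
  have hd : (0 : ℝ) < d := by exact_mod_cast NeZero.pos d
  rw [norm_div, Complex.norm_natCast, div_le_one hd]
  unfold Matrix.trace
  refine (norm_sum_le _ _).trans ?_
  refine (Finset.sum_le_card_nsmul _ _ 1 fun i _ => entry_norm_bound_of_unitary g.2 i i).trans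
    (le_of_eq ?_)
  simp

variable {ρ : S4 N →* unitaryGroup (Fin d) ℂ}

lemma lr_le [NeZero d] {b l : ℕ} (x : Ls b l → S6 N) : ‖lr ρ x‖ ≤ 1 := norm_tru _

lemma lr_bc [NeZero N] [NeZero d] (hρ : Continuous ρ) {b l : ℕ} [NeZero b] [NeZero l]
    [MeasurableSpace (S6 N)] [BorelSpace (S6 N)] : BC (lr ρ (b := b) (l := l)) := by
  refine ⟨?_, 1, fun x => lr_le x⟩
  have h1 : Continuous fun x : Ls b l → S6 N =>
      ((List.range b).map fun t : ℕ => x ((((t : ℕ) : ZMod b), 0), 0)).prod :=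
    continuous_list_prod _ fun t _ => continuous_apply _
  have h2 : Continuous (lr ρ (b := b) (l := l)) := by
    unfold lr
    refine Continuous.div_const (Continuous.matrix_trace ?_) _
    exact continuous_subtype_val.comp (hρ.comp ((phi_symm_cont N).comp h1))
  haveI : SecondCountableTopology (S6 N) := TopologicalSpace.Subtype.secondCountableTopology _
  exact h2.measurable

lemma prod_Cs [NeZero N] {b l : ℕ} [NeZero b] [NeZero l] (s : ZMod N) (x : Ls b l → S6 N) :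
    ((List.range b).map fun t : ℕ =>
      Cs (Pool.Agent.Run7.h871.UP.zc N) s x ((((t : ℕ) : ZMod b), 0), 0)).prod =
      Pool.Agent.Run7.h871.UP.zc N s *
        ((List.range b).map fun t : ℕ => x ((((t : ℕ) : ZMod b), 0), 0)).prod := by
  obtain ⟨m, rfl⟩ : ∃ m, b = m + 1 := ⟨b - 1, by have := NeZero.pos b; omega⟩
  rw [List.range_succ_eq_map, List.map_cons, List.map_cons, List.prod_cons, List.prod_cons,
    ← mul_assoc]
  have g1 : Cs (Pool.Agent.Run7.h871.UP.zc N) s x ((((0 : ℕ) : ZMod (m + 1)), 0), 0) =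
      Pool.Agent.Run7.h871.UP.zc N s * x ((((0 : ℕ) : ZMod (m + 1)), 0), 0) := by
    unfold Cs
    simp
  have g2 : ((List.map Nat.succ (List.range m)).map fun t : ℕ =>
      Cs (Pool.Agent.Run7.h871.UP.zc N) s x ((((t : ℕ) : ZMod (m + 1)), 0), 0)) =
      ((List.map Nat.succ (List.range m)).map fun t : ℕ =>
        x ((((t : ℕ) : ZMod (m + 1)), 0), 0)) := by
    rw [List.map_map, List.map_map]
    refine List.map_congr_left fun t ht => ?_
    have ht' : t < m := List.mem_range.1 ht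
    have hne : ((Nat.succ t : ℕ) : ZMod (m + 1)) ≠ 0 := by
      intro h
      rw [ZMod.natCast_eq_zero_iff] at h
      have := Nat.le_of_dvd (by omega) h
      omega
    simp only [Function.comp]
    unfold Cs
    rw [if_neg]
    intro h
    rcases h with h | h <;> first | exact hne h | exact hne h.1 | exact hne h.2 | simp_all
  rw [g1, g2]

/-- the action of the centre on the loop -/
lemma lr_Cs [NeZero N] [NeZero d] {c : ℕ} (hc : Nality ρ c) {b l : ℕ} [NeZero b] [NeZero l]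
    (s : ZMod N) (x : Ls b l → S6 N) :
    lr ρ (Cs (Pool.Agent.Run7.h871.UP.zc N) s x) = ch N c s * lr ρ x := by
  unfold lr
  rw [prod_Cs, map_mul, map_mul]
  have h1 : ((phi N).symm (Pool.Agent.Run7.h871.UP.zc N s)).1 =
      (zeta N ^ s.val) • (1 : Matrix (Fin N) (Fin N) ℂ) := mt_zc s
  have h2 := hc _ _ h1
  have h3 : ch N c s = (zeta N ^ s.val) ^ c := by
    rw [← std_zeta]
    unfold ch
    rw [AddChar.mulShift_apply, ← nsmul_eq_mul, AddChar.map_nsmul_eq_pow]
  rw [h3]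
  have h4 : ∀ g : unitaryGroup (Fin d) ℂ,
      trace ((ρ ((phi N).symm (Pool.Agent.Run7.h871.UP.zc N s))) * g).1 =
      (zeta N ^ s.val) ^ c * trace g.1 := by
    intro g
    have h5 : ((ρ ((phi N).symm (Pool.Agent.Run7.h871.UP.zc N s))) * g).1 =
        (ρ ((phi N).symm (Pool.Agent.Run7.h871.UP.zc N s))).1 * g.1 := rfl
    rw [h5, h2, smul_mul_assoc, one_mul, trace_smul, smul_eq_mul]
  rw [h4, mul_div_assoc]

variable [MeasurableSpace (S4 N)] [BorelSpace (S4 N)] [MeasurableSpace (S6 N)]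
  [BorelSpace (S6 N)]

lemma line_lr {b L l : ℕ} [NeZero b] [NeZero L] [NeZero l] (U : Link b L l → S4 N) (x : ZMod L) :
    lr ρ (xs (sg L b l) (cfX U) x) = trace (ρ (line U x)).1 / d := by
  unfold lr line
  have h1 : ((List.range b).map fun t : ℕ =>
      xs (sg L b l) (cfX U) x ((((t : ℕ) : ZMod b), 0), 0)).prod =
      phi N ((List.range b).map fun t : ℕ => U (0, ((t : ZMod b), x, 0, 0))).prod := by
    rw [map_list_prod, List.map_map]
    rfl
  rw [h1, MulEquiv.symm_apply_apply]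

/-- the correlation of two functions of slices -/
theorem two_eq {b L l : ℕ} [NeZero N] [NeZero b] [NeZero L] [NeZero l] (μ : Measure (S4 N))
    [IsProbabilityMeasure μ] [μ.IsHaarMeasure] (k : ℕ) (β : ℝ) {p : (Ls b l → S6 N) → ℂ}
    (hp : BC p) {R : ℕ} (hR : 1 ≤ R) (hRL : R < L) :
    ∫ U : Link b L l → S4 N, (p (xs (sg L b l) (cfX U) 0) *
        conj (p (xs (sg L b l) (cfX U) (R : ZMod L)))).re * Real.exp (-(β * action k U))
        ∂(Measure.pi fun _ => μ) = (FF (PM (mu6 μ) (Ls b l))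
      (kp (PM (mu6 μ) (Ls b l)) (tk0 (mu6 μ) b (Pool.Agent.Run7.h871.TC.wE N l k β)))
      (Cs (Pool.Agent.Run7.h871.UP.zc N)) p 0 (L - R) R).re := by
  haveI := mu6_prob μ
  haveI := mu6_haar μ
  haveI := inv_inv'' (mu6 μ)
  have hb : (Pool.Agent.Run7.h871.TC.wE N l k β).Bd := Pool.Agent.Run7.h871.TC.wE_bd β
  have hsy : (Pool.Agent.Run7.h871.TC.wE N l k β).Sy := Pool.Agent.Run7.h871.TC.wE_sy β
  have hcn : Cn (Pool.Agent.Run7.h871.TC.wE N l k β) (Pool.Agent.Run7.h871.UP.zc N) :=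
    Pool.Agent.Run7.h871.UP.zc_cn β
  have hr : BM fun x : Ls b l → S6 N => (p x).re := by
    obtain ⟨m1, D, hD⟩ := hp
    exact ⟨Complex.measurable_re.comp m1, D, fun x => (Complex.abs_re_le_norm _).trans (hD x)⟩
  have hi : BM fun x : Ls b l → S6 N => (p x).im := by
    obtain ⟨m1, D, hD⟩ := hp
    exact ⟨Complex.measurable_im.comp m1, D, fun x => (Complex.abs_im_le_norm _).trans (hD x)⟩
  rw [FF_zero (tk0_KS hb hsy) (Cs_act hb hcn) hp (by omega) hR]
  have c0 : BM fun V : Lk L b l → S6 N => (p (xs (sg L b l) V 0)).re :=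
    hr.comp (xs_meas _ 0)
  have c1 : BM fun V : Lk L b l → S6 N => (p (xs (sg L b l) V (R : ZMod L))).re :=
    hr.comp (xs_meas _ _)
  have d0 : BM fun V : Lk L b l → S6 N => (p (xs (sg L b l) V 0)).im :=
    hi.comp (xs_meas _ 0)
  have d1 : BM fun V : Lk L b l → S6 N => (p (xs (sg L b l) V (R : ZMod L))).im :=
    hi.comp (xs_meas _ _)
  have hw := wS_bm (a := L) (b := b) hb (fun _ => (0 : ZMod N))
  have e1 : ∫ U : Link b L l → S4 N, (p (xs (sg L b l) (cfX U) 0) *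
        conj (p (xs (sg L b l) (cfX U) (R : ZMod L)))).re * Real.exp (-(β * action k U))
        ∂(Measure.pi fun _ => μ) = ∫ V : Lk L b l → S6 N,
      ((p (xs (sg L b l) V 0)).re * (p (xs (sg L b l) V (R : ZMod L))).re +
        (p (xs (sg L b l) V 0)).im * (p (xs (sg L b l) V (R : ZMod L))).im) *
        wS (Pool.Agent.Run7.h871.TC.wE N l k β) (fun _ => 0) V ∂(PM (mu6 μ) (Lk L b l)) := by
    have h1 := cfX_mp (N := N) (b := b) (L := L) (l := l) μ
    rw [← h1.map_eq, integral_map h1.measurable.aemeasurable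
      ((((c0.mul c1).add (d0.mul d1)).mul hw).1.aestronglyMeasurable)]
    congr 1
    funext U
    rw [wS_cfX]
    congr 1
    rw [Complex.mul_re, Complex.conj_re, Complex.conj_im]
    ring
  rw [e1]
  have e2 : ∀ V : Lk L b l → S6 N,
      ((p (xs (sg L b l) V 0)).re * (p (xs (sg L b l) V (R : ZMod L))).re +
        (p (xs (sg L b l) V 0)).im * (p (xs (sg L b l) V (R : ZMod L))).im) *
        wS (Pool.Agent.Run7.h871.TC.wE N l k β) (fun _ => 0) V =
      (p (xs (sg L b l) V 0)).re * (p (xs (sg L b l) V (R : ZMod L))).re *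
        ∏ t, kwS (Pool.Agent.Run7.h871.TC.wE N l k β) (fun _ => 0) (xs (sg L b l) V t)
          (gs (sg L b l) V t) (xs (sg L b l) V (t + 1)) +
      (p (xs (sg L b l) V 0)).im * (p (xs (sg L b l) V (R : ZMod L))).im *
        ∏ t, kwS (Pool.Agent.Run7.h871.TC.wE N l k β) (fun _ => 0) (xs (sg L b l) V t)
          (gs (sg L b l) V t) (xs (sg L b l) V (t + 1)) := by
    intro V
    rw [← add_mul]
    congr 1
    exact (prod_kwS (fun _ => (0 : ZMod N)) V).symm
  simp only [e2]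
  have hpr : BM fun V : Lk L b l → S6 N =>
      ∏ t, kwS (Pool.Agent.Run7.h871.TC.wE N l k β) (fun _ => 0) (xs (sg L b l) V t)
          (gs (sg L b l) V t) (xs (sg L b l) V (t + 1)) := by
    have : (fun V : Lk L b l → S6 N =>
        ∏ t, kwS (Pool.Agent.Run7.h871.TC.wE N l k β) (fun _ => 0) (xs (sg L b l) V t)
          (gs (sg L b l) V t) (xs (sg L b l) V (t + 1))) =
        wS (Pool.Agent.Run7.h871.TC.wE N l k β) (fun _ => 0) := by
      funext V
      exact prod_kwS (fun _ => (0 : ZMod N)) V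
    rw [this]
    exact hw
  rw [integral_add ((c0.mul c1).mul hpr).int ((d0.mul d1).mul hpr).int]
  congr 1
  · exact FS.int_ring_two (μ := mu6 μ) (sg L b l)
      (kwS_bm (b := b) hb fun _ => (0 : ZMod N)) hr hr hR hRL
  · exact FS.int_ring_two (μ := mu6 μ) (sg L b l)
      (kwS_bm (b := b) hb fun _ => (0 : ZMod N)) hi hi hR hRL

variable [NeZero N] [NeZero d]

theorem Fr_eq {b L l : ℕ} [NeZero b] [NeZero L] [NeZero l] (μ : Measure (S4 N))
    [IsProbabilityMeasure μ] [μ.IsHaarMeasure] (hρ : Continuous ρ) (k : ℕ) (β : ℝ) {R : ℕ}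
    (hR : 1 ≤ R) (hRL : R < L) :
    Fr ρ b L l μ k β R = (FF (PM (mu6 μ) (Ls b l))
      (kp (PM (mu6 μ) (Ls b l)) (tk0 (mu6 μ) b (Pool.Agent.Run7.h871.TC.wE N l k β)))
      (Cs (Pool.Agent.Run7.h871.UP.zc N)) (lr ρ) 0 (L - R) R).re := by
  rw [← two_eq μ k β (lr_bc hρ) hR hRL]
  unfold Fr
  simp only [line_lr, RCLike.star_def]

/-- the shift of the sectors by a loop of N-ality `c` -/
def sfc (N c e : ℕ) : ℕ := (e + (N - c % N)) % N

lemma sfc_lt (c e : ℕ) : sfc N c e < N := Nat.mod_lt _ (NeZero.pos N)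

lemma ch_sfc (c e : ℕ) (s : ZMod N) : ch N (sfc N c e) s * ch N c s = ch N e s := by
  have hlt : c % N < N := Nat.mod_lt _ (NeZero.pos N)
  unfold sfc
  rw [ch_mod]
  unfold ch
  rw [AddChar.mulShift_apply, AddChar.mulShift_apply, AddChar.mulShift_apply,
    ← AddChar.map_add_eq_mul]
  congr 1
  have h1 : ((e + (N - c % N) : ℕ) : ZMod N) + c = e := by
    have h2 : ((e + (N - c % N) + c % N : ℕ) : ZMod N) = ((e + N : ℕ) : ZMod N) := by
      congr 1
      omega
    rw [Nat.cast_add (e + (N - c % N)), ZMod.natCast_mod] at h2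
    rw [h2]
    simp
  calc ((e + (N - c % N) : ℕ) : ZMod N) * s + c * s =
        (((e + (N - c % N) : ℕ) : ZMod N) + c) * s := by ring
    _ = e * s := by rw [h1]

/-- the two loops and the sectors -/
theorem Fr_sec {q L l : ℕ} [NeZero (2 * q)] [NeZero L] [NeZero l] (μ : Measure (S4 N))
    [IsProbabilityMeasure μ] [μ.IsHaarMeasure] (hρ : Continuous ρ) {c : ℕ} (hc : Nality ρ c)
    (k : ℕ) (β : ℝ) {R : ℕ} (hR : 1 ≤ R) (hRL : R < L) :
    Fr ρ (2 * q) L l μ k β R ≤ ∑ e ∈ Finset.range N,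
      Real.sqrt (ZX (mu6 μ) (Pool.Agent.Run7.h871.TC.wE N l k β) (ch N e) ![L - R, q] *
        ZX (mu6 μ) (Pool.Agent.Run7.h871.TC.wE N l k β) (ch N (sfc N c e)) ![R, q]) := by
  haveI := mu6_prob μ
  haveI := mu6_haar μ
  haveI := right_inv'' (mu6 μ)
  haveI := inv_inv'' (mu6 μ)
  have hb : (Pool.Agent.Run7.h871.TC.wE N l k β).Bd := Pool.Agent.Run7.h871.TC.wE_bd β
  have hsy : (Pool.Agent.Run7.h871.TC.wE N l k β).Sy := Pool.Agent.Run7.h871.TC.wE_sy β
  have hcn : Cn (Pool.Agent.Run7.h871.TC.wE N l k β) (Pool.Agent.Run7.h871.UP.zc N) :=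
    Pool.Agent.Run7.h871.UP.zc_cn β
  have hEC : ∀ (e : ℕ) (n : ℕ), 1 ≤ n →
      EC (PM (mu6 μ) (Ls (2 * q) l)) (kx (Cs (Pool.Agent.Run7.h871.UP.zc N)) (ch N e)
        (kp (PM (mu6 μ) (Ls (2 * q) l)) (tk0 (mu6 μ) (2 * q)
          (Pool.Agent.Run7.h871.TC.wE N l k β)))) n =
        ZX (mu6 μ) (Pool.Agent.Run7.h871.TC.wE N l k β) (ch N e) ![n, q] := by
    intro e n hn
    haveI : NeZero (2 * n) := ⟨by omega⟩
    rw [← ZS_EC hb hsy hcn (ch N e) hn]
    exact (ZX_eq (n := ![n, q]) (p := 2 * n) (q := 2 * q) rfl rfl).symm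
  have h1 := fun e => AR_kx (μ := PM (mu6 μ) (Ls (2 * q) l)) (tk0_KS hb hsy) (Cs_act hb hcn)
      (lr_bc (b := 2 * q) (l := l) hρ)
      (ω := ch N c) (χ := ch N e) (χ' := ch N (sfc N c e)) (lr_Cs hc) (ch_sfc c e)
      (i := L - R) (j := R) (by omega) hR
  have h2 : Fr ρ (2 * q) L l μ k β R = ∑ e ∈ Finset.range N,
      AR (PM (mu6 μ) (Ls (2 * q) l))
        (kx (Cs (Pool.Agent.Run7.h871.UP.zc N)) (ch N e)
          (kp (PM (mu6 μ) (Ls (2 * q) l)) (tk0 (mu6 μ) (2 * q)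
            (Pool.Agent.Run7.h871.TC.wE N l k β))))
        (kx (Cs (Pool.Agent.Run7.h871.UP.zc N)) (ch N (sfc N c e))
          (kp (PM (mu6 μ) (Ls (2 * q) l)) (tk0 (mu6 μ) (2 * q)
            (Pool.Agent.Run7.h871.TC.wE N l k β)))) (lr ρ) (L - R) R := by
    simp only [h1]
    rw [← Complex.re_sum, ← Finset.mul_sum, Finset.sum_comm, Fr_eq μ hρ k β hR hRL]
    congr 1
    simp only [← Finset.sum_mul, ch_orth]
    have hN : (N : ℂ) ≠ 0 := by exact_mod_cast NeZero.ne N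
    rw [Finset.sum_eq_single 0]
    · rw [if_pos rfl, ← mul_assoc, one_div, inv_mul_cancel₀ hN, one_mul]
    · intro s _ hs
      rw [if_neg hs, zero_mul]
    · intro h
      exact absurd (Finset.mem_univ _) h
  rw [h2]
  refine Finset.sum_le_sum fun e _ => ?_
  have h3 := AR_le (μ := PM (mu6 μ) (Ls (2 * q) l))
    (kx_KC (tk0_KS hb hsy) (Cs_act hb hcn) (ch N e))
    (kx_KC (tk0_KS hb hsy) (Cs_act hb hcn) (ch N (sfc N c e))) (lr_bc (b := 2 * q) (l := l) hρ)
    (fun x => lr_le x) (r1 := L - R) (r2 := R) (by omega) hR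
  rw [hEC e (L - R) (by omega), hEC (sfc N c e) R hR] at h3
  exact h3

lemma Zn_eq {b L l k : ℕ} [NeZero b] [NeZero L] [NeZero l] (μ : Measure (S4 N))
    [IsProbabilityMeasure μ] [μ.IsHaarMeasure] (β : ℝ) :
    Zn b L l μ k β = ZT (mu6 μ) (Pool.Agent.Run7.h871.TC.wE N l k β) 0 b L := by
  have h1 := ST.Zf_eq (a := b) (b := L) (l := l) μ k 0 β
  rw [Nat.cast_zero] at h1
  rw [← h1]
  unfold Zn Run7.h4.VS.Zf
  simp only [act20]

/-- doubling of the distance -/
theorem Fr_dbl {q m l : ℕ} [NeZero (2 * q)] [NeZero (2 * m)] [NeZero l] (μ : Measure (S4 N))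
    [IsProbabilityMeasure μ] [μ.IsHaarMeasure] (hρ : Continuous ρ) (k : ℕ) (β : ℝ) {R : ℕ}
    (hR : 1 ≤ R) (hRm : R < m) :
    0 ≤ Fr ρ (2 * q) (2 * m) l μ k β (2 * R) ∧ Fr ρ (2 * q) (2 * m) l μ k β R ≤
      Real.sqrt (Zn (2 * q) (2 * m) l μ k β * Fr ρ (2 * q) (2 * m) l μ k β (2 * R)) := by
  haveI := mu6_prob μ
  haveI := mu6_haar μ
  haveI := right_inv'' (mu6 μ)
  haveI := inv_inv'' (mu6 μ)
  have hb : (Pool.Agent.Run7.h871.TC.wE N l k β).Bd := Pool.Agent.Run7.h871.TC.wE_bd β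
  have hsy : (Pool.Agent.Run7.h871.TC.wE N l k β).Sy := Pool.Agent.Run7.h871.TC.wE_sy β
  have hcn : Cn (Pool.Agent.Run7.h871.TC.wE N l k β) (Pool.Agent.Run7.h871.UP.zc N) :=
    Pool.Agent.Run7.h871.UP.zc_cn β
  have h1 := FF_dbl (μ := PM (mu6 μ) (Ls (2 * q) l)) (tk0_KS hb hsy) (Cs_act hb hcn)
    (lr_bc (b := 2 * q) (l := l) hρ) (fun x => lr_le x) (a := m - R) (b := R) (by omega) hR
  rw [Fr_eq μ hρ k β (R := 2 * R) (by omega) (by omega), Fr_eq μ hρ k β (R := R) hR (by omega),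
    Zn_eq, ZT_ex hb hsy, neg_zero, ZT_eq hb hsy hcn, Tw_zero (Cs_act hb hcn)]
  rw [show m - R + (m - R) = 2 * m - 2 * R by omega, show R + R = 2 * R by omega,
    show m - R + R = m by omega, show m - R + m = 2 * m - R by omega,
    (tk0_KS (μ := mu6 μ) (b := 2 * q) hb hsy).EE_diag (n := m) (by omega),
    show m + m = 2 * m by omega] at h1
  exact h1

end

end Pool.Agent.Run7.h897.PC
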