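import Pool.Agent.Run7.h897.ST.Pol

/-!
# Two loops: Schwarz inequalities
-/

set_option linter.unusedSectionVars false

open MeasureTheory Filter Topology
open scoped ComplexConjugate

namespace Pool.Agent.Run7.h897.PC

open Pool.Agent.Run7.h897.FS

noncomputable section

variable {X : Type*} [MeasurableSpace X] {μ : Measure X} [IsProbabilityMeasure μ]
  {k : ℕ → X → X → ℝ} {N : ℕ} [NeZero N] {C : ZMod N → X → X} {p : X → ℂ}
  {ω χ χ' : AddChar (ZMod N) ℂ}

/-- the trace of `p k_{r1} p* k'_{r2}` -/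
def AR (μ : Measure X) (k k' : ℕ → X → X → ℂ) (p : X → ℂ) (r1 r2 : ℕ) : ℝ :=
  (∫ x, ∫ y, p x * k r1 x y * conj (p y) * k' r2 y x ∂μ ∂μ).re

/-- the sectors of the trace with two loops -/
theorem AR_kx (hk : KS μ k) (h : Act μ k C) (hp : BC p)
    (hω : ∀ s x, p (C s x) = ω s * p x) (hχ : ∀ s, χ' s * ω s = χ s) {i j : ℕ} (hi : 1 ≤ i)
    (hj : 1 ≤ j) : AR μ (kx C χ k) (kx C χ' k) p i j =
      ((1 / N : ℂ) * ∑ s, χ s * FF μ k C p s i j).re := by
  have hN : (N : ℂ) ≠ 0 := by exact_mod_cast NeZero.ne N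
  unfold AR
  congr 1
  have e1 : ∀ x y, p x * kx C χ k i x y * conj (p y) * kx C χ' k j y x =
      ∑ s, ∑ t, (1 / N * (1 / N) * (χ s * χ' t)) *
        (p x * conj (p y) * (((k i (C s x) y * k j (C t y) x : ℝ)) : ℂ)) := by
    intro x y
    unfold kx
    have : p x * (1 / N * ∑ j, χ j * ((k i (C j x) y : ℝ) : ℂ)) * conj (p y) *
        (1 / N * ∑ j_1, χ' j_1 * ((k j (C j_1 y) x : ℝ) : ℂ)) =
        (1 / N * (1 / N) * (p x * conj (p y))) *
          ((∑ j, χ j * ((k i (C j x) y : ℝ) : ℂ)) *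
            ∑ j_1, χ' j_1 * ((k j (C j_1 y) x : ℝ) : ℂ)) := by ring
    rw [this, Finset.sum_mul_sum, Finset.mul_sum]
    refine Finset.sum_congr rfl fun s _ => ?_
    rw [Finset.mul_sum]
    refine Finset.sum_congr rfl fun t _ => ?_
    push_cast
    ring
  simp only [e1]
  have b1 : ∀ s t, BC fun z : X × X => (1 / N * (1 / N) * (χ s * χ' t)) *
      (p z.1 * conj (p z.2) * (((k i (C s z.1) z.2 * k j (C t z.2) z.1 : ℝ)) : ℂ)) :=
    fun s t => (BC.const _).mul (FF_bc hk h hp s t hi hj)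
  have b2 : ∀ s t x, BC fun y => (1 / N * (1 / N) * (χ s * χ' t)) *
      (p x * conj (p y) * (((k i (C s x) y * k j (C t y) x : ℝ)) : ℂ)) :=
    fun s t x => (b1 s t).comp (φ := fun y => (x, y)) (measurable_const.prodMk measurable_id)
  have e2 : ∀ x, ∫ y, ∑ s, ∑ t, (1 / N * (1 / N) * (χ s * χ' t)) *
        (p x * conj (p y) * (((k i (C s x) y * k j (C t y) x : ℝ)) : ℂ)) ∂μ =
      ∑ s, ∑ t, ∫ y, (1 / N * (1 / N) * (χ s * χ' t)) *
        (p x * conj (p y) * (((k i (C s x) y * k j (C t y) x : ℝ)) : ℂ)) ∂μ := by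
    intro x
    rw [integral_finsetSum _ fun s _ => (BC.sum _ fun t _ => b2 s t x).int]
    exact Finset.sum_congr rfl fun s _ => integral_finsetSum _ fun t _ => (b2 s t x).int
  simp only [e2]
  have b3 : ∀ s t, BC fun x => ∫ y, (1 / N * (1 / N) * (χ s * χ' t)) *
        (p x * conj (p y) * (((k i (C s x) y * k j (C t y) x : ℝ)) : ℂ)) ∂μ :=
    fun s t => (b1 s t).intg
  rw [integral_finsetSum _ fun s _ => (BC.sum _ fun t _ => b3 s t).int]
  have e3 : ∀ s, ∫ x, ∑ t, ∫ y, (1 / N * (1 / N) * (χ s * χ' t)) *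
        (p x * conj (p y) * (((k i (C s x) y * k j (C t y) x : ℝ)) : ℂ)) ∂μ ∂μ =
      ∑ u, 1 / N * (1 / N) * (χ u * FF μ k C p u i j) := by
    intro s
    rw [integral_finsetSum _ fun t _ => (b3 s t).int,
      ← Equiv.sum_comp (Equiv.addLeft s) fun u => (1 / N * (1 / N) *
        (χ u * FF μ k C p u i j) : ℂ)]
    refine Finset.sum_congr rfl fun t _ => ?_
    simp only [integral_const_mul]
    rw [FF_move hk h hω s t hi hj, Equiv.coe_addLeft, AddChar.map_add_eq_mul,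
      ← hχ t]
    ring
  simp only [e3]
  rw [Finset.sum_const, Finset.card_univ, ZMod.card, nsmul_eq_mul, Finset.mul_sum,
    Finset.mul_sum]
  refine Finset.sum_congr rfl fun u _ => ?_
  field_simp

/-- Schwarz -/
theorem AR_le {k k' : ℕ → X → X → ℂ} (h : KC μ k) (h' : KC μ k') (hp : BC p)
    (hp1 : ∀ x, ‖p x‖ ≤ 1) {r1 r2 : ℕ} (h1 : 1 ≤ r1) (h2 : 1 ≤ r2) :
    AR μ k k' p r1 r2 ≤ Real.sqrt (EC μ k r1 * EC μ k' r2) := by
  have bf : BC fun z : X × X => p z.1 * k r1 z.1 z.2 :=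
    (hp.comp measurable_fst).mul (h.bm r1 h1)
  have bg : BC fun z : X × X => conj (p z.2) * k' r2 z.2 z.1 :=
    (BC.conj' (hp.comp measurable_snd)).mul
      ((h'.bm r2 h2).comp (measurable_snd.prodMk measurable_fst))
  have e1 : ∫ x, ∫ y, p x * k r1 x y * conj (p y) * k' r2 y x ∂μ ∂μ =
      ∫ z : X × X, (p z.1 * k r1 z.1 z.2) * (conj (p z.2) * k' r2 z.2 z.1) ∂(μ.prod μ) := by
    rw [cfub (bf.mul bg)]
    congr 1
    funext x
    congr 1
    funext y
    ring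
  unfold AR
  rw [e1]
  refine (Complex.re_le_norm _).trans ?_
  refine Real.le_sqrt_of_sq_le ((cschwarz bf bg).trans ?_)
  have i1 : ∫ z : X × X, ‖p z.1 * k r1 z.1 z.2‖ ^ 2 ∂(μ.prod μ) ≤ EC μ k r1 := by
    rw [h.EC_prod h1]
    refine integral_mono (bf.norm.pow 2).int ((h.nb h1).pow 2).int fun z => ?_
    beta_reduce
    rw [norm_mul, mul_pow]
    have : ‖p z.1‖ ^ 2 ≤ 1 := pow_le_one₀ (norm_nonneg _) (hp1 _)
    exact mul_le_of_le_one_left (sq_nonneg _) this
  have i2 : ∫ z : X × X, ‖conj (p z.2) * k' r2 z.2 z.1‖ ^ 2 ∂(μ.prod μ) ≤ EC μ k' r2 := by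
    rw [h'.EC_prod h2]
    refine integral_mono (bg.norm.pow 2).int ((h'.nb h2).pow 2).int fun z => ?_
    beta_reduce
    rw [norm_mul, mul_pow, Complex.norm_conj, h'.nsymm h2 z.2 z.1]
    have : ‖p z.2‖ ^ 2 ≤ 1 := pow_le_one₀ (norm_nonneg _) (hp1 _)
    exact mul_le_of_le_one_left (sq_nonneg _) this
  exact mul_le_mul i1 i2 (integral_nonneg fun z => sq_nonneg _) (EC_nonneg _)

/-! ### doubling of the distance -/

section dbl

variable {F : X → ℝ}

/-- the kernel of `k_a F k_b` -/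
def Bk (μ : Measure X) (k : ℕ → X → X → ℝ) (F : X → ℝ) (a b : ℕ) (u y : X) : ℝ :=
  ∫ x, k a u x * F x * k b x y ∂μ

lemma Bk_bm (hk : KS μ k) (hF : BM F) {a b : ℕ} (ha : 1 ≤ a) (hb : 1 ≤ b) :
    BM (Function.uncurry (Bk μ k F a b)) := by
  have h1 : BM fun w : (X × X) × X => k a w.1.1 w.2 * F w.2 * k b w.2 w.1.2 :=
    (((hk.bm a ha).comp (measurable_fst.fst.prodMk measurable_snd)).mul
      (hF.comp measurable_snd)).mul
      ((hk.bm b hb).comp (measurable_snd.prodMk measurable_fst.snd))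
  exact h1.intg

lemma Bk_sq (hk : KS μ k) (hF : BM F) {a b : ℕ} (ha : 1 ≤ a) (hb : 1 ≤ b) :
    ∫ u, ∫ y, Bk μ k F a b u y ^ 2 ∂μ ∂μ = A2 μ k (b + b) (a + a) F F := by
  have bz : ∀ u y, BM fun x => k a u x * F x * k b x y := fun u y =>
    ((hk.bl ha u).mul hF).mul (hk.br hb y)
  have e1 : ∀ u y, Bk μ k F a b u y ^ 2 = ∫ z : X × X,
      (k a u z.1 * k a u z.2) * ((F z.1 * F z.2) * (k b z.1 y * k b z.2 y)) ∂(μ.prod μ) := by
    intro u y
    unfold Bk
    rw [sq, ← integral_prod_mul]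
    congr 1
    funext z
    ring
  simp only [e1]
  have w1 : BM fun w : (X × X) × (X × X) => (k a w.1.1 w.2.1 * k a w.1.1 w.2.2) *
      ((F w.2.1 * F w.2.2) * (k b w.2.1 w.1.2 * k b w.2.2 w.1.2)) := by
    have c : ∀ {n : ℕ}, 1 ≤ n → ∀ {φ ψ : (X × X) × (X × X) → X}, Measurable φ → Measurable ψ →
        BM fun w => k n (φ w) (ψ w) := fun hn _ _ hφ hψ => (hk.bm _ hn).comp (hφ.prodMk hψ)
    exact ((c ha measurable_fst.fst measurable_snd.fst).mul
      (c ha measurable_fst.fst measurable_snd.snd)).mul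
      (((hF.comp measurable_snd.fst).mul (hF.comp measurable_snd.snd)).mul
        ((c hb measurable_snd.fst measurable_fst.snd).mul
          (c hb measurable_snd.snd measurable_fst.snd)))
  -- exchange
  have e2 : ∫ u, ∫ y, (∫ z : X × X,
      (k a u z.1 * k a u z.2) * ((F z.1 * F z.2) * (k b z.1 y * k b z.2 y)) ∂(μ.prod μ)) ∂μ ∂μ =
      ∫ z : X × X, (∫ w : X × X, (k a w.1 z.1 * k a w.1 z.2) *
        ((F z.1 * F z.2) * (k b z.1 w.2 * k b z.2 w.2)) ∂(μ.prod μ)) ∂(μ.prod μ) := by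
    have h1 := swp (μ := μ.prod μ) (ν := μ.prod μ)
      (f := fun (w z : X × X) => (k a w.1 z.1 * k a w.1 z.2) *
        ((F z.1 * F z.2) * (k b z.1 w.2 * k b z.2 w.2))) w1
    rw [← h1, fub w1.intg]
  rw [e2]
  have e3 : ∀ z : X × X, ∫ w : X × X, (k a w.1 z.1 * k a w.1 z.2) *
        ((F z.1 * F z.2) * (k b z.1 w.2 * k b z.2 w.2)) ∂(μ.prod μ) =
      F z.1 * F z.2 * (k (b + b) z.1 z.2 * k (a + a) z.2 z.1) := by
    intro z
    have h1 : ∀ w : X × X, (k a w.1 z.1 * k a w.1 z.2) *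
        ((F z.1 * F z.2) * (k b z.1 w.2 * k b z.2 w.2)) =
        (k a z.2 w.1 * k a w.1 z.1) * ((F z.1 * F z.2) * (k b z.1 w.2 * k b w.2 z.2)) := by
      intro w
      rw [hk.symm a ha z.2 w.1, hk.symm b hb w.2 z.2]
      ring
    simp only [h1]
    rw [integral_prod_mul (fun u => k a z.2 u * k a u z.1)
      (fun y => (F z.1 * F z.2) * (k b z.1 y * k b y z.2)), integral_const_mul,
      ← hk.semi a a ha ha, ← hk.semi b b hb hb]
    ring
  simp only [e3]
  have w2 : BM fun z : X × X => F z.1 * F z.2 * (k (b + b) z.1 z.2 * k (a + a) z.2 z.1) :=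
    ((hF.comp measurable_fst).mul (hF.comp measurable_snd)).mul
      ((hk.bm (b + b) (by omega)).mul
        ((hk.bm (a + a) (by omega)).comp (measurable_snd.prodMk measurable_fst)))
  rw [fub w2]
  rfl

lemma Bk_in (hk : KS μ k) (hF : BM F) {a b : ℕ} (ha : 1 ≤ a) (hb : 1 ≤ b) :
    A2 μ k b (a + (a + b)) F F =
      ∫ u, ∫ y, (k (a + b) u y * F y) * Bk μ k F a b u y ∂μ ∂μ := by
  unfold A2 Bk
  -- both sides as integrals over triples
  have e1 : ∀ x y, F x * F y * (k b x y * k (a + (a + b)) y x) =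
      ∫ u, (F x * F y * k b x y) * (k (a + b) u y * k a u x) ∂μ := by
    intro x y
    rw [integral_const_mul, show a + (a + b) = (a + b) + a by ring,
      hk.semi (a + b) a (by omega) ha]
    have : ∫ u, k (a + b) u y * k a u x ∂μ = ∫ u, k (a + b) y u * k a u x ∂μ := by
      congr 1
      funext u
      rw [hk.symm (a + b) (by omega) u y]
    rw [this]
    ring
  have e2 : ∀ u y, k (a + b) u y * F y * ∫ x, k a u x * F x * k b x y ∂μ =
      ∫ x, (F x * F y * k b x y) * (k (a + b) u y * k a u x) ∂μ := by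
    intro u y
    rw [← integral_const_mul]
    congr 1
    funext x
    ring
  simp only [e1, e2]
  have c : ∀ {Y : Type _} [MeasurableSpace Y] {n : ℕ}, 1 ≤ n → ∀ {φ ψ : Y → X}, Measurable φ →
      Measurable ψ → BM fun w => k n (φ w) (ψ w) := fun hn _ _ hφ hψ =>
    (hk.bm _ hn).comp (hφ.prodMk hψ)
  have w1 : BM fun w : (X × X) × X => (F w.1.1 * F w.1.2 * k b w.1.1 w.1.2) *
      (k (a + b) w.2 w.1.2 * k a w.2 w.1.1) :=
    (((hF.comp measurable_fst.fst).mul (hF.comp measurable_fst.snd)).mul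
      (c hb measurable_fst.fst measurable_fst.snd)).mul
      ((c (by omega) measurable_snd measurable_fst.snd).mul
        (c ha measurable_snd measurable_fst.fst))
  have w2 : BM fun w : (X × X) × X => (F w.1.2 * F w.1.1 * k b w.1.2 w.1.1) *
      (k (a + b) w.2 w.1.1 * k a w.2 w.1.2) :=
    (((hF.comp measurable_fst.snd).mul (hF.comp measurable_fst.fst)).mul
      (c hb measurable_fst.snd measurable_fst.fst)).mul
      ((c (by omega) measurable_snd measurable_fst.fst).mul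
        (c ha measurable_snd measurable_fst.snd))
  -- x y u -> y x u
  rw [swp (μ := μ) (ν := μ) (f := fun x y => ∫ u, (F x * F y * k b x y) *
    (k (a + b) u y * k a u x) ∂μ) w1.intg]
  -- x u -> u x for fixed y
  have e3 : ∀ y, ∫ x, (∫ u, (F x * F y * k b x y) * (k (a + b) u y * k a u x) ∂μ) ∂μ =
      ∫ u, (∫ x, (F x * F y * k b x y) * (k (a + b) u y * k a u x) ∂μ) ∂μ := by
    intro y
    exact swp (μ := μ) (ν := μ) (f := fun x u => (F x * F y * k b x y) *
      (k (a + b) u y * k a u x))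
      (w1.comp (φ := fun z : X × X => ((z.1, y), z.2))
        ((measurable_fst.prodMk measurable_const).prodMk measurable_snd))
  simp only [e3]
  have w3 : BM fun w : (X × X) × X => (F w.2 * F w.1.1 * k b w.2 w.1.1) *
      (k (a + b) w.1.2 w.1.1 * k a w.1.2 w.2) :=
    (((hF.comp measurable_snd).mul (hF.comp measurable_fst.fst)).mul
      (c hb measurable_snd measurable_fst.fst)).mul
      ((c (by omega) measurable_fst.snd measurable_fst.fst).mul
        (c ha measurable_fst.snd measurable_snd))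
  exact swp (μ := μ) (ν := μ) (f := fun y u => ∫ x, (F x * F y * k b x y) *
    (k (a + b) u y * k a u x) ∂μ) w3.intg

/-- Schwarz for one function -/
lemma A2_cs (hk : KS μ k) (hF : BM F) {a b : ℕ} (ha : 1 ≤ a) (hb : 1 ≤ b) :
    |A2 μ k b (a + (a + b)) F F| ≤ Real.sqrt (∫ u, ∫ y, (k (a + b) u y * F y) ^ 2 ∂μ ∂μ) *
      Real.sqrt (A2 μ k (b + b) (a + a) F F) := by
  have h1 : BM fun z : X × X => k (a + b) z.1 z.2 * F z.2 :=
    (hk.bm (a + b) (by omega)).mul (hF.comp measurable_snd)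
  have h2 : BM fun z : X × X => Bk μ k F a b z.1 z.2 := Bk_bm hk hF ha hb
  rw [Bk_in hk hF ha hb, ← Bk_sq hk hF ha hb]
  have h3 := schwarz' (μ := μ.prod μ) h1 h2
  rw [fub (h1.mul h2), fub (h1.pow 2), fub (h2.pow 2)] at h3
  exact h3

lemma A2_nonneg (hk : KS μ k) (hF : BM F) {a b : ℕ} (ha : 1 ≤ a) (hb : 1 ≤ b) :
    0 ≤ A2 μ k (b + b) (a + a) F F := by
  rw [← Bk_sq hk hF ha hb]
  exact integral_nonneg fun u => integral_nonneg fun y => sq_nonneg _

lemma sqrt_add {a b c d : ℝ} (ha : 0 ≤ a) (hb : 0 ≤ b) (hc : 0 ≤ c) (hd : 0 ≤ d) :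
    Real.sqrt a * Real.sqrt b + Real.sqrt c * Real.sqrt d ≤ Real.sqrt ((a + c) * (b + d)) := by
  refine Real.le_sqrt_of_sq_le ?_
  have h1 := Real.sq_sqrt ha
  have h2 := Real.sq_sqrt hb
  have h3 := Real.sq_sqrt hc
  have h4 := Real.sq_sqrt hd
  set x := Real.sqrt a
  set y := Real.sqrt b
  set z := Real.sqrt c
  set t := Real.sqrt d
  rw [← h1, ← h2, ← h3, ← h4]
  nlinarith [sq_nonneg (x * t - y * z)]

/-- **Doubling of the distance.** -/
theorem FF_dbl (hk : KS μ k) (h : Act μ k C) (hp : BC p) (hp1 : ∀ x, ‖p x‖ ≤ 1) {a b : ℕ}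
    (ha : 1 ≤ a) (hb : 1 ≤ b) :
    0 ≤ (FF μ k C p 0 (a + a) (b + b)).re ∧ (FF μ k C p 0 (a + (a + b)) b).re ≤
      Real.sqrt (EE μ k (a + b) * (FF μ k C p 0 (a + a) (b + b)).re) := by
  have hr : BM fun x => (p x).re := by
    obtain ⟨m1, D, hD⟩ := hp
    exact ⟨Complex.measurable_re.comp m1, D, fun x => (Complex.abs_re_le_norm _).trans (hD x)⟩
  have hi : BM fun x => (p x).im := by
    obtain ⟨m1, D, hD⟩ := hp
    exact ⟨Complex.measurable_im.comp m1, D, fun x => (Complex.abs_im_le_norm _).trans (hD x)⟩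
  rw [FF_zero hk h hp (r1 := a + a) (r2 := b + b) (by omega) (by omega),
    FF_zero hk h hp (r1 := a + (a + b)) (r2 := b) (by omega) hb]
  have n1 := A2_nonneg hk hr ha hb
  have n2 := A2_nonneg hk hi ha hb
  refine ⟨by positivity, ?_⟩
  have m1 : 0 ≤ ∫ u, ∫ y, (k (a + b) u y * (p y).re) ^ 2 ∂μ ∂μ :=
    integral_nonneg fun u => integral_nonneg fun y => sq_nonneg _
  have m2 : 0 ≤ ∫ u, ∫ y, (k (a + b) u y * (p y).im) ^ 2 ∂μ ∂μ :=
    integral_nonneg fun u => integral_nonneg fun y => sq_nonneg _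
  have c1 := A2_cs hk hr ha hb
  have c2 := A2_cs hk hi ha hb
  have h3 := sqrt_add m1 n1 m2 n2
  refine ((add_le_add (le_abs_self _) (le_abs_self _)).trans (add_le_add c1 c2)).trans
    (h3.trans (Real.sqrt_le_sqrt ?_))
  refine mul_le_mul_of_nonneg_right ?_ (by positivity)
  have q1 : BM fun z : X × X => (k (a + b) z.1 z.2 * (p z.2).re) ^ 2 :=
    ((hk.bm (a + b) (by omega)).mul (hr.comp measurable_snd)).pow 2
  have q2 : BM fun z : X × X => (k (a + b) z.1 z.2 * (p z.2).im) ^ 2 :=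
    ((hk.bm (a + b) (by omega)).mul (hi.comp measurable_snd)).pow 2
  rw [hk.EE_prod (by omega), ← fub q1, ← fub q2, ← integral_add q1.int q2.int]
  refine integral_mono (q1.add q2).int ((hk.bm (a + b) (by omega)).pow 2).int fun z => ?_
  show (k (a + b) z.1 z.2 * (p z.2).re) ^ 2 + (k (a + b) z.1 z.2 * (p z.2).im) ^ 2 ≤
    k (a + b) z.1 z.2 ^ 2
  have h4 : (p z.2).re ^ 2 + (p z.2).im ^ 2 ≤ 1 := by
    have h5 := pow_le_one₀ (n := 2) (norm_nonneg (p z.2)) (hp1 z.2)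
    rw [← Complex.normSq_eq_norm_sq, Complex.normSq_apply] at h5
    linarith
  have h6 := sq_nonneg (k (a + b) z.1 z.2)
  nlinarith

end dbl

end

end Pool.Agent.Run7.h897.PC
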